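import Mathlib

open Filter Topology Finset

namespace Pool.Agent.MP_99e3ed_co.H84

/-- A function together with a first derivative function near a point and a second derivative
at the point. -/
def Jet (u u1 : ℝ → ℝ) (u2 s : ℝ) : Prop :=
  (∀ᶠ x in 𝓝 s, HasDerivAt u (u1 x) x) ∧ HasDerivAt u1 u2 s

theorem Jet.hasDerivAt {u u1 : ℝ → ℝ} {u2 s : ℝ} (h : Jet u u1 u2 s) :
    HasDerivAt u (u1 s) s := h.1.self_of_nhds

theorem Jet.continuousAt {u u1 : ℝ → ℝ} {u2 s : ℝ} (h : Jet u u1 u2 s) :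
    ContinuousAt u s := h.hasDerivAt.continuousAt

theorem Jet.continuousAt1 {u u1 : ℝ → ℝ} {u2 s : ℝ} (h : Jet u u1 u2 s) :
    ContinuousAt u1 s := h.2.continuousAt

theorem Jet.unique {u v u1 v1 : ℝ → ℝ} {u2 v2 s : ℝ} (hu : Jet u u1 u2 s)
    (hv : Jet v v1 v2 s) (h : u =ᶠ[𝓝 s] v) : u1 s = v1 s ∧ u2 = v2 := by
  have h1 : u1 =ᶠ[𝓝 s] v1 := by
    have h' : ∀ᶠ x in 𝓝 s, u =ᶠ[𝓝 x] v := h.eventuallyEq_nhds
    filter_upwards [hu.1, hv.1, h'] with x hx hy hxy
    exact (hx.congr_of_eventuallyEq hxy.symm).unique hy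
  refine ⟨h1.self_of_nhds, ?_⟩
  exact (hu.2.congr_of_eventuallyEq h1.symm).unique hv.2

/-- the quantity `w'/(w(w-1))` -/
noncomputable def xi (w w1 : ℝ) : ℝ := w1 / (w * (w - 1))

/-- the derivative of `w'/(w(w-1))` -/
noncomputable def xi' (w w1 w2 : ℝ) : ℝ :=
  w2 / (w * (w - 1)) - w1 ^ 2 * (2 * w - 1) / (w * (w - 1)) ^ 2

theorem hasDerivAt_xi {u u1 : ℝ → ℝ} {u2 s : ℝ} (h : HasDerivAt u (u1 s) s)
    (h2 : HasDerivAt u1 u2 s) (h1 : 1 < u s) :
    HasDerivAt (fun x => xi (u x) (u1 x)) (xi' (u s) (u1 s) u2) s := by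
  have hne : u s * (u s - 1) ≠ 0 := by
    have : 0 < u s * (u s - 1) := mul_pos (by linarith) (by linarith)
    exact this.ne'
  have hd : HasDerivAt (fun x => u x * (u x - 1)) (u1 s * (u s - 1) + u s * u1 s) s :=
    h.mul (h.sub_const 1)
  have := h2.div hd hne
  unfold xi xi'
  refine this.congr_deriv ?_
  have hA : u s ≠ 0 := by linarith
  have hB : u s - 1 ≠ 0 := by linarith
  field_simp
  ring

theorem hasDerivAt_factor {u : ℝ → ℝ} {u1 s : ℝ} (h : HasDerivAt u u1 s) (h1 : 1 < u s) :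
    HasDerivAt (fun x => 1 - 1 / u x) ((1 - 1 / u s) * xi (u s) u1) s := by
  have hA : u s ≠ 0 := by linarith
  have hB : u s - 1 ≠ 0 := by linarith
  have := ((hasDerivAt_const s (1:ℝ)).div h hA).const_sub 1
  refine this.congr_deriv ?_
  unfold xi
  field_simp
  ring

/-- the product `alpha` -/
noncomputable def alp (u : ℕ → ℝ → ℝ) (d : ℕ) (x : ℝ) : ℝ := ∏ l ∈ range d, (1 - 1 / u l x)

noncomputable def Dsum (u u1 : ℕ → ℝ → ℝ) (d : ℕ) (x : ℝ) : ℝ :=
  ∑ l ∈ range d, xi (u l x) (u1 l x)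

noncomputable def Dsum' (u u1 : ℕ → ℝ → ℝ) (u2 : ℕ → ℝ) (d : ℕ) (x : ℝ) : ℝ :=
  ∑ l ∈ range d, xi' (u l x) (u1 l x) (u2 l)

theorem hasDerivAt_alp {u u1 : ℕ → ℝ → ℝ} {d : ℕ} {s : ℝ}
    (h : ∀ l < d, HasDerivAt (u l) (u1 l s) s) (h1 : ∀ l < d, 1 < u l s) :
    HasDerivAt (alp u d) (alp u d s * Dsum u u1 d s) s := by
  induction d with
  | zero =>
    simp only [alp, Dsum, range_zero, prod_empty, sum_empty, mul_zero]
    exact hasDerivAt_const s 1
  | succ d ih =>
    have ih' := ih (fun l hl => h l (by omega)) (fun l hl => h1 l (by omega))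
    have hf := hasDerivAt_factor (h d (by omega)) (h1 d (by omega))
    have := ih'.mul hf
    have he : alp u (d + 1) = fun x => alp u d x * (1 - 1 / u d x) := by
      funext x
      simp [alp, prod_range_succ]
    rw [he]
    refine this.congr_deriv ?_
    simp only [Dsum, sum_range_succ]
    ring

theorem hasDerivAt_Dsum {u u1 : ℕ → ℝ → ℝ} {u2 : ℕ → ℝ} {d : ℕ} {s : ℝ}
    (h : ∀ l < d, HasDerivAt (u l) (u1 l s) s) (h2 : ∀ l < d, HasDerivAt (u1 l) (u2 l) s)
    (h1 : ∀ l < d, 1 < u l s) :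
    HasDerivAt (Dsum u u1 d) (Dsum' u u1 u2 d s) s := by
  induction d with
  | zero =>
    simp only [Dsum', range_zero, sum_empty]
    have : Dsum u u1 0 = fun _ => 0 := by funext x; simp [Dsum]
    rw [this]
    exact hasDerivAt_const s 0
  | succ d ih =>
    have ih' := ih (fun l hl => h l (by omega)) (fun l hl => h2 l (by omega))
      (fun l hl => h1 l (by omega))
    have hf := hasDerivAt_xi (h d (by omega)) (h2 d (by omega)) (h1 d (by omega))
    have := ih'.add hf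
    have he : Dsum u u1 (d + 1) = fun x => Dsum u u1 d x + xi (u d x) (u1 d x) := by
      funext x
      simp [Dsum, sum_range_succ]
    rw [he]
    refine this.congr_deriv ?_
    simp only [Dsum', sum_range_succ]

theorem alp_pos {u : ℕ → ℝ → ℝ} {d : ℕ} {s : ℝ} (h1 : ∀ l < d, 1 < u l s) :
    0 < alp u d s := by
  apply prod_pos
  intro l hl
  have := h1 l (mem_range.1 hl)
  have h2 : 1 / u l s < 1 := by
    rw [div_lt_one (by linarith)]
    exact this
  linarith

theorem alp_le_one {u : ℕ → ℝ → ℝ} {d : ℕ} {s : ℝ} (h1 : ∀ l < d, 1 < u l s) :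
    alp u d s ≤ 1 := by
  apply prod_le_one
  · intro l hl
    have := h1 l (mem_range.1 hl)
    have h2 : 1 / u l s < 1 := by
      rw [div_lt_one (by linarith)]
      exact this
    linarith
  · intro l hl
    have := h1 l (mem_range.1 hl)
    have : 0 < 1 / u l s := by positivity
    linarith

/-- `U = alpha/(2-alpha)` -/
noncomputable def Uf (u : ℕ → ℝ → ℝ) (d : ℕ) (x : ℝ) : ℝ := alp u d x / (2 - alp u d x)

theorem hasDerivAt_Uf {u u1 : ℕ → ℝ → ℝ} {d : ℕ} {s : ℝ}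
    (h : ∀ l < d, HasDerivAt (u l) (u1 l s) s) (h1 : ∀ l < d, 1 < u l s) :
    HasDerivAt (Uf u d) (Uf u d s * (1 + Uf u d s) * Dsum u u1 d s) s := by
  have ha := hasDerivAt_alp h h1
  have hne : 2 - alp u d s ≠ 0 := by
    have := alp_le_one h1
    linarith
  have := ha.div (ha.const_sub 2) hne
  refine this.congr_deriv ?_
  unfold Uf
  field_simp
  ring

/-- The calculus step: first and second derivative of `w` when `k w = n + x U`. -/
theorem jet_step {u u1 : ℕ → ℝ → ℝ} {u2 : ℕ → ℝ} {d : ℕ} {n k s : ℝ} {W W1 : ℝ → ℝ} {W2 : ℝ}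
    (hk : 0 < k) (hu : ∀ l < d, Jet (u l) (u1 l) (u2 l) s) (h1 : ∀ l < d, 1 < u l s)
    (hJ : Jet W W1 W2 s) (hW : ∀ᶠ x in 𝓝 s, k * W x = n + x * Uf u d x) :
    k * W1 s = Uf u d s * (1 + s * Dsum u u1 d s * (1 + Uf u d s)) ∧
    k * W2 = Uf u d s * (1 + Uf u d s) * (2 * Dsum u u1 d s + s * Dsum' u u1 u2 d s +
      s * Dsum u u1 d s ^ 2 * (1 + 2 * Uf u d s)) := by
  have hev : ∀ᶠ x in 𝓝 s, (∀ l < d, HasDerivAt (u l) (u1 l x) x) ∧ (∀ l < d, 1 < u l x) := by
    have e1 : ∀ᶠ x in 𝓝 s, ∀ l ∈ range d, HasDerivAt (u l) (u1 l x) x := by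
      rw [Finset.eventually_all]
      intro l hl
      exact (hu l (mem_range.1 hl)).1
    have e2 : ∀ᶠ x in 𝓝 s, ∀ l ∈ range d, 1 < u l x := by
      rw [Finset.eventually_all]
      intro l hl
      exact (hu l (mem_range.1 hl)).continuousAt.eventually_const_lt (h1 l (mem_range.1 hl))
    filter_upwards [e1, e2] with x hx1 hx2
    exact ⟨fun l hl => hx1 l (mem_range.2 hl), fun l hl => hx2 l (mem_range.2 hl)⟩
  have hd0 : ∀ l < d, HasDerivAt (u l) (u1 l s) s := hev.self_of_nhds.1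
  have hd2 : ∀ l < d, HasDerivAt (u1 l) (u2 l) s := fun l hl => (hu l hl).2
  -- the comparison function
  have hR : Jet (fun x => (n + x * Uf u d x) / k)
      (fun x => (Uf u d x + x * (Uf u d x * (1 + Uf u d x) * Dsum u u1 d x)) / k)
      ((Uf u d s * (1 + Uf u d s) * (2 * Dsum u u1 d s + s * Dsum' u u1 u2 d s +
      s * Dsum u u1 d s ^ 2 * (1 + 2 * Uf u d s))) / k) s := by
    refine ⟨?_, ?_⟩
    · filter_upwards [hev] with x hx
      have hU := hasDerivAt_Uf hx.1 hx.2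
      have h3 := (((hasDerivAt_id x).mul hU).const_add n).div_const k
      refine h3.congr_deriv ?_
      simp only [id]
      ring
    · have hU := hasDerivAt_Uf hd0 h1
      have hD := hasDerivAt_Dsum hd0 hd2 h1
      have h3 := (hU.add ((hasDerivAt_id s).mul ((hU.mul (hU.const_add 1)).mul hD))).div_const k
      refine h3.congr_deriv ?_
      simp only [id, Pi.mul_apply]
      ring
  have heq : W =ᶠ[𝓝 s] fun x => (n + x * Uf u d x) / k := by
    filter_upwards [hW] with x hx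
    rw [← hx]
    field_simp
  obtain ⟨e1, e2⟩ := hJ.unique hR heq
  constructor
  · rw [e1]
    field_simp
  · rw [e2]
    field_simp

end Pool.Agent.MP_99e3ed_co.H84
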