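import Mathlib

open Finset

namespace Pool.Agent.MP_99e3ed_co.H84

theorem prod_tangent {d : ℕ} {a r : ℕ → ℝ} (ha : ∀ l < d, 0 < a l) (hr : ∀ l < d, a l ≤ r l) :
    (∏ l ∈ range d, a l) * (1 + ∑ l ∈ range d, (r l - a l) / a l) ≤ ∏ l ∈ range d, r l := by
  induction d with
  | zero => simp
  | succ d ih =>
    have ih' := ih (fun l hl => ha l (by omega)) (fun l hl => hr l (by omega))
    have had := ha d (by omega)
    have hrd := hr d (by omega)
    rw [prod_range_succ, prod_range_succ, sum_range_succ]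
    have hA : 0 < ∏ l ∈ range d, a l := prod_pos fun l hl => ha l (by
      have := mem_range.1 hl; omega)
    have hS : 0 ≤ ∑ l ∈ range d, (r l - a l) / a l := sum_nonneg fun l hl => by
      have h1 := mem_range.1 hl
      have h2 := ha l (by omega)
      have h3 := hr l (by omega)
      exact div_nonneg (by linarith) h2.le
    set A := ∏ l ∈ range d, a l
    set S := ∑ l ∈ range d, (r l - a l) / a l
    have h1 : A * (1 + S) * r d ≤ (∏ l ∈ range d, r l) * r d :=
      mul_le_mul_of_nonneg_right ih' (by linarith)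
    refine le_trans ?_ h1
    have h2 : A * a d * (1 + (S + (r d - a d) / a d)) = A * (1 + S) * a d + A * (r d - a d) := by
      field_simp
      ring
    rw [h2]
    nlinarith [mul_nonneg (mul_nonneg hA.le hS) (sub_nonneg.2 hrd)]

theorem tele_prod {d : ℕ} {N : ℝ} (h : (d : ℝ) < N) :
    ∏ l ∈ range d, ((N - l) / (N - l - 1)) = N / (N - d) := by
  induction d with
  | zero =>
    simp only [range_zero, prod_empty, Nat.cast_zero, sub_zero]
    rw [div_self]
    simp only [Nat.cast_zero] at h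
    exact h.ne'
  | succ d ih =>
    push_cast at h
    rw [prod_range_succ, ih (by linarith)]
    have h1 : N - d ≠ 0 := by linarith
    have h2 : N - d - 1 ≠ 0 := by
      intro h3; linarith
    push_cast
    have h3 : N - (d + 1) = N - d - 1 := by ring
    rw [h3]
    field_simp

theorem tele_sum {d : ℕ} {N : ℝ} (h : (d : ℝ) < N) :
    ∑ l ∈ range d, ((N - l) / (N - l - 1) - 1) / (N - l) = d / (N * (N - d)) := by
  induction d with
  | zero => simp
  | succ d ih =>
    push_cast at h
    rw [sum_range_succ, ih (by linarith)]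
    have hd : (0:ℝ) ≤ d := Nat.cast_nonneg d
    have h0 : N ≠ 0 := by linarith
    have h1 : N - d ≠ 0 := by linarith
    have h2 : N - d - 1 ≠ 0 := by
      intro h3; linarith
    push_cast
    have h3 : N - (d + 1) = N - d - 1 := by ring
    rw [h3]
    field_simp
    ring

/-- The core inequality behind (C2). -/
theorem c2_core {d : ℕ} {N : ℝ} {r : ℕ → ℝ} (hN : (d : ℝ) < N)
    (hr : ∀ l < d, (N - l) / (N - l - 1) ≤ r l) :
    (N + d) * ∑ l ∈ range d, (r l - 1) / (N - l) ≤
      2 * (∏ l ∈ range d, r l) - 3 + 1 / ∏ l ∈ range d, r l := by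
  have hd : (0:ℝ) ≤ d := Nat.cast_nonneg d
  have hN0 : 0 < N := by linarith
  have hNd : 0 < N - d := by linarith
  have hl1 : ∀ l < d, 0 < N - l - 1 := by
    intro l hl
    have : (l:ℝ) + 1 ≤ d := by exact_mod_cast hl
    linarith
  have ha : ∀ l < d, 0 < (N - l) / (N - l - 1) := by
    intro l hl
    have := hl1 l hl
    exact div_pos (by linarith) this
  have hpt := prod_tangent (a := fun l => (N - l) / (N - l - 1)) ha hr
  rw [tele_prod hN] at hpt
  set V := ∏ l ∈ range d, r l with hV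
  set V0 := N / (N - d) with hV0
  have hV0p : 0 < V0 := div_pos hN0 hNd
  have hV01 : 1 ≤ V0 := by
    rw [hV0, le_div_iff₀ hNd]
    linarith
  set S := ∑ l ∈ range d, (r l - (N - l) / (N - l - 1)) / ((N - l) / (N - l - 1)) with hS
  have hS0 : 0 ≤ S := sum_nonneg fun l hl => by
    have h1 := mem_range.1 hl
    exact div_nonneg (sub_nonneg.2 (hr l h1)) (ha l h1).le
  have hVV : V0 ≤ V := by nlinarith
  have hVp : 0 < V := lt_of_lt_of_le hV0p hVV
  -- tangent line
  have h1 : 1 / V0 - (V - V0) / V0 ^ 2 ≤ 1 / V := by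
    have : 1 / V - (1 / V0 - (V - V0) / V0 ^ 2) = (V - V0) ^ 2 / (V * V0 ^ 2) := by
      field_simp
      ring
    have h2 : 0 ≤ (V - V0) ^ 2 / (V * V0 ^ 2) := by positivity
    linarith
  -- split the sum
  have hsplit : (N + d) * ∑ l ∈ range d, (r l - 1) / (N - l) =
      (N + d) * (d / (N * (N - d))) +
      ∑ l ∈ range d, (N + d) * (r l - (N - l) / (N - l - 1)) / (N - l) := by
    rw [← tele_sum hN, mul_sum, mul_sum, ← sum_add_distrib]
    apply sum_congr rfl
    intro l hl
    have h2 := hl1 l (mem_range.1 hl)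
    have h3 : N - l - 1 ≠ 0 := h2.ne'
    have h4 : N - l ≠ 0 := by linarith
    field_simp
    ring
  have hF0 : 2 * V0 - 3 + 1 / V0 = (N + d) * (d / (N * (N - d))) := by
    rw [hV0]
    have h3 : N - d ≠ 0 := hNd.ne'
    field_simp
    ring
  have hcoef : ∑ l ∈ range d, (N + d) * (r l - (N - l) / (N - l - 1)) / (N - l) ≤
      (2 - 1 / V0 ^ 2) * V0 * S := by
    rw [hS, mul_sum]
    apply sum_le_sum
    intro l hl
    have hl' := mem_range.1 hl
    have h2 := hl1 l hl'
    have h3 : N - l - 1 ≠ 0 := h2.ne'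
    have h4 : 0 < N - l := by linarith
    have h5 := sub_nonneg.2 (hr l hl')
    set δ := r l - (N - l) / (N - l - 1) with hδ
    have e1 : (2 - 1 / V0 ^ 2) * V0 * (δ / ((N - l) / (N - l - 1))) =
        ((2 * N ^ 2 - (N - d) ^ 2) * (N - l - 1) / (N * (N - d) * (N - l))) * δ := by
      rw [hV0]
      have h6 : N - d ≠ 0 := hNd.ne'
      field_simp
    rw [e1]
    have e2 : (N + d) * δ / (N - l) = ((N + d) / (N - l)) * δ := by ring
    rw [e2]
    apply mul_le_mul_of_nonneg_right _ h5
    rw [div_le_div_iff₀ h4 (by positivity)]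
    have h7 : N - d ≤ N - l - 1 := by
      have : (l:ℝ) + 1 ≤ d := by exact_mod_cast hl'
      linarith
    have h8 : 0 ≤ 2 * N ^ 2 - (N - d) ^ 2 := by nlinarith
    have h9 : (N + d) * (N * (N - d)) ≤ (2 * N ^ 2 - (N - d) ^ 2) * (N - l - 1) := by
      calc (N + d) * (N * (N - d)) ≤ (2 * N ^ 2 - (N - d) ^ 2) * (N - d) := by
            have : 0 ≤ (2 * N ^ 2 - (N - d) ^ 2) - (N + d) * N := by nlinarith
            nlinarith [mul_nonneg this hNd.le]
        _ ≤ _ := mul_le_mul_of_nonneg_left h7 h8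
    nlinarith [mul_le_mul_of_nonneg_right h9 h4.le]
  have hinv : 0 ≤ 2 - 1 / V0 ^ 2 := by
    have : 1 / V0 ^ 2 ≤ 1 := by
      rw [div_le_one (by positivity)]
      nlinarith
    linarith
  have hlow : (2 - 1 / V0 ^ 2) * V0 * S ≤ (2 - 1 / V0 ^ 2) * (V - V0) := by
    have : V0 * S ≤ V - V0 := by nlinarith
    calc (2 - 1 / V0 ^ 2) * V0 * S = (2 - 1 / V0 ^ 2) * (V0 * S) := by ring
      _ ≤ _ := mul_le_mul_of_nonneg_left this hinv
  rw [hsplit, ← hF0]
  have h2 : (2 - 1 / V0 ^ 2) * (V - V0) = 2 * (V - V0) - (V - V0) / V0 ^ 2 := by ring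
  linarith

end Pool.Agent.MP_99e3ed_co.H84
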