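import Mathlib
import Pool.Agent.Lib.MP_99e3ed_co.H84.Calc
import Pool.Agent.Lib.MP_99e3ed_co.H84.Ineq

open Finset

namespace Pool.Agent.MP_99e3ed_co.H84

/-- `V = 1/alpha` as a product. -/
noncomputable def Vf (u : ℕ → ℝ → ℝ) (d : ℕ) (x : ℝ) : ℝ := ∏ l ∈ range d, (u l x / (u l x - 1))

theorem Vf_mul_alp {u : ℕ → ℝ → ℝ} {d : ℕ} {s : ℝ} (h1 : ∀ l < d, 1 < u l s) :
    Vf u d s * alp u d s = 1 := by
  unfold Vf alp
  rw [← prod_mul_distrib]
  apply prod_eq_one
  intro l hl
  have := h1 l (mem_range.1 hl)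
  have h2 : u l s ≠ 0 := by linarith
  have h3 : u l s - 1 ≠ 0 := by linarith
  field_simp

theorem one_le_Vf {u : ℕ → ℝ → ℝ} {d : ℕ} {s : ℝ} (h1 : ∀ l < d, 1 < u l s) :
    1 ≤ Vf u d s := by
  have h2 := Vf_mul_alp h1
  have h3 := alp_pos h1
  have h4 := alp_le_one h1
  by_contra h
  push Not at h
  nlinarith

theorem Uf_eq {u : ℕ → ℝ → ℝ} {d : ℕ} {s : ℝ} (h1 : ∀ l < d, 1 < u l s) :
    Uf u d s = 1 / (2 * Vf u d s - 1) := by
  have h2 := Vf_mul_alp h1
  have h3 := alp_pos h1
  have h4 := alp_le_one h1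
  have h5 := one_le_Vf h1
  unfold Uf
  rw [div_eq_div_iff (by linarith) (by linarith)]
  linear_combination 2 * h2

theorem Uf_pos {u : ℕ → ℝ → ℝ} {d : ℕ} {s : ℝ} (h1 : ∀ l < d, 1 < u l s) :
    0 < Uf u d s := by
  rw [Uf_eq h1]
  have := one_le_Vf h1
  exact div_pos one_pos (by linarith)

theorem Uf_le_one {u : ℕ → ℝ → ℝ} {d : ℕ} {s : ℝ} (h1 : ∀ l < d, 1 < u l s) :
    Uf u d s ≤ 1 := by
  rw [Uf_eq h1]
  have := one_le_Vf h1
  rw [div_le_one (by linarith)]
  linarith

theorem c2_step {u u1 : ℕ → ℝ → ℝ} {d : ℕ} {n s : ℝ} (hs : 0 < s) (hsn : s ≤ n - 1)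
    (hN : (d : ℝ) < n + s - 1 - d) (hw : ∀ l < d, 1 < u l s)
    (hwN : ∀ l < d, u l s ≤ n + s - 1 - d - l)
    (hC : ∀ l < d, (n + s - 1 - d - l) * u1 l s ≤ u l s) :
    (n + s) * (Uf u d s * (1 + s * Dsum u u1 d s * (1 + Uf u d s))) ≤ n + s * Uf u d s := by
  set N := n + s - 1 - d with hNdef
  have hd : (0:ℝ) ≤ d := Nat.cast_nonneg d
  have hV1 := one_le_Vf hw
  have hU := Uf_eq hw
  set V := Vf u d s with hV
  set U := Uf u d s with hUdef
  set D := Dsum u u1 d s with hD
  have hl1 : ∀ l < d, 0 < N - l - 1 := by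
    intro l hl
    have : (l:ℝ) + 1 ≤ d := by exact_mod_cast hl
    linarith
  have hr : ∀ l < d, (N - l) / (N - l - 1) ≤ u l s / (u l s - 1) := by
    intro l hl
    have h1 := hl1 l hl
    have h2 := hw l hl
    have h3 := hwN l hl
    rw [div_le_div_iff₀ h1 (by linarith)]
    nlinarith
  have hcore := c2_core (N := N) (r := fun l => u l s / (u l s - 1)) hN hr
  have hDle : D ≤ ∑ l ∈ range d, (u l s / (u l s - 1) - 1) / (N - l) := by
    rw [hD]
    unfold Dsum
    apply sum_le_sum
    intro l hl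
    have hl' := mem_range.1 hl
    have h1 := hl1 l hl'
    have h2 := hw l hl'
    have h3 := hC l hl'
    unfold xi
    have h4 : u l s / (u l s - 1) - 1 = 1 / (u l s - 1) := by
      have : u l s - 1 ≠ 0 := by linarith
      field_simp
      ring
    rw [h4, div_div, div_le_div_iff₀ (by nlinarith) (by nlinarith)]
    nlinarith [mul_le_mul_of_nonneg_right h3 (show (0:ℝ) ≤ u l s - 1 by linarith)]
  have hprod : ∏ l ∈ range d, u l s / (u l s - 1) = V := rfl
  rw [hprod] at hcore
  have h1 : (N + d) * D ≤ 2 * V - 3 + 1 / V :=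
    le_trans (mul_le_mul_of_nonneg_left hDle (by linarith)) hcore
  have hVp : 0 < V := by linarith
  -- key: s f D V ≤ n (V-1)(2V-1)
  have hkey : s * (n + s) * D * V ≤ n * ((V - 1) * (2 * V - 1)) := by
    have hn : 0 < n := by linarith
    have hrhs : 0 ≤ n * ((V - 1) * (2 * V - 1)) :=
      mul_nonneg hn.le (mul_nonneg (by linarith) (by linarith))
    rcases le_total D 0 with hD0 | hD0
    · have : s * (n + s) * D * V ≤ 0 := by
        have h5 : 0 ≤ s * (n + s) * V := by positivity
        nlinarith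
      linarith
    · have h2 : s * (n + s) ≤ n * (N + d) := by
        have : N + d = n + s - 1 := by rw [hNdef]; ring
        rw [this]
        nlinarith
      have h3 : s * (n + s) * D * V ≤ n * (N + d) * D * V := by
        have : 0 ≤ D * V := mul_nonneg hD0 hVp.le
        nlinarith
      have h4 : n * (N + d) * D * V = (n * V) * ((N + d) * D) := by ring
      have h5 : (n * V) * ((N + d) * D) ≤ (n * V) * (2 * V - 3 + 1 / V) :=
        mul_le_mul_of_nonneg_left h1 (by positivity)
      have h6 : (n * V) * (2 * V - 3 + 1 / V) = n * ((V - 1) * (2 * V - 1)) := by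
        field_simp
        ring
      linarith
  rw [hU]
  have h2V : 0 < 2 * V - 1 := by linarith
  have e1 : n + s * (1 / (2 * V - 1)) -
      (n + s) * (1 / (2 * V - 1) * (1 + s * D * (1 + 1 / (2 * V - 1)))) =
      2 * (n * ((V - 1) * (2 * V - 1)) - s * (n + s) * D * V) / (2 * V - 1) ^ 2 := by
    field_simp
    ring
  have e2 : 0 ≤ 2 * (n * ((V - 1) * (2 * V - 1)) - s * (n + s) * D * V) / (2 * V - 1) ^ 2 := by
    apply div_nonneg
    · linarith
    · positivity
  linarith

/-- The quadratic behind (Q). -/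
theorem q_quad {a b s d f τ U : ℝ} (hs : 0 < s) (hd : 0 < d) (hf : 0 < f) (hU : 0 < U)
    (ha : 0 < a) (hb : s * U < b) (hC : f * (U * τ) ≤ a)
    (hcase : (0 ≤ τ ∧ (d / (s + d) + s / (2 * f)) ^ 2 * b ≤ b - s * U) ∨
      (τ ≤ 0 ∧ s * U / a + s * U / b ≤ 1)) :
    0 ≤ 2 * s / (s + d) * τ + (τ - 1) ^ 2 - τ ^ 2 * (s * U / a + s * U / b) := by
  have hb0 : 0 < b := lt_trans (mul_pos hs hU) hb
  have hsd : 0 < s + d := by linarith
  rcases hcase with ⟨hτ, he⟩ | ⟨hτ, hle⟩
  · set e := d / (s + d) + s / (2 * f) with hedef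
    -- bound s U tau / a ≤ s / f
    have h1 : s * U / a * τ ≤ s / f := by
      rw [div_mul_eq_mul_div, div_le_div_iff₀ ha hf]
      nlinarith
    have h2 : τ ^ 2 * (s * U / a) ≤ τ * (s / f) := by
      calc τ ^ 2 * (s * U / a) = τ * (s * U / a * τ) := by ring
        _ ≤ _ := mul_le_mul_of_nonneg_left h1 hτ
    have h3 : e ^ 2 ≤ 1 - s * U / b := by
      rw [le_sub_iff_add_le, ← le_sub_iff_add_le', le_sub_iff_add_le, ← sub_nonneg]
      have : 1 - (e ^ 2 + s * U / b) = (b - s * U - e ^ 2 * b) / b := by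
        field_simp
        ring
      have h4 : 0 ≤ (b - s * U - e ^ 2 * b) / b := div_nonneg (by linarith) hb0.le
      linarith
    have h5 : 2 * s / (s + d) = 2 - 2 * (e - s / (2 * f)) := by
      rw [hedef]
      field_simp
      ring
    have h6 : τ * (s / f) = 2 * τ * (s / (2 * f)) := by
      field_simp
    set g := s / (2 * f) with hg
    set ρ := s * U / b with hρ
    rw [h5]
    have h7 : τ ^ 2 * e ^ 2 ≤ τ ^ 2 * (1 - ρ) := mul_le_mul_of_nonneg_left h3 (sq_nonneg τ)
    nlinarith [sq_nonneg (τ * e - 1)]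
  · have h1 : τ ^ 2 * (s * U / a + s * U / b) ≤ τ ^ 2 * 1 :=
      mul_le_mul_of_nonneg_left hle (sq_nonneg τ)
    have h2 : 2 * s / (s + d) ≤ 2 := by
      rw [div_le_iff₀ hsd]
      linarith
    nlinarith

/-- (Q) at the next level. -/
theorem q_step {k n s d U τ w w1 w2 : ℝ} (hk : 0 < k) (hs : 0 < s) (hd : 0 < d) (hn : 0 < n)
    (hU : 0 < U) (hnk : k < n) (hw : k * w = n + s * U) (hw1 : k * w1 = U * τ)
    (hw2 : U * (τ - 1) ^ 2 / s ≤ k * w2) (hC : (n + s) * (U * τ) ≤ n + s * U)
    (hcase : (0 ≤ τ ∧ (d / (s + d) + s / (2 * (n + s))) ^ 2 * (n - k + s * U) ≤ n - k) ∨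
      (τ ≤ 0 ∧ s * U / (n + s * U) + s * U / (n - k + s * U) ≤ 1)) :
    0 ≤ 2 * xi w w1 + (s + d) * xi' w w1 w2 := by
  have hsU : 0 < s * U := mul_pos hs hU
  set a := n + s * U with ha
  set b := n - k + s * U with hb
  have ha0 : 0 < a := by linarith
  have hb0 : 0 < b := by linarith
  have hq := q_quad (a := a) (b := b) (s := s) (d := d) (f := n + s) (τ := τ) (U := U) hs hd
    (by linarith) hU ha0 (by linarith) hC (by
      rcases hcase with ⟨h1, h2⟩ | h
      · left
        refine ⟨h1, ?_⟩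
        have : b - s * U = n - k := by rw [hb]; ring
        rw [this]
        exact h2
      · right; exact h)
  have hwa : w = a / k := by field_simp; linarith
  have hwb : w - 1 = b / k := by
    rw [hwa]; field_simp; rw [ha, hb]; ring
  have hw1' : w1 = U * τ / k := by field_simp; linarith
  have e1 : xi w w1 = k / (a * b) * (U * τ) := by
    unfold xi
    rw [hwb, hwa, hw1']
    field_simp
  have e2 : xi' w w1 w2 = k / (a * b) * (k * w2 - U ^ 2 * τ ^ 2 * (a + b) / (a * b)) := by
    unfold xi'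
    have h2w : 2 * w - 1 = (a + b) / k := by
      have : 2 * w - 1 = w + (w - 1) := by ring
      rw [this, hwb, hwa]
      ring
    rw [h2w, hwb, hwa, hw1']
    field_simp
  rw [e1, e2]
  have hsd : 0 < s + d := by linarith
  have e3 : 2 * (k / (a * b) * (U * τ)) +
      (s + d) * (k / (a * b) * (k * w2 - U ^ 2 * τ ^ 2 * (a + b) / (a * b))) =
      k / (a * b) * ((U * (s + d) / s) *
        (2 * s / (s + d) * τ + (τ - 1) ^ 2 - τ ^ 2 * (s * U / a + s * U / b)) +
        (s + d) * (k * w2 - U * (τ - 1) ^ 2 / s)) := by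
    field_simp
    ring
  rw [e3]
  apply mul_nonneg (by positivity)
  apply add_nonneg
  · exact mul_nonneg (by positivity) hq
  · exact mul_nonneg hsd.le (by linarith)

/-- lower bound of the second derivative from `2D + sD' ≥ 0`. -/
theorem c1_step {k s U D D' w2 : ℝ} (hs : 0 < s) (hU : 0 < U)
    (hw2 : k * w2 = U * (1 + U) * (2 * D + s * D' + s * D ^ 2 * (1 + 2 * U)))
    (hD : 0 ≤ 2 * D + s * D') :
    U * ((1 + s * D * (1 + U)) - 1) ^ 2 / s ≤ k * w2 := by
  rw [hw2]
  have e1 : U * ((1 + s * D * (1 + U)) - 1) ^ 2 / s = U * (1 + U) * (s * D ^ 2 * (1 + U)) := by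
    field_simp
    ring
  rw [e1]
  apply mul_le_mul_of_nonneg_left _ (by positivity)
  have : s * D ^ 2 * (1 + U) ≤ s * D ^ 2 * (1 + 2 * U) :=
    mul_le_mul_of_nonneg_left (by linarith) (by positivity)
  linarith

/-- elementary inequality for `e = d/(s+d) + s/(2(n+s))`, T case. -/
theorem e_bound {s d n Z : ℝ} (hs : 0 < s) (hd : 0 < d) (hsn : s ≤ n) (hdn : d ≤ n)
    (hZn : n ≤ Z) (hZd : 3 * d ≤ Z) :
    (d / (s + d) + s / (2 * (n + s))) ^ 2 * (s + Z) ≤ Z := by
  have hn : 0 < n := by linarith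
  have hsd : 0 < s + d := by linarith
  set e := d / (s + d) + s / (2 * (n + s)) with he
  have he0 : 0 ≤ e := by positivity
  have he1 : e ≤ d / (s + d) + 1 / 4 := by
    have : s / (2 * (n + s)) ≤ 1 / 4 := by
      rw [div_le_div_iff₀ (by positivity) (by norm_num)]
      linarith
    linarith
  have he1' : e ≤ (5 * d + s) / (4 * (s + d)) := by
    have : d / (s + d) + 1 / 4 = (5 * d + s) / (4 * (s + d)) := by
      field_simp
      ring
    linarith
  -- reduce: need e^2 s ≤ (1 - e^2) Z
  have key : e ^ 2 * s ≤ (1 - e ^ 2) * Z := by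
    rcases le_total s (3 * d) with h3 | h3
    · have hZ : (1 - e ^ 2) * (3 * d) ≤ (1 - e ^ 2) * Z := by
        apply mul_le_mul_of_nonneg_left hZd
        have : e ≤ 1 := by
          rcases le_total s d with h1 | h1
          · have h4 : s / (2 * (n + s)) ≤ s / (2 * (d + s)) := by
              apply div_le_div_of_nonneg_left hs.le (by positivity)
              linarith
            have h5 : d / (s + d) + s / (2 * (d + s)) ≤ 1 := by
              have : d / (s + d) + s / (2 * (d + s)) = (2 * d + s) / (2 * (s + d)) := by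
                field_simp
                ring
              rw [this, div_le_one (by positivity)]
              linarith
            linarith
          · have : (5 * d + s) / (4 * (s + d)) ≤ 1 := by
              rw [div_le_one (by positivity)]
              linarith
            linarith
        nlinarith
      refine le_trans ?_ hZ
      rcases le_total s d with h1 | h1
      · have h4 : s / (2 * (n + s)) ≤ s / (2 * (d + s)) := by
          apply div_le_div_of_nonneg_left hs.le (by positivity)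
          linarith
        have h5 : e ≤ (2 * d + s) / (2 * (s + d)) := by
          have : d / (s + d) + s / (2 * (d + s)) = (2 * d + s) / (2 * (s + d)) := by
            field_simp
            ring
          linarith
        have h6 : e ^ 2 ≤ ((2 * d + s) / (2 * (s + d))) ^ 2 := by
          apply pow_le_pow_left₀ he0 h5
        have h7 : ((2 * d + s) / (2 * (s + d))) ^ 2 * (s + 3 * d) ≤ 3 * d := by
          rw [div_pow, div_mul_eq_mul_div, div_le_iff₀ (by positivity)]
          nlinarith [mul_pos hs hd, mul_nonneg hs.le (sub_nonneg.2 h1),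
            mul_nonneg (mul_nonneg hs.le hs.le) (sub_nonneg.2 h1), pow_pos hs 3, pow_pos hd 3,
            mul_pos (mul_pos hs hs) hd, mul_pos (mul_pos hs hd) hd]
        have h8 : e ^ 2 * (s + 3 * d) ≤ ((2 * d + s) / (2 * (s + d))) ^ 2 * (s + 3 * d) :=
          mul_le_mul_of_nonneg_right h6 (by positivity)
        nlinarith
      · have h6 : e ^ 2 ≤ ((5 * d + s) / (4 * (s + d))) ^ 2 := by
          apply pow_le_pow_left₀ he0 he1'
        have h7 : ((5 * d + s) / (4 * (s + d))) ^ 2 * (s + 3 * d) ≤ 3 * d := by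
          rw [div_pow, div_mul_eq_mul_div, div_le_iff₀ (by positivity)]
          nlinarith [mul_pos hs hd, mul_nonneg hs.le (sub_nonneg.2 h1),
            mul_nonneg (mul_nonneg hs.le hs.le) (sub_nonneg.2 h3),
            mul_nonneg (mul_nonneg hd.le hd.le) (sub_nonneg.2 h1), pow_pos hs 3, pow_pos hd 3,
            mul_pos (mul_pos hs hs) hd, mul_pos (mul_pos hs hd) hd]
        have h8 : e ^ 2 * (s + 3 * d) ≤ ((5 * d + s) / (4 * (s + d))) ^ 2 * (s + 3 * d) :=
          mul_le_mul_of_nonneg_right h6 (by positivity)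
        nlinarith
    · have h4 : (5 * d + s) / (4 * (s + d)) ≤ 1 / 2 := by
        rw [div_le_div_iff₀ (by positivity) (by norm_num)]
        nlinarith
      have h5 : e ≤ 1 / 2 := le_trans he1' h4
      have h6 : e ^ 2 ≤ 1 / 4 := by nlinarith
      have h7 : e ^ 2 * s ≤ 1 / 4 * s := mul_le_mul_of_nonneg_right h6 hs.le
      have h8 : (3 / 4) * Z ≤ (1 - e ^ 2) * Z := mul_le_mul_of_nonneg_right (by linarith)
        (by linarith)
      nlinarith
  nlinarith

end Pool.Agent.MP_99e3ed_co.H84
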