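import Mathlib
import Pool.Agent.Lib.MP_99e3ed_co.H84.Step

open Filter Topology Finset

namespace Pool.Agent.MP_99e3ed_co.H84

/-- The three relations satisfied by both families of extremal functions
(`c = 1` for the truncated one, `c = 2` for the polynomial one). -/
structure Fam (d : ℕ) (c : ℝ) (X : ℕ → ℕ → ℝ → ℝ) : Prop where
  pascal : ∀ (k n : ℕ) (s : ℝ), X (k + 1) (n + 1) s = X (k + 1) n s + X k n s
  kk : ∀ (k n : ℕ) (s : ℝ), ((k : ℝ) + 1) * X (k + 1) (n + 1) s =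
    ((n : ℝ) + 1 - s) * X k n s + c * s * X k n (s - d)
  phi : ∀ (k n : ℕ) (s : ℝ), X k (n + d) s = c * (X k (n + d) (s - d) - X k n (s - d) / 2)

/-- the ratio -/
noncomputable def wf (X : ℕ → ℕ → ℝ → ℝ) (k n : ℕ) (s : ℝ) : ℝ := X k n s / X (k - 1) (n - 1) s

theorem one_sub_inv_wf {d : ℕ} {c : ℝ} {X : ℕ → ℕ → ℝ → ℝ} (hX : Fam d c X) {k n : ℕ} {s : ℝ}
    (h : X (k + 1) (n + 1) s ≠ 0) :
    1 - 1 / wf X (k + 1) (n + 1) s = X (k + 1) n s / X (k + 1) (n + 1) s := by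
  unfold wf
  have := hX.pascal k n s
  simp only [Nat.add_sub_cancel]
  rw [one_div_div, eq_div_iff h, sub_mul, div_mul_cancel₀ _ h]
  linarith

theorem alp_wf {d : ℕ} {c : ℝ} {X : ℕ → ℕ → ℝ → ℝ} (hX : Fam d c X) {k n m : ℕ} {x : ℝ}
    (hm : m ≤ n)
    (h : ∀ l < m, X (k + 1) (n - l) x ≠ 0) :
    (∏ l ∈ range m, (1 - 1 / wf X (k + 1) (n - l) x)) * X (k + 1) n x =
      X (k + 1) (n - m) x := by
  induction m with
  | zero => simp
  | succ m ih =>
    have ih' := ih (by omega) (fun l hl => h l (by omega))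
    rw [prod_range_succ, mul_right_comm, ih']
    obtain ⟨q, hq⟩ : ∃ q, n - m = q + 1 := ⟨n - m - 1, by omega⟩
    have e1 : n - (m + 1) = q := by omega
    have h1 := h m (by omega)
    rw [hq] at h1
    rw [e1, hq, one_sub_inv_wf hX h1]
    field_simp

/-- The recursion for the ratio. -/
theorem wf_rec {d : ℕ} {c : ℝ} {X : ℕ → ℕ → ℝ → ℝ} (hX : Fam d c X) (hc : 0 < c) {k n : ℕ} {x : ℝ}
    (hd : d ≤ n)
    (h : ∀ l < d, 0 < X (k + 1) (n - l) (x - d))
    (h0 : 0 < X (k + 1) n (x - d)) (h1 : ∀ l < d, 1 < wf X (k + 1) (n - l) (x - d)) :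
    0 < X (k + 1) n x ∧
    ((k : ℝ) + 2) * wf X (k + 2) (n + 1) x =
      ((n : ℝ) + 1) + x * Uf (fun l y => wf X (k + 1) (n - l) (y - d)) d x := by
  set u : ℕ → ℝ → ℝ := fun l y => wf X (k + 1) (n - l) (y - d) with hu
  have ha := alp_wf hX hd (fun l hl => (h l hl).ne')
  have ha' : alp u d x * X (k + 1) n (x - d) = X (k + 1) (n - d) (x - d) := ha
  have hle := alp_le_one (u := u) (d := d) (s := x) h1
  have hpos := alp_pos (u := u) (d := d) (s := x) h1
  have hphi := hX.phi (k + 1) (n - d) x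
  rw [Nat.sub_add_cancel hd, ← ha'] at hphi
  have e1 : X (k + 1) n x = c * X (k + 1) n (x - d) * (1 - alp u d x / 2) := by
    rw [hphi]; ring
  have hp : 0 < X (k + 1) n x := by
    rw [e1]
    apply mul_pos (mul_pos hc h0)
    linarith
  refine ⟨hp, ?_⟩
  have hk := hX.kk (k + 1) n x
  have hne : X (k + 1) n x ≠ 0 := hp.ne'
  have e2 : ((k : ℝ) + 2) * wf X (k + 2) (n + 1) x =
      (((k + 1 : ℕ) : ℝ) + 1) * X (k + 1 + 1) (n + 1) x / X (k + 1) n x := by
    unfold wf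
    simp only [Nat.add_sub_cancel]
    push_cast
    ring_nf
  rw [e2, hk, div_eq_iff hne]
  have h2a : 2 - alp u d x ≠ 0 := by linarith
  unfold Uf
  have e4 : c * x * X (k + 1) n (x - d) = x * (2 / (2 - alp u d x)) * X (k + 1) n x := by
    rw [e1]
    field_simp
  rw [e4]
  field_simp
  ring

theorem Jet.comp_sub {u u1 : ℝ → ℝ} {u2 s a : ℝ} (h : Jet u u1 u2 (s - a)) :
    Jet (fun x => u (x - a)) (fun x => u1 (x - a)) u2 s := by
  have hc : Tendsto (fun x : ℝ => x - a) (𝓝 s) (𝓝 (s - a)) :=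
    (continuous_id.sub continuous_const).tendsto s
  refine ⟨?_, ?_⟩
  · filter_upwards [hc.eventually h.1] with x hx
    have h1 : HasDerivAt (fun x : ℝ => x - a) 1 x := (hasDerivAt_id x).sub_const a
    have := HasDerivAt.comp x hx h1
    simpa [Function.comp_def] using this
  · have h1 : HasDerivAt (fun x : ℝ => x - a) 1 s := (hasDerivAt_id s).sub_const a
    have := HasDerivAt.comp s h.2 h1
    simpa [Function.comp_def] using this

theorem jet_ratio {M M1 M2 g g1 g2 : ℝ → ℝ} {s : ℝ} (hM : ∀ x, HasDerivAt M (M1 x) x)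
    (hM1 : ∀ x, HasDerivAt M1 (M2 x) x) (hg : ∀ x, HasDerivAt g (g1 x) x)
    (hg1 : ∀ x, HasDerivAt g1 (g2 x) x) (h0 : g s ≠ 0) :
    Jet (fun x => M x / g x) (fun x => (M1 x * g x - M x * g1 x) / g x ^ 2)
      ((M2 s * g s - M s * g2 s) / g s ^ 2 -
        2 * g1 s * (M1 s * g s - M s * g1 s) / g s ^ 3) s := by
  refine ⟨?_, ?_⟩
  · have : ∀ᶠ x in 𝓝 s, g x ≠ 0 := (hg s).continuousAt.eventually_ne h0
    filter_upwards [this] with x hx
    exact (hM x).div (hg x) hx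
  · have h1 := (((hM1 s).mul (hg s)).sub ((hM s).mul (hg1 s))).div ((hg s).pow 2)
      (pow_ne_zero 2 h0)
    refine h1.congr_deriv ?_
    simp only [Pi.mul_apply, Pi.sub_apply, Pi.pow_apply]
    field_simp
    ring

end Pool.Agent.MP_99e3ed_co.H84
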