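import Mathlib
import Pool.Agent.Lib.MP_99e3ed_co.H84.Fam

open Filter Topology Finset

namespace Pool.Agent.MP_99e3ed_co.H84

/-- `bc y i = binom(y,i) (-1/2)^i`. -/
noncomputable def bc (y : ℝ) : ℕ → ℝ
  | 0 => 1
  | (i + 1) => bc y i * (((i : ℝ) - y) / (2 * ((i : ℝ) + 1)))

theorem bc_zero (y : ℝ) : bc y 0 = 1 := rfl

theorem bc_succ (y : ℝ) (i : ℕ) : bc y (i + 1) = bc y i * (((i : ℝ) - y) / (2 * ((i : ℝ) + 1))) :=
  rfl

theorem bc_nonneg {y : ℝ} (hy : y ≤ 0) (i : ℕ) : 0 ≤ bc y i := by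
  induction i with
  | zero => simp [bc_zero]
  | succ i ih =>
    rw [bc_succ]
    have : (0:ℝ) ≤ i := Nat.cast_nonneg i
    exact mul_nonneg ih (div_nonneg (by linarith) (by positivity))

theorem bc_rec (y : ℝ) (i : ℕ) : 2 * ((i : ℝ) + 1) * bc y (i + 1) = ((i : ℝ) - y) * bc y i := by
  rw [bc_succ]
  field_simp

theorem bc_shift (y : ℝ) (i : ℕ) : y * bc (y - 1) i = (y - i) * bc y i := by
  induction i with
  | zero => simp [bc_zero]
  | succ i ih =>
    have h1 := bc_rec y i
    have h2 := bc_rec (y - 1) i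
    have h3 : (0:ℝ) < 2 * ((i : ℝ) + 1) := by positivity
    have h4 : 2 * ((i : ℝ) + 1) * (y * bc (y - 1) (i + 1)) =
        2 * ((i : ℝ) + 1) * ((y - (i + 1)) * bc y (i + 1)) := by
      linear_combination y * h2 + ((i : ℝ) - (y - 1)) * ih - (y - (i + 1)) * h1
    have := mul_left_cancel₀ h3.ne' h4
    push_cast
    exact this

theorem bc_pascal (y : ℝ) (i : ℕ) : bc y (i + 1) = bc (y - 1) (i + 1) - bc (y - 1) i / 2 := by
  induction i with
  | zero =>
    simp only [bc_succ, bc_zero]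
    push_cast
    ring
  | succ i ih =>
    have h1 := bc_rec y (i + 1)
    have h2 := bc_rec (y - 1) (i + 1)
    have h3 := bc_rec (y - 1) i
    push_cast at h1 h2
    have h4 : (0:ℝ) < 2 * ((i : ℝ) + 1 + 1) := by positivity
    apply mul_left_cancel₀ h4.ne'
    rw [ih] at h1
    linear_combination h1 - h2 + h3 / 2

/-- the coefficients of `-log(1-z/2)` -/
noncomputable def rho (r : ℕ) : ℝ := 1 / (((r : ℝ) + 1) * 2 ^ (r + 1))

theorem rho_pos (r : ℕ) : 0 < rho r := by unfold rho; positivity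

/-- derivative of `bc` in `y`. -/
noncomputable def bc1 (y : ℝ) (i : ℕ) : ℝ := - ∑ r ∈ range i, rho r * bc y (i - 1 - r)

theorem bc1_succ (y : ℝ) (i : ℕ) :
    2 * ((i : ℝ) + 1) * bc1 y (i + 1) = ((i : ℝ) - y) * bc1 y i - bc y i := by
  unfold bc1
  -- (i+1) R_{i+1} with weights
  have hsum : ∑ r ∈ range (i + 1), (2 * ((i : ℝ) + 1)) * (rho r * bc y (i + 1 - 1 - r)) =
      ∑ r ∈ range i, ((i : ℝ) - y) * (rho r * bc y (i - 1 - r)) + bc y i := by
    have e1 : ∀ r ∈ range (i + 1), (2 * ((i : ℝ) + 1)) * (rho r * bc y (i + 1 - 1 - r)) =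
        (2 * ((i : ℝ) - r)) * (rho r * bc y (i - r)) + 1 / 2 ^ r * bc y (i - r) := by
      intro r hr
      have : i + 1 - 1 - r = i - r := by omega
      rw [this]
      have h2 : rho r * ((r : ℝ) + 1) * 2 = 1 / 2 ^ r := by
        unfold rho
        field_simp
        ring
      linear_combination (bc y (i - r)) * h2
    rw [sum_congr rfl e1, sum_add_distrib]
    -- first sum: use the recurrence
    have e2 : ∑ r ∈ range (i + 1), (2 * ((i : ℝ) - r)) * (rho r * bc y (i - r)) =
        ∑ r ∈ range i, (((i : ℝ) - y) * (rho r * bc y (i - 1 - r)) -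
          1 / 2 ^ (r + 1) * bc y (i - 1 - r)) := by
      rw [sum_range_succ]
      simp only [sub_self, mul_zero, zero_mul, add_zero]
      apply sum_congr rfl
      intro r hr
      have hr' := mem_range.1 hr
      obtain ⟨j, hj⟩ : ∃ j, i = r + 1 + j := ⟨i - (r + 1), by omega⟩
      have a1 : i - r = j + 1 := by omega
      have a2 : i - 1 - r = j := by omega
      rw [a1, a2]
      have h3 := bc_rec y j
      have h4 : (i : ℝ) = r + 1 + j := by rw [hj]; push_cast; ring
      have h2 : rho r * ((r : ℝ) + 1) = 1 / 2 ^ (r + 1) := by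
        unfold rho
        field_simp
      rw [h4]
      linear_combination rho r * h3 - bc y j * h2
    have e3 : ∑ r ∈ range (i + 1), 1 / 2 ^ r * bc y (i - r) =
        ∑ r ∈ range i, 1 / 2 ^ (r + 1) * bc y (i - 1 - r) + bc y i := by
      rw [sum_range_succ']
      simp only [pow_zero, Nat.sub_zero]
      congr 1
      · apply sum_congr rfl
        intro r hr
        have : i - (r + 1) = i - 1 - r := by omega
        rw [this]
      · ring
    rw [e2, e3, sum_sub_distrib]
    ring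
  rw [← mul_sum, ← mul_sum] at hsum
  linarith

theorem hasDerivAt_bc (y : ℝ) (i : ℕ) : HasDerivAt (fun y => bc y i) (bc1 y i) y := by
  induction i with
  | zero =>
    simp only [bc_zero, bc1, range_zero, sum_empty, neg_zero]
    exact hasDerivAt_const y 1
  | succ i ih =>
    have h1 : HasDerivAt (fun y : ℝ => ((i : ℝ) - y) / (2 * ((i : ℝ) + 1)))
        (-1 / (2 * ((i : ℝ) + 1))) y := ((hasDerivAt_id y).const_sub (i : ℝ)).div_const _
    have h2 := ih.mul h1
    have he : (fun y => bc y (i + 1)) = fun y => bc y i * (((i : ℝ) - y) / (2 * ((i : ℝ) + 1))) := by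
      funext y; rfl
    rw [he]
    refine h2.congr_deriv ?_
    have h3 := bc1_succ y i
    have h4 : (0:ℝ) < 2 * ((i : ℝ) + 1) := by positivity
    have h5 : bc1 y (i + 1) = (((i : ℝ) - y) * bc1 y i - bc y i) / (2 * ((i : ℝ) + 1)) := by
      rw [eq_div_iff h4.ne']
      linarith
    rw [h5]
    ring

/-- truncated kernel `C(n - d i, k)` -/
noncomputable def kr (d n k i : ℕ) : ℝ := if d * i ≤ n then ((n - d * i).choose k : ℝ) else 0

theorem kr_nonneg (d n k i : ℕ) : 0 ≤ kr d n k i := by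
  unfold kr; split_ifs <;> positivity

theorem kr_of_gt {d n k i : ℕ} (h : n < d * i) : kr d n k i = 0 := by
  unfold kr; rw [if_neg (by omega)]

theorem kr_pascal (d n k i : ℕ) : kr d (n + 1) (k + 1) i = kr d n (k + 1) i + kr d n k i := by
  unfold kr
  by_cases h : d * i ≤ n
  · rw [if_pos h, if_pos h, if_pos (by omega)]
    have : n + 1 - d * i = (n - d * i) + 1 := by omega
    rw [this, Nat.choose_succ_succ]
    push_cast
    ring
  · rw [if_neg h, if_neg h]
    by_cases h2 : d * i ≤ n + 1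
    · rw [if_pos h2]
      have : n + 1 - d * i = 0 := by omega
      rw [this]
      simp
    · rw [if_neg h2]; simp

theorem kr_mul (d n k i : ℕ) : ((k : ℝ) + 1) * kr d (n + 1) (k + 1) i =
    ((n : ℝ) + 1 - d * i) * kr d n k i := by
  unfold kr
  by_cases h : d * i ≤ n
  · rw [if_pos h, if_pos (by omega)]
    have h1 : n + 1 - d * i = (n - d * i) + 1 := by omega
    rw [h1]
    have h2 := Nat.add_one_mul_choose_eq (n - d * i) k
    have h3 : ((n - d * i : ℕ) : ℝ) = (n : ℝ) - d * i := by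
      rw [Nat.cast_sub h]; push_cast; ring
    have h4 : (((n - d * i : ℕ) : ℝ) + 1) * ((n - d * i).choose k : ℝ) =
        (((n - d * i) + 1).choose (k + 1) : ℝ) * ((k : ℝ) + 1) := by exact_mod_cast h2
    rw [h3] at h4
    linarith
  · rw [if_neg h]
    by_cases h2 : d * i ≤ n + 1
    · rw [if_pos h2]
      have : n + 1 - d * i = 0 := by omega
      rw [this]
      simp
    · rw [if_neg h2]; simp

theorem kr_shift {d n k : ℕ} (r i : ℕ) (h : d * r ≤ n) : kr d n k (i + r) = kr d (n - d * r) k i := by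
  unfold kr
  have h1 : d * (i + r) = d * i + d * r := by ring
  by_cases h2 : d * (i + r) ≤ n
  · rw [if_pos h2, if_pos (by omega)]
    congr 2
    omega
  · rw [if_neg h2, if_neg (by omega)]

/-- the shifted truncated sum: `Tsh d k n r s = T_k(n - d r, s)` -/
noncomputable def Tsh (d k n r : ℕ) (s : ℝ) : ℝ :=
  ∑ i ∈ range (n + 1), bc (s / d) i * kr d n k (i + r)

/-- the truncated family -/
noncomputable def TT (d k n : ℕ) (s : ℝ) : ℝ := Tsh d k n 0 s

theorem Tsh_range {d : ℕ} (hd : 0 < d) (k n r : ℕ) (s : ℝ) {N : ℕ} (hN : n + 1 ≤ N) :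
    ∑ i ∈ range N, bc (s / d) i * kr d n k (i + r) = Tsh d k n r s := by
  unfold Tsh
  symm
  apply sum_subset (range_subset_range.2 hN)
  intro i _ hi
  have h1 : n + 1 ≤ i := by
    by_contra h
    exact hi (mem_range.2 (by omega))
  rw [kr_of_gt, mul_zero]
  calc n < i := h1
    _ ≤ i + r := by omega
    _ = 1 * (i + r) := by ring
    _ ≤ d * (i + r) := Nat.mul_le_mul_right _ hd

theorem Tsh_eq_TT {d : ℕ} (hd : 0 < d) {k n r : ℕ} (h : d * r ≤ n) (s : ℝ) :
    Tsh d k n r s = TT d k (n - d * r) s := by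
  unfold TT
  rw [← Tsh_range hd k (n - d * r) 0 s (N := n + 1) (by omega)]
  unfold Tsh
  apply sum_congr rfl
  intro i _
  rw [kr_shift r i h]
  simp

theorem Tsh_of_gt {d k n r : ℕ} (h : n < d * r) (s : ℝ) : Tsh d k n r s = 0 := by
  unfold Tsh
  apply sum_eq_zero
  intro i _
  rw [kr_of_gt, mul_zero]
  calc n < d * r := h
    _ ≤ d * (i + r) := Nat.mul_le_mul_left _ (by omega)

theorem conv_sum {a b f : ℕ → ℝ} {n : ℕ} (hf : ∀ i, n < i → f i = 0) :
    ∑ i ∈ range (n + 1), (∑ r ∈ range i, a r * b (i - 1 - r)) * f i =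
      ∑ r ∈ range (n + 2), a r * ∑ j ∈ range (n + 1), b j * f (j + (r + 1)) := by
  have e1 : ∑ i ∈ range (n + 1), (∑ r ∈ range i, a r * b (i - 1 - r)) * f i =
      ∑ i ∈ range (n + 1), ∑ r ∈ range i, a r * (b (i - 1 - r) * f i) := by
    apply sum_congr rfl
    intro i _
    rw [sum_mul]
    apply sum_congr rfl
    intro r _
    ring
  rw [e1]
  have e2 : ∑ i ∈ range (n + 1), ∑ r ∈ range i, a r * (b (i - 1 - r) * f i) =
      ∑ r ∈ range (n + 2), ∑ i ∈ Ico (r + 1) (n + 1), a r * (b (i - 1 - r) * f i) := by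
    apply sum_comm'
    intro i r
    simp only [mem_range, mem_Ico]
    omega
  rw [e2]
  apply sum_congr rfl
  intro r _
  rw [← mul_sum]
  congr 1
  rw [sum_Ico_eq_sum_range]
  have e3 : ∑ j ∈ range (n + 1), b j * f (j + (r + 1)) =
      ∑ j ∈ range (n + 1 - (r + 1)), b j * f (j + (r + 1)) := by
    symm
    apply sum_subset (range_subset_range.2 (by omega))
    intro j _ hj
    have h1 : n + 1 - (r + 1) ≤ j := by
      by_contra h
      exact hj (mem_range.2 (by omega))
    rw [hf (j + (r + 1)) (by omega), mul_zero]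
  rw [e3]
  apply sum_congr rfl
  intro j _
  have h1 : r + 1 + j - 1 - r = j := by omega
  have h2 : r + 1 + j = j + (r + 1) := by ring
  rw [h1, h2]

/-- derivative of `Tsh` in `s`. -/
noncomputable def Tsh1 (d k n r : ℕ) (s : ℝ) : ℝ :=
  -(1 / (d : ℝ)) * ∑ q ∈ range (n + 2), rho q * Tsh d k n (r + (q + 1)) s

/-- second derivative of `Tsh` in `s`. -/
noncomputable def Tsh2 (d k n r : ℕ) (s : ℝ) : ℝ :=
  -(1 / (d : ℝ)) * ∑ q ∈ range (n + 2), rho q * Tsh1 d k n (r + (q + 1)) s

theorem hasDerivAt_Tsh {d : ℕ} (hd : 0 < d) (k n r : ℕ) (s : ℝ) :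
    HasDerivAt (Tsh d k n r) (Tsh1 d k n r s) s := by
  have h1 : ∀ i, HasDerivAt (fun s : ℝ => bc (s / d) i) (bc1 (s / d) i * (1 / d)) s := by
    intro i
    have h2 : HasDerivAt (fun s : ℝ => s / d) (1 / d) s := (hasDerivAt_id s).div_const _
    exact HasDerivAt.comp s (hasDerivAt_bc (s / d) i) h2
  have h3 : HasDerivAt (fun s => ∑ i ∈ range (n + 1), bc (s / d) i * kr d n k (i + r))
      (∑ i ∈ range (n + 1), bc1 (s / d) i * (1 / d) * kr d n k (i + r)) s := by
    apply HasDerivAt.fun_sum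
    intro i _
    exact (h1 i).mul_const _
  have h4 : ∑ i ∈ range (n + 1), bc1 (s / d) i * (1 / d) * kr d n k (i + r) = Tsh1 d k n r s := by
    have h5 := conv_sum (a := rho) (b := bc (s / d)) (f := fun i => kr d n k (i + r)) (n := n)
      (by
        intro i hi
        apply kr_of_gt
        calc n < i := hi
          _ ≤ i + r := by omega
          _ = 1 * (i + r) := by ring
          _ ≤ d * (i + r) := Nat.mul_le_mul_right _ hd)
    unfold Tsh1
    have h6 : ∑ q ∈ range (n + 2), rho q * Tsh d k n (r + (q + 1)) s =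
        ∑ q ∈ range (n + 2), rho q * ∑ j ∈ range (n + 1), bc (s / d) j *
          kr d n k (j + (q + 1) + r) := by
      apply sum_congr rfl
      intro q _
      unfold Tsh
      congr 1
      apply sum_congr rfl
      intro j _
      congr 2
      omega
    rw [h6, ← h5, mul_sum]
    apply sum_congr rfl
    intro i _
    unfold bc1
    ring
  rw [← h4]
  exact h3

theorem hasDerivAt_Tsh1 {d : ℕ} (hd : 0 < d) (k n r : ℕ) (s : ℝ) :
    HasDerivAt (Tsh1 d k n r) (Tsh2 d k n r s) s := by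
  unfold Tsh1 Tsh2
  apply HasDerivAt.const_mul
  apply HasDerivAt.fun_sum
  intro q _
  exact (hasDerivAt_Tsh hd k n _ s).const_mul _

theorem TT_pascal {d : ℕ} (hd : 0 < d) (k n : ℕ) (s : ℝ) :
    TT d (k + 1) (n + 1) s = TT d (k + 1) n s + TT d k n s := by
  unfold TT
  rw [← Tsh_range hd (k + 1) n 0 s (N := n + 2) (by omega),
    ← Tsh_range hd k n 0 s (N := n + 2) (by omega), ← sum_add_distrib]
  unfold Tsh
  apply sum_congr rfl
  intro i _
  rw [kr_pascal]
  ring

theorem TT_kk {d : ℕ} (hd : 0 < d) (k n : ℕ) (s : ℝ) :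
    ((k : ℝ) + 1) * TT d (k + 1) (n + 1) s =
      ((n : ℝ) + 1 - s) * TT d k n s + 1 * s * TT d k n (s - d) := by
  unfold TT
  rw [← Tsh_range hd k n 0 s (N := n + 2) (by omega),
    ← Tsh_range hd k n 0 (s - d) (N := n + 2) (by omega), mul_sum, mul_sum, ← sum_add_distrib]
  unfold Tsh
  rw [mul_sum]
  apply sum_congr rfl
  intro i _
  have hd' : (d : ℝ) ≠ 0 := by positivity
  have h1 := kr_mul d n k (i + 0)
  have h2 := bc_shift (s / d) i
  have h3 : (s - d) / (d : ℝ) = s / d - 1 := by field_simp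
  rw [h3]
  simp only [add_zero] at h1 ⊢
  have h4 : s = d * (s / d) := by field_simp
  have h5 : s * bc (s / d - 1) i = (s - d * i) * bc (s / d) i := by
    have : s * bc (s / d - 1) i = d * (s / d * bc (s / d - 1) i) := by
      field_simp
    rw [this, h2]
    field_simp
  linear_combination bc (s / d) i * h1 - kr d n k i * h5

theorem TT_phi {d : ℕ} (hd : 0 < d) (k n : ℕ) (s : ℝ) :
    TT d k (n + d) s = 1 * (TT d k (n + d) (s - d) - TT d k n (s - d) / 2) := by
  have hd' : (d : ℝ) ≠ 0 := by positivity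
  have h3 : (s - d) / (d : ℝ) = s / d - 1 := by field_simp
  have h4 : TT d k n (s - d) = Tsh d k (n + d) 1 (s - d) := by
    rw [Tsh_eq_TT hd (by omega)]
    congr 1
    omega
  rw [h4]
  unfold TT
  rw [← Tsh_range hd k (n + d) 0 s (N := n + d + 2) (by omega),
    ← Tsh_range hd k (n + d) 0 (s - d) (N := n + d + 2) (by omega)]
  unfold Tsh
  rw [h3, sum_range_succ' _ (n + d + 1), sum_range_succ' _ (n + d + 1), one_mul, sum_div,
    add_sub_right_comm, ← sum_sub_distrib]
  congr 1
  apply sum_congr rfl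
  intro i _
  rw [bc_pascal]
  simp only [add_zero]
  ring

theorem fam_TT {d : ℕ} (hd : 0 < d) : Fam d 1 (TT d) where
  pascal := TT_pascal hd
  kk := TT_kk hd
  phi := TT_phi hd

end Pool.Agent.MP_99e3ed_co.H84
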