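import Mathlib
import Pool.Agent.Lib.MP_99e3ed_co.H84.TDef

open Filter Topology Finset

namespace Pool.Agent.MP_99e3ed_co.H84

theorem kr_antitone (d n k : ℕ) {i j : ℕ} (h : i ≤ j) : kr d n k j ≤ kr d n k i := by
  unfold kr
  have h1 : d * i ≤ d * j := Nat.mul_le_mul_left _ h
  by_cases h2 : d * j ≤ n
  · rw [if_pos h2, if_pos (by omega)]
    exact_mod_cast Nat.choose_le_choose k (by omega)
  · rw [if_neg h2]
    split_ifs <;> positivity

theorem choose_logconc (k : ℕ) {u v : ℕ} (huv : u ≤ v) (t : ℕ) (ht : t ≤ u) :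
    ((v.choose k : ℕ) : ℝ) * ((u - t).choose k : ℕ) ≤ (u.choose k : ℕ) * ((v - t).choose k : ℕ) := by
  induction t with
  | zero => simp [mul_comm]
  | succ t ih =>
    have ih' := ih (by omega)
    obtain ⟨a, ha⟩ : ∃ a, u - t = a + 1 := ⟨u - t - 1, by omega⟩
    obtain ⟨b, hb⟩ : ∃ b, v - t = b + 1 := ⟨v - t - 1, by omega⟩
    have e1 : u - (t + 1) = a := by omega
    have e2 : v - (t + 1) = b := by omega
    have hab : a ≤ b := by omega
    rw [ha, hb] at ih'
    rw [e1, e2]
    by_cases hk : k ≤ a + 1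
    · have h1 := Nat.choose_mul_succ_eq a k
      have h2 := Nat.choose_mul_succ_eq b k
      have h1' : ((a.choose k : ℕ) : ℝ) * (a + 1) = ((a + 1).choose k : ℕ) * ((a : ℝ) + 1 - k) := by
        have : ((a + 1 - k : ℕ) : ℝ) = (a : ℝ) + 1 - k := by
          rw [Nat.cast_sub hk]; push_cast; ring
        rw [← this]
        exact_mod_cast h1
      have h2' : ((b.choose k : ℕ) : ℝ) * (b + 1) = ((b + 1).choose k : ℕ) * ((b : ℝ) + 1 - k) := by
        have : ((b + 1 - k : ℕ) : ℝ) = (b : ℝ) + 1 - k := by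
          rw [Nat.cast_sub (by omega)]; push_cast; ring
        rw [← this]
        exact_mod_cast h2
      have ha0 : (0:ℝ) < a + 1 := by positivity
      have hb0 : (0:ℝ) < b + 1 := by positivity
      have hab' : (a : ℝ) ≤ b := by exact_mod_cast hab
      have hk' : (k : ℝ) ≤ a + 1 := by exact_mod_cast hk
      have h3 : ((a.choose k : ℕ) : ℝ) = ((a + 1).choose k : ℕ) * (((a : ℝ) + 1 - k) / (a + 1)) := by
        field_simp
        linarith
      have h4 : ((b.choose k : ℕ) : ℝ) = ((b + 1).choose k : ℕ) * (((b : ℝ) + 1 - k) / (b + 1)) := by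
        field_simp
        linarith
      rw [h3, h4]
      have h5 : ((a : ℝ) + 1 - k) / (a + 1) ≤ ((b : ℝ) + 1 - k) / (b + 1) := by
        rw [div_le_div_iff₀ ha0 hb0]
        have : (0:ℝ) ≤ k := Nat.cast_nonneg k
        nlinarith
      have h6 : 0 ≤ ((a : ℝ) + 1 - k) / (a + 1) := div_nonneg (by linarith) ha0.le
      calc ((v.choose k : ℕ) : ℝ) * (((a + 1).choose k : ℕ) * (((a : ℝ) + 1 - k) / (a + 1)))
          = ((v.choose k : ℕ) * ((a + 1).choose k : ℕ)) * (((a : ℝ) + 1 - k) / (a + 1)) := by ring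
        _ ≤ ((u.choose k : ℕ) * ((b + 1).choose k : ℕ)) * (((b : ℝ) + 1 - k) / (b + 1)) := by
            apply mul_le_mul ih' h5 h6 (by positivity)
        _ = _ := by ring
    · have : a.choose k = 0 := Nat.choose_eq_zero_of_lt (by omega)
      rw [this]
      simp only [Nat.cast_zero, mul_zero]
      positivity

theorem kr_logconc (d n k : ℕ) {i j : ℕ} (r : ℕ) (h : j ≤ i) :
    kr d n k j * kr d n k (i + r) ≤ kr d n k i * kr d n k (j + r) := by
  by_cases h1 : d * (i + r) ≤ n
  · have h2 : d * (i + r) = d * i + d * r := by ring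
    have h3 : d * (j + r) = d * j + d * r := by ring
    have h4 : d * j ≤ d * i := Nat.mul_le_mul_left _ h
    unfold kr
    rw [if_pos h1, if_pos (by omega), if_pos (by omega), if_pos (by omega)]
    have := choose_logconc k (u := n - d * i) (v := n - d * j) (by omega) (d * r) (by omega)
    have e1 : n - d * i - d * r = n - d * (i + r) := by omega
    have e2 : n - d * j - d * r = n - d * (j + r) := by omega
    rw [e1, e2] at this
    exact this
  · rw [kr_of_gt (by omega : n < d * (i + r)), mul_zero]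
    exact mul_nonneg (kr_nonneg _ _ _ _) (kr_nonneg _ _ _ _)

section Abstract

variable {c e : ℕ → ℝ} {N : ℕ}

/-- weighted Chebyshev inequality. -/
theorem cheb (hc : ∀ i, 0 ≤ c i) {r : ℕ}
    (hlc : ∀ i j, j ≤ i → e j * e (i + r) ≤ e i * e (j + r)) :
    (∑ i ∈ range N, c i * e i) * (∑ i ∈ range N, (i : ℝ) * (c i * e (i + r))) ≤
      (∑ i ∈ range N, (i : ℝ) * (c i * e i)) * (∑ i ∈ range N, c i * e (i + r)) := by
  have e1 : (∑ i ∈ range N, (i : ℝ) * (c i * e i)) * (∑ i ∈ range N, c i * e (i + r)) -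
      (∑ i ∈ range N, c i * e i) * (∑ i ∈ range N, (i : ℝ) * (c i * e (i + r))) =
      ∑ i ∈ range N, ∑ j ∈ range N, (i : ℝ) * (c i * c j * (e i * e (j + r) - e j * e (i + r))) := by
    rw [sum_mul_sum, sum_mul_sum]
    rw [sum_comm (s := range N) (t := range N) (f := fun i j => c i * e i * ((j : ℝ) * (c j * e (j + r))))]
    rw [← sum_sub_distrib]
    apply sum_congr rfl
    intro i _
    rw [← sum_sub_distrib]
    apply sum_congr rfl
    intro j _
    ring
  have e2 : ∑ i ∈ range N, ∑ j ∈ range N, (i : ℝ) * (c i * c j * (e i * e (j + r) - e j * e (i + r))) =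
      ∑ i ∈ range N, ∑ j ∈ range N, -(j : ℝ) * (c i * c j * (e i * e (j + r) - e j * e (i + r))) := by
    rw [sum_comm]
    apply sum_congr rfl
    intro i _
    apply sum_congr rfl
    intro j _
    ring
  have e3 : 0 ≤ ∑ i ∈ range N, ∑ j ∈ range N,
      ((i : ℝ) - j) * (c i * c j * (e i * e (j + r) - e j * e (i + r))) := by
    apply sum_nonneg
    intro i _
    apply sum_nonneg
    intro j _
    have hcc : 0 ≤ c i * c j := mul_nonneg (hc i) (hc j)
    rcases le_total j i with h | h
    · have h1 : (j : ℝ) ≤ i := by exact_mod_cast h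
      have h2 := hlc i j h
      exact mul_nonneg (by linarith) (mul_nonneg hcc (by linarith))
    · have h1 : (i : ℝ) ≤ j := by exact_mod_cast h
      have h2 := hlc j i h
      have h3 : 0 ≤ ((j : ℝ) - i) * (c i * c j * (e j * e (i + r) - e i * e (j + r))) :=
        mul_nonneg (by linarith) (mul_nonneg hcc (by linarith))
      linarith
  have e4 : ∑ i ∈ range N, ∑ j ∈ range N,
      ((i : ℝ) - j) * (c i * c j * (e i * e (j + r) - e j * e (i + r))) =
      ∑ i ∈ range N, ∑ j ∈ range N, (i : ℝ) * (c i * c j * (e i * e (j + r) - e j * e (i + r))) +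
      ∑ i ∈ range N, ∑ j ∈ range N, -(j : ℝ) * (c i * c j * (e i * e (j + r) - e j * e (i + r))) := by
    rw [← sum_add_distrib]
    apply sum_congr rfl
    intro i _
    rw [← sum_add_distrib]
    apply sum_congr rfl
    intro j _
    ring
  rw [e4, ← e2, ← e1] at e3
  linarith

/-- the mean is at most `η`. -/
theorem mean_le {η : ℝ} (hη : 0 ≤ η) (hc : ∀ i, 0 ≤ c i) (he : ∀ i, 0 ≤ e i)
    (hanti : ∀ i, e (i + 1) ≤ e i)
    (hrec : ∀ i : ℕ, 2 * ((i : ℝ) + 1) * c (i + 1) = ((i : ℝ) + η) * c i) :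
    ∑ i ∈ range N, (i : ℝ) * (c i * e i) ≤ η * ∑ i ∈ range N, c i * e i := by
  rcases N with _ | N
  · simp
  have h1 : ∑ i ∈ range (N + 1), (i : ℝ) * (c i * e i) =
      ∑ i ∈ range N, ((i : ℝ) + η) / 2 * (c i * e (i + 1)) := by
    rw [sum_range_succ']
    simp only [Nat.cast_zero, zero_mul, add_zero]
    apply sum_congr rfl
    intro i _
    have := hrec i
    push_cast
    linear_combination (e (i + 1) / 2) * this
  have h2 : ∑ i ∈ range N, ((i : ℝ) + η) / 2 * (c i * e (i + 1)) ≤
      ∑ i ∈ range (N + 1), ((i : ℝ) + η) / 2 * (c i * e i) := by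
    rw [sum_range_succ]
    have h3 : ∑ i ∈ range N, ((i : ℝ) + η) / 2 * (c i * e (i + 1)) ≤
        ∑ i ∈ range N, ((i : ℝ) + η) / 2 * (c i * e i) := by
      apply sum_le_sum
      intro i _
      apply mul_le_mul_of_nonneg_left
      · exact mul_le_mul_of_nonneg_left (hanti i) (hc i)
      · positivity
    have h4 : 0 ≤ ((N : ℝ) + η) / 2 * (c N * e N) :=
      mul_nonneg (by positivity) (mul_nonneg (hc N) (he N))
    linarith
  have h3 : ∑ i ∈ range (N + 1), ((i : ℝ) + η) / 2 * (c i * e i) =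
      (∑ i ∈ range (N + 1), (i : ℝ) * (c i * e i)) / 2 +
        η / 2 * ∑ i ∈ range (N + 1), c i * e i := by
    rw [sum_div, mul_sum, ← sum_add_distrib]
    apply sum_congr rfl
    intro i _
    ring
  linarith

end Abstract

theorem rho_zero : rho 0 = 1 / 2 := by unfold rho; norm_num
theorem rho_one : rho 1 = 1 / 8 := by unfold rho; norm_num

theorem sum_rho_le (R : ℕ) : ∑ r ∈ range R, rho r ≤ 3 / 4 - 1 / 3 * (1 / 2) ^ R := by
  rcases R with _ | _ | R
  · norm_num
  · simp only [zero_add, sum_range_one, rho_zero]; norm_num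
  · induction R with
    | zero =>
      rw [sum_range_succ, sum_range_one]
      rw [rho_zero, rho_one]
      norm_num
    | succ R ih =>
      rw [sum_range_succ]
      have h : rho (R + 1 + 1) ≤ 1 / 3 * (1 / 2) ^ (R + 1 + 1 + 1) := by
        unfold rho
        rw [one_div_pow, ← one_div_mul_one_div_rev, mul_comm]
        apply mul_le_mul_of_nonneg_right _ (by positivity)
        apply one_div_le_one_div_of_le (by norm_num)
        push_cast
        have : (0:ℝ) ≤ R := Nat.cast_nonneg R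
        linarith
      have h2 : (1 / 2 : ℝ) ^ (R + 1 + 1 + 1) = (1 / 2) ^ (R + 1 + 1) / 2 := by
        rw [pow_succ]; ring
      have h3 : R + 1 + 1 = R + 2 := rfl
      linarith

theorem sum_rho_mul (R : ℕ) : ∑ r ∈ range R, rho r * ((r : ℝ) + 1) = 1 - (1 / 2) ^ R := by
  induction R with
  | zero => simp
  | succ R ih =>
    rw [sum_range_succ, ih]
    have h : rho R * ((R : ℝ) + 1) = (1 / 2) ^ (R + 1) := by
      unfold rho
      rw [one_div_pow]
      field_simp
    rw [h, pow_succ]
    ring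

/-- the numerical heart of the base case. -/
theorem base_main {θ X : ℝ} {h : ℕ → ℝ} {R : ℕ} (hR : 2 ≤ R) (hθ0 : 0 ≤ θ) (hθ1 : θ ≤ 1)
    (hX : 0 ≤ X) (h0 : ∀ j, 0 ≤ h j) (hup : ∀ j, h (j + 1) ≤ ((j : ℝ) + 1) * X)
    (h1 : θ * X ≤ h 1) :
    θ * ∑ q ∈ range R, ∑ r ∈ range R, rho q * rho r * h (q + r + 2) ≤
      2 * ∑ r ∈ range R, rho r * h (r + 1) := by
  have hbound : ∑ q ∈ range R, ∑ r ∈ range R, rho q * rho r * h (q + r + 2) ≤
      ∑ q ∈ range R, ∑ r ∈ range R, (rho q * rho r * (((q : ℝ) + r + 2) * X) +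
        if q = 0 then (if r = 0 then (1 / 4 * h 2 - 1 / 2 * X) else 0) else 0) := by
    apply sum_le_sum
    intro q _
    apply sum_le_sum
    intro r _
    have hrr : 0 ≤ rho q * rho r := (mul_pos (rho_pos q) (rho_pos r)).le
    have h2 : h (q + r + 2) ≤ ((q : ℝ) + r + 2) * X := by
      have := hup (q + r + 1)
      push_cast at this
      have e : (q : ℝ) + r + 1 + 1 = q + r + 2 := by ring
      rw [e] at this
      exact this
    by_cases hq : q = 0
    · by_cases hr : r = 0
      · subst hq; subst hr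
        simp only [rho_zero, if_true, Nat.cast_zero, zero_add]
        apply le_of_eq
        ring
      · rw [if_pos hq, if_neg hr, add_zero]
        exact mul_le_mul_of_nonneg_left h2 hrr
    · rw [if_neg hq, add_zero]
      exact mul_le_mul_of_nonneg_left h2 hrr
  have hsum : ∑ q ∈ range R, ∑ r ∈ range R, (rho q * rho r * (((q : ℝ) + r + 2) * X) +
        if q = 0 then (if r = 0 then (1 / 4 * h 2 - 1 / 2 * X) else 0) else 0) =
      2 * (∑ q ∈ range R, rho q * ((q : ℝ) + 1)) * (∑ r ∈ range R, rho r) * X +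
        (1 / 4 * h 2 - 1 / 2 * X) := by
    simp only [sum_add_distrib]
    congr 1
    · have e1 : ∀ q ∈ range R, ∑ r ∈ range R, rho q * rho r * (((q : ℝ) + r + 2) * X) =
          (rho q * ((q : ℝ) + 1)) * ((∑ r ∈ range R, rho r) * X) +
            rho q * ((∑ r ∈ range R, rho r * ((r : ℝ) + 1)) * X) := by
        intro q _
        rw [sum_mul, mul_sum, sum_mul, mul_sum, ← sum_add_distrib]
        apply sum_congr rfl
        intro r _
        ring
      rw [sum_congr rfl e1, sum_add_distrib, ← sum_mul, ← sum_mul]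
      ring
    · rw [sum_eq_single 0]
      · rw [sum_eq_single 0]
        · simp
        · intro r _ hr
          simp [hr]
        · intro h; exact absurd (mem_range.2 (by omega)) h
      · intro q _ hq
        simp [hq]
      · intro h; exact absurd (mem_range.2 (by omega)) h
  have hA : ∑ q ∈ range R, rho q * ((q : ℝ) + 1) ≤ 1 := by
    rw [sum_rho_mul]
    have : (0:ℝ) ≤ (1 / 2) ^ R := by positivity
    linarith
  have hA0 : 0 ≤ ∑ q ∈ range R, rho q * ((q : ℝ) + 1) :=
    sum_nonneg fun q _ => mul_nonneg (rho_pos q).le (by positivity)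
  have hB : ∑ r ∈ range R, rho r ≤ 3 / 4 := by
    have := sum_rho_le R
    have h2 : (0:ℝ) ≤ (1 / 2) ^ R := by positivity
    linarith
  have hB0 : 0 ≤ ∑ r ∈ range R, rho r := sum_nonneg fun r _ => (rho_pos r).le
  have hAB : (∑ q ∈ range R, rho q * ((q : ℝ) + 1)) * (∑ r ∈ range R, rho r) ≤ 3 / 4 := by
    calc _ ≤ 1 * (3 / 4 : ℝ) := mul_le_mul hA hB hB0 (by norm_num)
      _ = 3 / 4 := by norm_num
  have htot : ∑ q ∈ range R, ∑ r ∈ range R, rho q * rho r * h (q + r + 2) ≤ X + 1 / 4 * h 2 := by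
    refine le_trans hbound ?_
    rw [hsum]
    nlinarith [mul_le_mul_of_nonneg_right hAB hX]
  have hlow : h 1 + 1 / 4 * h 2 ≤ 2 * ∑ r ∈ range R, rho r * h (r + 1) := by
    have h3 : ∑ r ∈ range 2, rho r * h (r + 1) ≤ ∑ r ∈ range R, rho r * h (r + 1) := by
      apply sum_le_sum_of_subset_of_nonneg (range_subset_range.2 hR)
      intro r _ _
      exact mul_nonneg (rho_pos r).le (h0 _)
    rw [sum_range_succ, sum_range_one, rho_zero, rho_one] at h3
    simp only [zero_add] at h3
    have : h (1 + 1) = h 2 := rfl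
    rw [this] at h3
    linarith
  calc θ * ∑ q ∈ range R, ∑ r ∈ range R, rho q * rho r * h (q + r + 2)
      ≤ θ * (X + 1 / 4 * h 2) := mul_le_mul_of_nonneg_left htot hθ0
    _ ≤ h 1 + 1 / 4 * h 2 := by
        have := h0 2
        nlinarith
    _ ≤ _ := hlow

end Pool.Agent.MP_99e3ed_co.H84
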