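import Mathlib
import Pool.Agent.Lib.MP_99e3ed_co.H84.Base

open Filter Topology Finset

namespace Pool.Agent.MP_99e3ed_co.H84

theorem base_Q_alg {M g M1 g1 M2 g2 t : ℝ} (hg : 0 < g) (hMg : 0 < M - g) (hM1 : M1 ≤ 0)
    (hMg1 : M1 - g1 ≤ 0) (ht : 0 ≤ t) (hH : 0 ≤ M1 * g - M * g1)
    (hQ : 0 ≤ 2 * (M1 * g - M * g1) + t * (M2 * g - M * g2)) :
    0 ≤ 2 * xi (M / g) ((M1 * g - M * g1) / g ^ 2) + t * xi' (M / g) ((M1 * g - M * g1) / g ^ 2)
      ((M2 * g - M * g2) / g ^ 2 - 2 * g1 * (M1 * g - M * g1) / g ^ 3) := by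
  have hM : 0 < M := by linarith
  have hne : M - g ≠ 0 := hMg.ne'
  have e1 : M / g - 1 = (M - g) / g := by field_simp
  have e2 : 2 * xi (M / g) ((M1 * g - M * g1) / g ^ 2) +
      t * xi' (M / g) ((M1 * g - M * g1) / g ^ 2)
      ((M2 * g - M * g2) / g ^ 2 - 2 * g1 * (M1 * g - M * g1) / g ^ 3) =
      (2 * (M1 * g - M * g1) + t * (M2 * g - M * g2)) / (M * (M - g)) +
      t * (M1 * g - M * g1) * ((-M1) * (M - g) + M * (-(M1 - g1))) / (M * (M - g)) ^ 2 := by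
    unfold xi xi'
    rw [e1]
    field_simp
    ring
  rw [e2]
  apply add_nonneg
  · exact div_nonneg hQ (mul_pos hM hMg).le
  · apply div_nonneg _ (by positivity)
    apply mul_nonneg (mul_nonneg ht hH)
    apply add_nonneg
    · exact mul_nonneg (by linarith) hMg.le
    · exact mul_nonneg hM.le (by linarith)

/-- first derivative of the ratio -/
noncomputable def wT1 (d k n : ℕ) (s : ℝ) : ℝ :=
  (Tsh1 d k n 0 s * TT d (k - 1) (n - 1) s - TT d k n s * Tsh1 d (k - 1) (n - 1) 0 s) /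
    TT d (k - 1) (n - 1) s ^ 2

/-- second derivative of the ratio -/
noncomputable def wT2 (d k n : ℕ) (s : ℝ) : ℝ :=
  (Tsh2 d k n 0 s * TT d (k - 1) (n - 1) s - TT d k n s * Tsh2 d (k - 1) (n - 1) 0 s) /
    TT d (k - 1) (n - 1) s ^ 2 -
  2 * Tsh1 d (k - 1) (n - 1) 0 s *
    (Tsh1 d k n 0 s * TT d (k - 1) (n - 1) s - TT d k n s * Tsh1 d (k - 1) (n - 1) 0 s) /
    TT d (k - 1) (n - 1) s ^ 3

theorem jet_T {d : ℕ} (hd : 0 < d) {k n : ℕ} {s : ℝ} (h : TT d (k - 1) (n - 1) s ≠ 0) :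
    Jet (wf (TT d) k n) (wT1 d k n) (wT2 d k n s) s :=
  jet_ratio (M := TT d k n) (g := TT d (k - 1) (n - 1)) (hasDerivAt_Tsh hd k n 0)
    (hasDerivAt_Tsh1 hd k n 0) (hasDerivAt_Tsh hd (k - 1) (n - 1) 0)
    (hasDerivAt_Tsh1 hd (k - 1) (n - 1) 0) h

theorem Tsh1_range {d : ℕ} (hd : 0 < d) (k n r : ℕ) (s : ℝ) {R : ℕ} (hR : n + 2 ≤ R) :
    Tsh1 d k n r s = -(1 / (d : ℝ)) * ∑ q ∈ range R, rho q * Tsh d k n (r + (q + 1)) s := by
  unfold Tsh1
  congr 1
  apply sum_subset (range_subset_range.2 hR)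
  intro q _ hq
  have h1 : n + 2 ≤ q := by
    by_contra h
    exact hq (mem_range.2 (by omega))
  rw [Tsh_of_gt, mul_zero]
  calc n < r + (q + 1) := by omega
    _ = 1 * (r + (q + 1)) := by ring
    _ ≤ d * (r + (q + 1)) := Nat.mul_le_mul_right _ hd

theorem Tsh2_range {d : ℕ} (hd : 0 < d) (k n r : ℕ) (s : ℝ) {R : ℕ} (hR : n + 2 ≤ R) :
    Tsh2 d k n r s = (1 / (d : ℝ)) ^ 2 * ∑ q ∈ range R, ∑ p ∈ range R,
      rho q * rho p * Tsh d k n (r + (q + p + 2)) s := by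
  have e1 : Tsh2 d k n r s =
      -(1 / (d : ℝ)) * ∑ q ∈ range R, rho q * Tsh1 d k n (r + (q + 1)) s := by
    unfold Tsh2
    congr 1
    apply sum_subset (range_subset_range.2 hR)
    intro q _ hq
    have h1 : n + 2 ≤ q := by
      by_contra h
      exact hq (mem_range.2 (by omega))
    have : Tsh1 d k n (r + (q + 1)) s = 0 := by
      unfold Tsh1
      rw [sum_eq_zero, mul_zero]
      intro p _
      rw [Tsh_of_gt, mul_zero]
      calc n < r + (q + 1) + (p + 1) := by omega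
        _ = 1 * (r + (q + 1) + (p + 1)) := by ring
        _ ≤ d * (r + (q + 1) + (p + 1)) := Nat.mul_le_mul_right _ hd
    rw [this, mul_zero]
  rw [e1, mul_sum, mul_sum]
  apply sum_congr rfl
  intro q _
  rw [Tsh1_range hd k n _ s hR, mul_sum, mul_sum, mul_sum, mul_sum]
  apply sum_congr rfl
  intro p _
  have : r + (q + 1) + (p + 1) = r + (q + p + 2) := by ring
  rw [this]
  ring

theorem Tsh_nonneg {d k n r : ℕ} {s : ℝ} (hs : s ≤ 0) : 0 ≤ Tsh d k n r s := by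
  unfold Tsh
  apply sum_nonneg
  intro i _
  have : s / (d : ℝ) ≤ 0 := div_nonpos_of_nonpos_of_nonneg hs (Nat.cast_nonneg d)
  exact mul_nonneg (bc_nonneg this i) (kr_nonneg _ _ _ _)

theorem TT_pos_of_nonpos {d k n : ℕ} {s : ℝ} (hs : s ≤ 0) (hkn : k ≤ n) :
    0 < TT d k n s := by
  unfold TT Tsh
  have h0 : 0 < bc (s / d) 0 * kr d n k (0 + 0) := by
    rw [bc_zero, one_mul]
    unfold kr
    simp only [add_zero, mul_zero, Nat.zero_le, if_true, Nat.sub_zero]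
    exact_mod_cast Nat.choose_pos hkn
  apply lt_of_lt_of_le h0
  apply single_le_sum (f := fun i => bc (s / d) i * kr d n k (i + 0)) _ (mem_range.2 (by omega))
  intro i _
  have : s / (d : ℝ) ≤ 0 := div_nonpos_of_nonpos_of_nonneg hs (Nat.cast_nonneg d)
  exact mul_nonneg (bc_nonneg this i) (kr_nonneg _ _ _ _)

theorem Tsh1_nonpos {d k n r : ℕ} {s : ℝ} (hs : s ≤ 0) : Tsh1 d k n r s ≤ 0 := by
  unfold Tsh1
  rw [neg_mul, neg_nonpos]
  apply mul_nonneg (by positivity)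
  apply sum_nonneg
  intro q _
  exact mul_nonneg (rho_pos q).le (Tsh_nonneg hs)

theorem TT1_pascal {d : ℕ} (hd : 0 < d) (k n : ℕ) (s : ℝ) :
    Tsh1 d (k + 1) (n + 1) 0 s = Tsh1 d (k + 1) n 0 s + Tsh1 d k n 0 s := by
  have h1 := hasDerivAt_Tsh hd (k + 1) (n + 1) 0 s
  have h2 := (hasDerivAt_Tsh hd (k + 1) n 0 s).add (hasDerivAt_Tsh hd k n 0 s)
  have h3 : Tsh d (k + 1) (n + 1) 0 = Tsh d (k + 1) n 0 + Tsh d k n 0 := by
    funext x
    exact TT_pascal hd k n x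
  rw [h3] at h1
  exact h1.unique h2

/-- weighted first moment -/
noncomputable def Ssh (d k n r : ℕ) (s : ℝ) : ℝ :=
  ∑ i ∈ range (n + 1), (i : ℝ) * (bc (s / d) i * kr d n k (i + r))

theorem kk_sh {d : ℕ} (hd : 0 < d) (k n r : ℕ) (s : ℝ) :
    ((k : ℝ) + 1) * Tsh d (k + 1) (n + 1) r s =
      ((n : ℝ) + 1 - d * r) * Tsh d k n r s - d * Ssh d k n r s := by
  have e0 : Tsh d (k + 1) (n + 1) r s =
      ∑ i ∈ range (n + 1), bc (s / d) i * kr d (n + 1) (k + 1) (i + r) := by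
    unfold Tsh
    rw [sum_range_succ]
    have : kr d (n + 1) (k + 1) (n + 1 + r) = 0 := by
      have h1 := kr_mul d n k (n + 1 + r)
      have h2 : kr d n k (n + 1 + r) = 0 := by
        apply kr_of_gt
        calc n < 1 * (n + 1 + r) := by omega
          _ ≤ d * (n + 1 + r) := Nat.mul_le_mul_right _ hd
      rw [h2, mul_zero] at h1
      have h3 : (0:ℝ) < (k : ℝ) + 1 := by positivity
      exact (mul_eq_zero.1 h1).resolve_left h3.ne'
    rw [this, mul_zero, add_zero]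
  rw [e0]
  unfold Tsh Ssh
  rw [mul_sum, mul_sum, mul_sum, ← sum_sub_distrib]
  apply sum_congr rfl
  intro i _
  have h1 := kr_mul d n k (i + r)
  push_cast at h1
  linear_combination bc (s / d) i * h1

theorem cheb_T {d : ℕ} (k n r : ℕ) {s : ℝ} (hs : s ≤ 0) :
    Tsh d k n 0 s * Ssh d k n r s ≤ Ssh d k n 0 s * Tsh d k n r s := by
  have hy : s / (d : ℝ) ≤ 0 := div_nonpos_of_nonpos_of_nonneg hs (Nat.cast_nonneg d)
  have := cheb (c := bc (s / d)) (e := kr d n k) (N := n + 1) (bc_nonneg hy) (r := r)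
    (fun i j hij => kr_logconc d n k r hij)
  unfold Tsh Ssh
  simpa using this

theorem Ssh_nonneg {d k n r : ℕ} {s : ℝ} (hs : s ≤ 0) : 0 ≤ Ssh d k n r s := by
  unfold Ssh
  apply sum_nonneg
  intro i _
  have : s / (d : ℝ) ≤ 0 := div_nonpos_of_nonpos_of_nonneg hs (Nat.cast_nonneg d)
  exact mul_nonneg (by positivity) (mul_nonneg (bc_nonneg this i) (kr_nonneg _ _ _ _))

theorem mean_T {d : ℕ} (k n : ℕ) {s : ℝ} (hs : s ≤ 0) :
    Ssh d k n 0 s ≤ (-(s / d)) * Tsh d k n 0 s := by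
  have hy : s / (d : ℝ) ≤ 0 := div_nonpos_of_nonpos_of_nonneg hs (Nat.cast_nonneg d)
  have := mean_le (c := bc (s / d)) (e := kr d n k) (N := n + 1) (η := -(s / d)) (by linarith)
    (bc_nonneg hy) (kr_nonneg d n k) (fun i => kr_antitone d n k (Nat.le_succ i)) (by
      intro i
      have := bc_rec (s / d) i
      linarith)
  unfold Tsh Ssh
  simpa using this

theorem Tsh_antitone {d : ℕ} (k n : ℕ) {s : ℝ} (hs : s ≤ 0) {r q : ℕ} (h : r ≤ q) :
    Tsh d k n q s ≤ Tsh d k n r s := by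
  unfold Tsh
  apply sum_le_sum
  intro i _
  have : s / (d : ℝ) ≤ 0 := div_nonpos_of_nonpos_of_nonneg hs (Nat.cast_nonneg d)
  exact mul_le_mul_of_nonneg_left (kr_antitone d n k (by omega)) (bc_nonneg this i)

/-- the differences `h_r = M_0 g_r - g_0 M_r`. -/
noncomputable def hT (d k n : ℕ) (s : ℝ) (r : ℕ) : ℝ :=
  Tsh d (k + 1) (n + 1) 0 s * Tsh d k n r s - Tsh d k n 0 s * Tsh d (k + 1) (n + 1) r s

theorem hT_eq {d : ℕ} (hd : 0 < d) (k n r : ℕ) (s : ℝ) :
    ((k : ℝ) + 1) * hT d k n s r = d * r * (Tsh d k n 0 s * Tsh d k n r s) -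
      d * (Ssh d k n 0 s * Tsh d k n r s - Tsh d k n 0 s * Ssh d k n r s) := by
  have h0 := kk_sh hd k n 0 s
  have h1 := kk_sh hd k n r s
  unfold hT
  push_cast at h0
  linear_combination (Tsh d k n r s) * h0 - (Tsh d k n 0 s) * h1

theorem hT_le {d : ℕ} (hd : 0 < d) (k n r : ℕ) {s : ℝ} (hs : s ≤ 0) :
    ((k : ℝ) + 1) * hT d k n s r ≤ d * r * (Tsh d k n 0 s * Tsh d k n r s) := by
  rw [hT_eq hd]
  have := cheb_T (d := d) k n r hs
  have hd' : (0:ℝ) ≤ d := Nat.cast_nonneg d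
  nlinarith

theorem le_hT {d : ℕ} (hd : 0 < d) (k n r : ℕ) {s : ℝ} (hs : s ≤ 0) :
    (d * r + s) * (Tsh d k n 0 s * Tsh d k n r s) ≤ ((k : ℝ) + 1) * hT d k n s r := by
  rw [hT_eq hd]
  have h1 := mean_T (d := d) k n hs
  have h2 := Ssh_nonneg (d := d) (k := k) (n := n) (r := r) hs
  have h3 := Tsh_nonneg (d := d) (k := k) (n := n) (r := 0) hs
  have h4 := Tsh_nonneg (d := d) (k := k) (n := n) (r := r) hs
  have hd' : (0:ℝ) < d := by exact_mod_cast hd
  have h5 : Ssh d k n 0 s * Tsh d k n r s ≤ (-(s / d)) * Tsh d k n 0 s * Tsh d k n r s :=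
    mul_le_mul_of_nonneg_right h1 h4
  have h6 : (d : ℝ) * ((-(s / d)) * Tsh d k n 0 s * Tsh d k n r s) =
      -s * (Tsh d k n 0 s * Tsh d k n r s) := by
    field_simp
  have h7 := mul_le_mul_of_nonneg_left h5 hd'.le
  have h8 : 0 ≤ (d : ℝ) * (Tsh d k n 0 s * Ssh d k n r s) :=
    mul_nonneg hd'.le (mul_nonneg h3 h2)
  nlinarith

/-- Base facts of the truncated family on `(-d, 0]`. -/
theorem T_base {d : ℕ} (hd : 0 < d) (k n : ℕ) {s : ℝ} (hs0 : -(d : ℝ) < s) (hs : s ≤ 0)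
    (hkn : k + 1 ≤ n) :
    0 ≤ wT1 d (k + 1) (n + 1) s ∧ ((k : ℝ) + 1) * wT1 d (k + 1) (n + 1) s ≤ 1 ∧
    0 ≤ 2 * xi (wf (TT d) (k + 1) (n + 1) s) (wT1 d (k + 1) (n + 1) s) +
      (s + d) * xi' (wf (TT d) (k + 1) (n + 1) s) (wT1 d (k + 1) (n + 1) s)
        (wT2 d (k + 1) (n + 1) s) := by
  have hd' : (0:ℝ) < d := by exact_mod_cast hd
  have hk1 : (0:ℝ) < (k : ℝ) + 1 := by positivity
  set g := TT d k n s with hg
  set M := TT d (k + 1) (n + 1) s with hM
  have hgpos : 0 < g := TT_pos_of_nonpos hs (by omega)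
  have hMg : M - g = TT d (k + 1) n s := by
    rw [hM, hg, TT_pascal hd]; ring
  have hMgpos : 0 < M - g := by
    rw [hMg]; exact TT_pos_of_nonpos hs hkn
  set R := n + 3 with hR
  have hM1 : Tsh1 d (k + 1) (n + 1) 0 s =
      -(1 / (d : ℝ)) * ∑ q ∈ range R, rho q * Tsh d (k + 1) (n + 1) (q + 1) s := by
    rw [Tsh1_range hd (k + 1) (n + 1) 0 s (R := R) (by omega)]
    simp only [zero_add]
  have hg1 : Tsh1 d k n 0 s =
      -(1 / (d : ℝ)) * ∑ q ∈ range R, rho q * Tsh d k n (q + 1) s := by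
    rw [Tsh1_range hd k n 0 s (R := R) (by omega)]
    simp only [zero_add]
  have hM2 : Tsh2 d (k + 1) (n + 1) 0 s = (1 / (d : ℝ)) ^ 2 * ∑ q ∈ range R, ∑ p ∈ range R,
      rho q * rho p * Tsh d (k + 1) (n + 1) (q + p + 2) s := by
    rw [Tsh2_range hd (k + 1) (n + 1) 0 s (R := R) (by omega)]
    simp only [zero_add]
  have hg2 : Tsh2 d k n 0 s = (1 / (d : ℝ)) ^ 2 * ∑ q ∈ range R, ∑ p ∈ range R,
      rho q * rho p * Tsh d k n (q + p + 2) s := by
    rw [Tsh2_range hd k n 0 s (R := R) (by omega)]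
    simp only [zero_add]
  have hgT : Tsh d k n 0 s = g := rfl
  have hMT : Tsh d (k + 1) (n + 1) 0 s = M := rfl
  -- H and H2
  have hH : Tsh1 d (k + 1) (n + 1) 0 s * g - M * Tsh1 d k n 0 s =
      (1 / (d : ℝ)) * ∑ q ∈ range R, rho q * hT d k n s (q + 1) := by
    rw [hM1, hg1]
    have : ∑ q ∈ range R, rho q * hT d k n s (q + 1) =
        M * ∑ q ∈ range R, rho q * Tsh d k n (q + 1) s -
          g * ∑ q ∈ range R, rho q * Tsh d (k + 1) (n + 1) (q + 1) s := by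
      rw [mul_sum, mul_sum, ← sum_sub_distrib]
      apply sum_congr rfl
      intro q _
      unfold hT
      rw [hgT, hMT]
      ring
    rw [this]
    ring
  have hH2 : Tsh2 d (k + 1) (n + 1) 0 s * g - M * Tsh2 d k n 0 s =
      -((1 / (d : ℝ)) ^ 2 * ∑ q ∈ range R, ∑ p ∈ range R,
        rho q * rho p * hT d k n s (q + p + 2)) := by
    rw [hM2, hg2]
    have : ∑ q ∈ range R, ∑ p ∈ range R, rho q * rho p * hT d k n s (q + p + 2) =
        M * ∑ q ∈ range R, ∑ p ∈ range R, rho q * rho p * Tsh d k n (q + p + 2) s -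
          g * ∑ q ∈ range R, ∑ p ∈ range R,
            rho q * rho p * Tsh d (k + 1) (n + 1) (q + p + 2) s := by
      rw [mul_sum, mul_sum, ← sum_sub_distrib]
      apply sum_congr rfl
      intro q _
      rw [mul_sum, mul_sum, ← sum_sub_distrib]
      apply sum_congr rfl
      intro p _
      unfold hT
      rw [hgT, hMT]
      ring
    rw [this]
    ring
  -- bounds on h
  have hGnn : ∀ r, 0 ≤ Tsh d k n r s := fun r => Tsh_nonneg hs
  have hh0 : ∀ j, 0 ≤ hT d k n s (j + 1) := by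
    intro j
    have h1 := le_hT hd k n (j + 1) hs
    have h2 : 0 ≤ ((d : ℝ) * ((j + 1 : ℕ) : ℝ) + s) * (Tsh d k n 0 s * Tsh d k n (j + 1) s) := by
      apply mul_nonneg
      · push_cast
        have : (0:ℝ) ≤ j := Nat.cast_nonneg j
        nlinarith
      · exact mul_nonneg (hGnn 0) (hGnn _)
    have h3 : 0 ≤ ((k : ℝ) + 1) * hT d k n s (j + 1) := le_trans h2 h1
    exact nonneg_of_mul_nonneg_right h3 hk1
  have hh00 : ∀ j, 0 ≤ hT d k n s j := by
    intro j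
    rcases j with _ | j
    · unfold hT
      apply le_of_eq
      ring
    · exact hh0 j
  set X := (d : ℝ) / (k + 1) * (Tsh d k n 0 s * Tsh d k n 1 s) with hX
  have hX0 : 0 ≤ X := mul_nonneg (by positivity) (mul_nonneg (hGnn 0) (hGnn 1))
  have hup : ∀ j, hT d k n s (j + 1) ≤ ((j : ℝ) + 1) * X := by
    intro j
    have h1 := hT_le hd k n (j + 1) hs
    have h2 : Tsh d k n 0 s * Tsh d k n (j + 1) s ≤ Tsh d k n 0 s * Tsh d k n 1 s :=
      mul_le_mul_of_nonneg_left (Tsh_antitone k n hs (by omega)) (hGnn 0)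
    have h3 : ((k : ℝ) + 1) * hT d k n s (j + 1) ≤ ((k : ℝ) + 1) * (((j : ℝ) + 1) * X) := by
      have e : ((k : ℝ) + 1) * (((j : ℝ) + 1) * X) =
          (d * ((j + 1 : ℕ) : ℝ)) * (Tsh d k n 0 s * Tsh d k n 1 s) := by
        rw [hX]; push_cast; field_simp
      rw [e]
      exact le_trans h1 (mul_le_mul_of_nonneg_left h2 (by positivity))
    exact le_of_mul_le_mul_left h3 hk1
  have hlow : (1 + s / d) * X ≤ hT d k n s 1 := by
    have h1 := le_hT hd k n 1 hs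
    have h3 : ((k : ℝ) + 1) * ((1 + s / d) * X) ≤ ((k : ℝ) + 1) * hT d k n s 1 := by
      have e : ((k : ℝ) + 1) * ((1 + s / d) * X) =
          (d * ((1 : ℕ) : ℝ) + s) * (Tsh d k n 0 s * Tsh d k n 1 s) := by
        rw [hX]; push_cast; field_simp
      rw [e]
      exact h1
    exact le_of_mul_le_mul_left h3 hk1
  have hθ0 : 0 ≤ 1 + s / d := by
    have : -1 ≤ s / d := by
      rw [le_div_iff₀ hd']
      linarith
    linarith
  have hθ1 : 1 + s / d ≤ 1 := by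
    have : s / (d : ℝ) ≤ 0 := div_nonpos_of_nonpos_of_nonneg hs (Nat.cast_nonneg d)
    linarith
  have hmain := base_main (θ := 1 + s / d) (X := X) (h := hT d k n s) (R := R) (by omega) hθ0 hθ1
    hX0 hh00 hup hlow
  have hHnn : 0 ≤ Tsh1 d (k + 1) (n + 1) 0 s * g - M * Tsh1 d k n 0 s := by
    rw [hH]
    apply mul_nonneg (by positivity)
    exact sum_nonneg fun q _ => mul_nonneg (rho_pos q).le (hh0 q)
  have ew1 : wT1 d (k + 1) (n + 1) s =
      (Tsh1 d (k + 1) (n + 1) 0 s * g - M * Tsh1 d k n 0 s) / g ^ 2 := rfl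
  refine ⟨?_, ?_, ?_⟩
  · rw [ew1]
    exact div_nonneg hHnn (by positivity)
  · rw [ew1, hH]
    have h1 : ∑ q ∈ range R, rho q * hT d k n s (q + 1) ≤
        ∑ q ∈ range R, rho q * (((q : ℝ) + 1) * (d / (k + 1) * g ^ 2)) := by
      apply sum_le_sum
      intro q _
      apply mul_le_mul_of_nonneg_left _ (rho_pos q).le
      refine le_trans (hup q) ?_
      apply mul_le_mul_of_nonneg_left _ (by positivity)
      rw [hX]
      apply mul_le_mul_of_nonneg_left _ (by positivity)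
      rw [sq]
      exact mul_le_mul_of_nonneg_left (Tsh_antitone k n hs (Nat.zero_le 1)) hgpos.le
    have h2 : ∑ q ∈ range R, rho q * (((q : ℝ) + 1) * (d / (k + 1) * g ^ 2)) ≤
        d / (k + 1) * g ^ 2 := by
      have e : ∑ q ∈ range R, rho q * (((q : ℝ) + 1) * (d / (k + 1) * g ^ 2)) =
          (∑ q ∈ range R, rho q * ((q : ℝ) + 1)) * (d / (k + 1) * g ^ 2) := by
        rw [sum_mul]
        apply sum_congr rfl
        intro q _
        ring
      rw [e, sum_rho_mul]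
      have h3 : (0:ℝ) ≤ (1 / 2) ^ R := by positivity
      have h4 : 0 ≤ (d : ℝ) / (k + 1) * g ^ 2 := by positivity
      nlinarith
    have h5 := le_trans h1 h2
    have e2 : ((k : ℝ) + 1) * (1 / (d : ℝ) * ∑ q ∈ range R, rho q * hT d k n s (q + 1) / g ^ 2) =
        ((k : ℝ) + 1) / (d * g ^ 2) * ∑ q ∈ range R, rho q * hT d k n s (q + 1) := by
      rw [← sum_div]
      field_simp
    have e3 : ((k : ℝ) + 1) * (1 / (d : ℝ) * (∑ q ∈ range R, rho q * hT d k n s (q + 1)) / g ^ 2) =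
        ((k : ℝ) + 1) / (d * g ^ 2) * ∑ q ∈ range R, rho q * hT d k n s (q + 1) := by
      field_simp
    rw [e3]
    calc ((k : ℝ) + 1) / (d * g ^ 2) * ∑ q ∈ range R, rho q * hT d k n s (q + 1)
        ≤ ((k : ℝ) + 1) / (d * g ^ 2) * (d / (k + 1) * g ^ 2) :=
          mul_le_mul_of_nonneg_left h5 (by positivity)
      _ = 1 := by field_simp
  · have hQ := base_Q_alg (M := M) (g := g) (M1 := Tsh1 d (k + 1) (n + 1) 0 s)
      (g1 := Tsh1 d k n 0 s) (M2 := Tsh2 d (k + 1) (n + 1) 0 s) (g2 := Tsh2 d k n 0 s)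
      (t := s + d) hgpos hMgpos (Tsh1_nonpos hs) (by
        rw [TT1_pascal hd]
        have := Tsh1_nonpos (d := d) (k := k + 1) (n := n) (r := 0) hs
        linarith) (by linarith) hHnn (by
        rw [hH, hH2]
        have e : 2 * (1 / (d : ℝ) * ∑ q ∈ range R, rho q * hT d k n s (q + 1)) +
            (s + d) * -((1 / (d : ℝ)) ^ 2 * ∑ q ∈ range R, ∑ p ∈ range R,
              rho q * rho p * hT d k n s (q + p + 2)) =
            (1 / (d : ℝ)) * (2 * ∑ q ∈ range R, rho q * hT d k n s (q + 1) -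
              (1 + s / d) * ∑ q ∈ range R, ∑ p ∈ range R,
              rho q * rho p * hT d k n s (q + p + 2)) := by
          field_simp
          ring
        rw [e]
        apply mul_nonneg (by positivity)
        linarith)
    exact hQ

end Pool.Agent.MP_99e3ed_co.H84
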