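import Mathlib
import Pool.Agent.Lib.MP_99e3ed_co.H84.TBase
import Pool.Agent.Lib.MP_99e3ed_co.Ratio.Interfaces

open Filter Topology Finset

namespace Pool.Agent.MP_99e3ed_co.H84

theorem TT_zero_of_lt {d k n : ℕ} (h : n < k) (s : ℝ) : TT d k n s = 0 := by
  unfold TT Tsh
  apply sum_eq_zero
  intro i _
  have : kr d n k (i + 0) = 0 := by
    unfold kr
    split_ifs
    · rw [Nat.choose_eq_zero_of_lt (by omega)]
      simp
    · rfl
  rw [this, mul_zero]

theorem TT_of_lt {d : ℕ} {k n : ℕ} (h : n < k + d) (s : ℝ) :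
    TT d k n s = (n.choose k : ℝ) := by
  unfold TT Tsh
  rw [sum_eq_single 0]
  · rw [bc_zero, one_mul]
    simp [kr]
  · intro i _ hi
    have : kr d n k (i + 0) = 0 := by
      unfold kr
      split_ifs with h1
      · have h2 : d * 1 ≤ d * i := Nat.mul_le_mul_left _ (by omega)
        simp only [add_zero, mul_one] at h1 h2
        have h3 : n - d * (i + 0) < k := by
          simp only [add_zero]
          omega
        rw [Nat.choose_eq_zero_of_lt h3]
        simp
      · rfl
    rw [this, mul_zero]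
  · intro h
    exact absurd (mem_range.2 (by omega)) h

theorem TT_mono_of {d : ℕ} (hd : 0 < d) {k : ℕ} {s : ℝ} (h : ∀ n, 0 ≤ TT d k n s) {m n : ℕ}
    (hmn : m ≤ n) : TT d (k + 1) m s ≤ TT d (k + 1) n s := by
  induction n, hmn using Nat.le_induction with
  | base => exact le_rfl
  | succ n _ ih =>
    rw [TT_pascal hd]
    have := h n
    linarith

theorem TT_pos_and_nonneg {d : ℕ} (hd : 0 < d) (k : ℕ) :
    ∀ (n : ℕ) (s : ℝ), s ≤ k * d → (k ≤ n → 0 < TT d k n s) ∧ 0 ≤ TT d k n s := by
  have hd' : (0:ℝ) < d := by exact_mod_cast hd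
  -- it suffices to prove positivity
  have red : ∀ k : ℕ, (∀ (n : ℕ) (s : ℝ), s ≤ k * d → k ≤ n → 0 < TT d k n s) →
      ∀ (n : ℕ) (s : ℝ), s ≤ k * d → (k ≤ n → 0 < TT d k n s) ∧ 0 ≤ TT d k n s := by
    intro k h n s hs
    refine ⟨h n s hs, ?_⟩
    by_cases hkn : k ≤ n
    · exact (h n s hs hkn).le
    · rw [TT_zero_of_lt (by omega)]
  apply red
  induction k with
  | zero =>
    intro n s hs hkn
    exact TT_pos_of_nonpos (by simpa using hs) hkn
  | succ k ih =>
    have ih' := red k ih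
    have key : ∀ (m n : ℕ) (s : ℝ), s ≤ m * d → s ≤ ((k + 1 : ℕ) : ℝ) * d → k + 1 ≤ n →
        0 < TT d (k + 1) n s := by
      intro m
      induction m with
      | zero =>
        intro n s hs _ hkn
        exact TT_pos_of_nonpos (by simpa using hs) hkn
      | succ m ihm =>
        intro n s hs hsk hkn
        rcases le_total s 0 with h0 | h0
        · exact TT_pos_of_nonpos h0 hkn
        have hs1 : s - d ≤ m * d := by push_cast at hs; linarith
        have hs2 : s - d ≤ k * d := by push_cast at hsk; linarith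
        have hs3 : s - d ≤ ((k + 1 : ℕ) : ℝ) * d := by push_cast; linarith
        have hp := ihm n (s - d) hs1 hs3 hkn
        by_cases hdn : d ≤ n
        · have hphi := TT_phi hd (k + 1) (n - d) s
          rw [Nat.sub_add_cancel hdn] at hphi
          have hmono := TT_mono_of hd (k := k) (s := s - d) (fun n => (ih' n _ hs2).2)
            (Nat.sub_le n d)
          rw [hphi]
          linarith
        · have h1 := TT_of_lt (d := d) (k := k + 1) (n := n) (by omega) s
          rw [h1]
          exact_mod_cast Nat.choose_pos hkn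
    intro n s hs hkn
    exact key (k + 1) n s hs hs hkn

theorem TT_pos {d : ℕ} (hd : 0 < d) {k n : ℕ} {s : ℝ} (hs : s ≤ k * d) (hkn : k ≤ n) :
    0 < TT d k n s := (TT_pos_and_nonneg hd k n s hs).1 hkn

theorem TT_nonneg {d : ℕ} (hd : 0 < d) {k n : ℕ} {s : ℝ} (hs : s ≤ k * d) :
    0 ≤ TT d k n s := (TT_pos_and_nonneg hd k n s hs).2

theorem TT_mono {d : ℕ} (hd : 0 < d) {k m n : ℕ} {s : ℝ} (hs : s ≤ k * d) (hmn : m ≤ n) :
    TT d (k + 1) m s ≤ TT d (k + 1) n s :=
  TT_mono_of hd (fun _ => TT_nonneg hd hs) hmn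

/-- for `s ≤ 0` the ratio is at least the exact one. -/
theorem TT_neg {d : ℕ} (hd : 0 < d) (k n : ℕ) {s : ℝ} (hs : s ≤ 0) :
    ((n : ℝ) + 1 + s) * TT d k n s ≤ ((k : ℝ) + 1) * TT d (k + 1) (n + 1) s := by
  have hd' : (0:ℝ) < d := by exact_mod_cast hd
  have h1 := kk_sh hd k n 0 s
  have h2 := mean_T (d := d) k n hs
  have h3 : (d : ℝ) * (-(s / d) * Tsh d k n 0 s) = -s * Tsh d k n 0 s := by
    field_simp
  have h4 := mul_le_mul_of_nonneg_left h2 hd'.le
  unfold TT
  push_cast at h1
  nlinarith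

/-! ### the polynomial family -/

open Pool.Agent.Lib.MP_99e3ed_co

theorem AA_pascal (d k : ℕ) (n s : ℝ) :
    Ratio.AA d (k + 1) (n + 1) s = Ratio.AA d (k + 1) n s + Ratio.AA d k n s := by
  induction k generalizing n s with
  | zero =>
    simp only [Ratio.AA]
    ring
  | succ k ih =>
    have h1 := ih (n - 1) s
    have h2 := ih (n - 1) (s - d)
    have e1 : Ratio.AA d (k + 1 + 1) (n + 1) s = ((n + 1 - s) * Ratio.AA d (k + 1) (n + 1 - 1) s +
      2 * s * Ratio.AA d (k + 1) (n + 1 - 1) (s - d)) / ((k + 1 : ℕ) + 1) := rfl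
    have e2 : Ratio.AA d (k + 1 + 1) n s = ((n - s) * Ratio.AA d (k + 1) (n - 1) s +
      2 * s * Ratio.AA d (k + 1) (n - 1) (s - d)) / ((k + 1 : ℕ) + 1) := rfl
    have e3 : Ratio.AA d (k + 1) n s = ((n - s) * Ratio.AA d k (n - 1) s +
      2 * s * Ratio.AA d k (n - 1) (s - d)) / (k + 1) := rfl
    have e4 : n + 1 - 1 = n := by ring
    have e5 : n - 1 + 1 = n := by ring
    rw [e4] at e1
    rw [e5] at h1 h2
    rw [e1, e2]
    have hk : (0:ℝ) < (k : ℝ) + 1 := by positivity
    have hk2 : (0:ℝ) < ((k + 1 : ℕ) : ℝ) + 1 := by positivity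
    have e3' : ((k : ℝ) + 1) * Ratio.AA d (k + 1) n s = (n - s) * Ratio.AA d k (n - 1) s +
      2 * s * Ratio.AA d k (n - 1) (s - d) := by
      rw [e3]; field_simp
    rw [div_add' _ _ _ hk2.ne', div_left_inj' hk2.ne']
    push_cast
    linear_combination (n - s) * h1 + 2 * s * h2 - e3'

theorem AA_shift (d k : ℕ) (n s : ℝ) :
    Ratio.AA d k n s = 2 * Ratio.AA d k n (s - d) - Ratio.AA d k (n - d) (s - d) := by
  induction k generalizing n s with
  | zero =>
    simp only [Ratio.AA]
    ring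
  | succ k ih =>
    have h1 := ih (n - 1) s
    have h2 := ih (n - 1) (s - d)
    have e1 : n - d - 1 = n - 1 - d := by ring
    simp only [Ratio.AA]
    have hk : (0:ℝ) < (k : ℝ) + 1 := by positivity
    rw [e1]
    field_simp
    linear_combination (n - s) * h1 + 2 * (s - d) * h2

theorem fam_AA (d : ℕ) : Fam d 2 (fun k n s => Ratio.AA d k (n : ℝ) s) where
  pascal := by
    intro k n s
    have := AA_pascal d k (n : ℝ) s
    push_cast
    exact this
  kk := by
    intro k n s
    have h1 : Ratio.AA d (k + 1) ((n + 1 : ℕ) : ℝ) s = (((n + 1 : ℕ) - s) *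
      Ratio.AA d k ((n + 1 : ℕ) - 1) s + 2 * s * Ratio.AA d k ((n + 1 : ℕ) - 1) (s - d)) /
      (k + 1) := rfl
    have e : (((n + 1 : ℕ) : ℝ) - 1) = n := by push_cast; ring
    rw [e] at h1
    simp only [h1]
    push_cast
    field_simp
  phi := by
    intro k n s
    have h1 := AA_shift d k ((n + d : ℕ) : ℝ) s
    have e : (((n + d : ℕ) : ℝ) - d) = n := by push_cast; ring
    rw [e] at h1
    simp only [h1]
    ring

/-! ### bridge to the definitions of `Ratio.Defs` -/

theorem cc_eq (y : ℝ) (i : ℕ) : Ratio.cc y i = bc y i := by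
  induction i with
  | zero => rfl
  | succ i ih =>
    have : Ratio.cc y (i + 1) = Ratio.cc y i * (-(y - i) / (2 * (i + 1))) := rfl
    rw [this, ih, bc_succ]
    congr 2
    ring

theorem ratio_TT {d : ℕ} (hd : 0 < d) (k n : ℕ) (s : ℝ) : Ratio.TT d k n s = TT d k n s := by
  unfold Ratio.TT TT Tsh
  have h1 : n / d + 1 ≤ n + 1 := by
    have := Nat.div_le_self n d
    omega
  rw [← sum_subset (range_subset_range.2 h1)]
  · apply sum_congr rfl
    intro i hi
    have hi' := mem_range.1 hi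
    have h2 : d * i ≤ n := by
      have h3 : i ≤ n / d := by omega
      calc d * i ≤ d * (n / d) := Nat.mul_le_mul_left _ h3
        _ ≤ n := Nat.mul_div_le n d
    rw [cc_eq]
    simp only [kr, add_zero]
    rw [if_pos h2]
  · intro i _ hi
    have h2 : n / d < i := by
      by_contra h
      exact hi (mem_range.2 (by omega))
    have h3 : n < d * (i + 0) := by
      simp only [add_zero]
      exact (Nat.div_lt_iff_lt_mul hd).1 h2 |>.trans_eq (by ring)
    rw [kr_of_gt h3, mul_zero]

theorem ttShift : Ratio.TTShift := by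
  intro d k n s hd hdn
  rw [ratio_TT hd, ratio_TT hd, ratio_TT hd]
  have := TT_phi (d := d) hd k (n - d) s
  rw [Nat.sub_add_cancel hdn] at this
  rw [this]
  ring

theorem ttSmall : Ratio.TTSmall := by
  intro d k n s hd hn _
  rw [ratio_TT hd]
  exact TT_of_lt hn s

theorem ttPascal : Ratio.TTPascal := by
  intro d k n s hd
  rw [ratio_TT hd, ratio_TT hd, ratio_TT hd]
  exact TT_pascal hd k n s

theorem ttRec : Ratio.TTRec := by
  intro d k n s hd
  rw [ratio_TT hd, ratio_TT hd, ratio_TT hd]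
  rw [TT_kk hd k n s]
  ring

theorem ttPos : Ratio.TTPos := by
  intro d k n s hd hkn _ hs
  rw [ratio_TT hd]
  exact TT_pos hd hs.le hkn

theorem ttZero : Ratio.TTZero := by
  intro d k n s hd hn
  rw [ratio_TT hd]
  exact TT_zero_of_lt hn s

theorem aaPascal : Ratio.AAPascal := fun d k n s => AA_pascal d k n s

theorem aaShift : Ratio.AAShift := fun d k n s => AA_shift d k n s

theorem ttNeg : Ratio.TTNeg := by
  intro d j n s hd hj hjn _ hs
  obtain ⟨k, rfl⟩ : ∃ k, j = k + 1 := ⟨j - 1, by omega⟩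
  obtain ⟨m, rfl⟩ : ∃ m, n = m + 1 := ⟨n - 1, by omega⟩
  rw [ratio_TT hd, ratio_TT hd]
  have := TT_neg hd k m hs
  simp only [Nat.add_sub_cancel]
  push_cast
  exact this

end Pool.Agent.MP_99e3ed_co.H84
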