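import Mathlib
import Pool.Agent.Lib.MP_99e3ed_co.H84.TA

open Filter Topology Finset

namespace Pool.Agent.MP_99e3ed_co.H84

/-- All facts carried by the induction for the truncated family. -/
structure TGood (d k n : ℕ) (s : ℝ) : Prop where
  one_lt : 1 < wf (TT d) k n s
  bound : (k : ℝ) * wf (TT d) k n s ≤ n + max s 0 * (((n : ℝ) - k) / n)
  d1 : 0 ≤ wT1 d k n s
  q : 0 ≤ 2 * xi (wf (TT d) k n s) (wT1 d k n s) +
      (s + d) * xi' (wf (TT d) k n s) (wT1 d k n s) (wT2 d k n s)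
  c2 : 0 ≤ s → ((n : ℝ) + s) * wT1 d k n s ≤ wf (TT d) k n s

theorem one_lt_wf {d : ℕ} (hd : 0 < d) {k n : ℕ} {s : ℝ} (hs : s ≤ k * d) (hkn : k + 1 ≤ n) :
    1 < wf (TT d) (k + 1) (n + 1) s := by
  have h1 : 0 < TT d k n s := TT_pos hd hs (by omega)
  have hd' : (0:ℝ) ≤ d := Nat.cast_nonneg d
  have h2 : 0 < TT d (k + 1) n s := TT_pos hd (by push_cast; linarith) hkn
  unfold wf
  simp only [Nat.add_sub_cancel]
  rw [TT_pascal hd, lt_div_iff₀ h1]
  linarith

/-- the base case, in packaged form -/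
theorem tgood_nonpos {d : ℕ} (hd : 0 < d) (k n : ℕ) {s : ℝ} (hs0 : -(d : ℝ) < s) (hs : s ≤ 0)
    (hkn : k + 1 ≤ n) : TGood d (k + 1) (n + 1) s := by
  have hg : 0 < TT d k n s := TT_pos_of_nonpos hs (by omega)
  obtain ⟨h1, h2, h3⟩ := T_base hd k n hs0 hs hkn
  have hd' : (0:ℝ) < d := by exact_mod_cast hd
  have hkd : s ≤ k * d := le_trans hs (by positivity)
  refine ⟨one_lt_wf hd hkd hkn, ?_, h1, ?_, ?_⟩
  · have hk := kk_sh hd k n 0 s
    have hS := Ssh_nonneg (d := d) (k := k) (n := n) (r := 0) hs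
    have e : ((k + 1 : ℕ) : ℝ) * wf (TT d) (k + 1) (n + 1) s =
        (((k : ℝ) + 1) * Tsh d (k + 1) (n + 1) 0 s) / TT d k n s := by
      unfold wf TT
      simp only [Nat.add_sub_cancel]
      push_cast
      ring
    rw [e, max_eq_right hs, zero_mul, add_zero, div_le_iff₀ hg, hk]
    push_cast
    have h4 : Tsh d k n 0 s = TT d k n s := rfl
    rw [h4]
    nlinarith
  · exact h3
  · intro h0
    have hs00 : s = 0 := le_antisymm hs h0
    subst hs00
    have h4 := TT_neg hd k n (le_refl (0:ℝ))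
    have h5 : ((n : ℝ) + 1) ≤ ((k : ℝ) + 1) * wf (TT d) (k + 1) (n + 1) 0 := by
      unfold wf
      simp only [Nat.add_sub_cancel]
      rw [← mul_div_assoc, le_div_iff₀ hg]
      linarith
    have hk1 : (0:ℝ) < (k : ℝ) + 1 := by positivity
    have hn1 : (0:ℝ) < (n : ℝ) + 1 := by positivity
    push_cast
    have h6 : ((k : ℝ) + 1) * ((n + 1 + 0) * wT1 d (k + 1) (n + 1) 0) ≤
        ((k : ℝ) + 1) * wf (TT d) (k + 1) (n + 1) 0 := by
      calc ((k : ℝ) + 1) * ((n + 1 + 0) * wT1 d (k + 1) (n + 1) 0)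
          = ((n : ℝ) + 1) * (((k : ℝ) + 1) * wT1 d (k + 1) (n + 1) 0) := by ring
        _ ≤ ((n : ℝ) + 1) * 1 := mul_le_mul_of_nonneg_left h2 hn1.le
        _ ≤ _ := by linarith
    exact le_of_mul_le_mul_left h6 hk1

/-- small `n`: the ratio is constant -/
theorem Tsh_zero_small {d : ℕ} (hd : 0 < d) {k n r : ℕ} (h : n < k + d) (hr : 1 ≤ r) (s : ℝ) :
    Tsh d k n r s = 0 := by
  by_cases h1 : d * r ≤ n
  · rw [Tsh_eq_TT hd h1]
    apply TT_zero_of_lt
    have : d * 1 ≤ d * r := Nat.mul_le_mul_left _ hr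
    omega
  · exact Tsh_of_gt (by omega) s

theorem Tsh1_zero_small {d : ℕ} (hd : 0 < d) {k n r : ℕ} (h : n < k + d) (s : ℝ) :
    Tsh1 d k n r s = 0 := by
  unfold Tsh1
  rw [sum_eq_zero, mul_zero]
  intro q _
  rw [Tsh_zero_small hd h (by omega), mul_zero]

theorem Tsh2_zero_small {d : ℕ} (hd : 0 < d) {k n r : ℕ} (h : n < k + d) (s : ℝ) :
    Tsh2 d k n r s = 0 := by
  unfold Tsh2
  rw [sum_eq_zero, mul_zero]
  intro q _
  rw [Tsh1_zero_small hd h, mul_zero]

theorem wT_small {d : ℕ} (hd : 0 < d) {k n : ℕ} (h : n < k + d) (s : ℝ) :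
    wT1 d (k + 1) (n + 1) s = 0 ∧ wT2 d (k + 1) (n + 1) s = 0 := by
  have h1 := Tsh1_zero_small hd (k := k + 1) (n := n + 1) (r := 0) (by omega) s
  have h2 := Tsh1_zero_small hd (k := k) (n := n) (r := 0) h s
  have h3 := Tsh2_zero_small hd (k := k + 1) (n := n + 1) (r := 0) (by omega) s
  have h4 := Tsh2_zero_small hd (k := k) (n := n) (r := 0) h s
  unfold wT1 wT2
  simp only [Nat.add_sub_cancel, h1, h2, h3, h4]
  simp

theorem wf_small {d : ℕ} {k n : ℕ} (h : n < k + d) (hkn : k ≤ n) (s : ℝ) :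
    ((k : ℝ) + 1) * wf (TT d) (k + 1) (n + 1) s = (n : ℝ) + 1 := by
  unfold wf
  simp only [Nat.add_sub_cancel]
  rw [TT_of_lt (by omega), TT_of_lt h]
  have h1 := Nat.add_one_mul_choose_eq n k
  have h2 : ((n : ℝ) + 1) * (n.choose k : ℝ) = ((n + 1).choose (k + 1) : ℝ) * ((k : ℝ) + 1) := by
    exact_mod_cast h1
  have h3 : (0:ℝ) < (n.choose k : ℝ) := by exact_mod_cast Nat.choose_pos hkn
  field_simp
  linarith

theorem tgood_small {d : ℕ} (hd : 0 < d) {k n : ℕ} {s : ℝ} (h : n < k + d) (hs : s ≤ k * d)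
    (hkn : k + 1 ≤ n) : TGood d (k + 1) (n + 1) s := by
  obtain ⟨h1, h2⟩ := wT_small hd h s
  have h3 := one_lt_wf hd hs hkn
  refine ⟨h3, ?_, h1.ge, ?_, ?_⟩
  · have h4 := wf_small (d := d) h (by omega) s
    push_cast
    rw [h4]
    have h5 : 0 ≤ max s 0 * (((n : ℝ) + 1 - (k + 1)) / (n + 1)) := by
      apply mul_nonneg (le_max_right _ _)
      apply div_nonneg _ (by positivity)
      have : (k : ℝ) + 1 ≤ n := by exact_mod_cast hkn
      linarith
    linarith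
  · rw [h1, h2]
    unfold xi xi'
    simp
  · intro _
    rw [h1, mul_zero]
    linarith

section Step

variable {d k n : ℕ} {s : ℝ}

/-- the functions entering the recursion at level `k+2`, `n+1` -/
noncomputable def uT (d k n : ℕ) (l : ℕ) (x : ℝ) : ℝ := wf (TT d) (k + 1) (n - l) (x - d)
noncomputable def uT1 (d k n : ℕ) (l : ℕ) (x : ℝ) : ℝ := wT1 d (k + 1) (n - l) (x - d)
noncomputable def uT2 (d k n : ℕ) (s : ℝ) (l : ℕ) : ℝ := wT2 d (k + 1) (n - l) (s - d)

theorem uT_jet (hd : 0 < d) (hkn : k + 1 + d ≤ n) (hs : s ≤ ((k : ℝ) + 1) * d) {l : ℕ}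
    (hl : l < d) : Jet (uT d k n l) (uT1 d k n l) (uT2 d k n s l) s := by
  have h : TT d (k + 1 - 1) (n - l - 1) (s - d) ≠ 0 := by
    apply (TT_pos hd _ _).ne'
    · simp only [Nat.add_sub_cancel]; linarith
    · omega
  exact (jet_T hd (k := k + 1) (n := n - l) h).comp_sub

theorem uT_one_lt (hd : 0 < d) (hkn : k + 1 + d ≤ n) (hs : s ≤ ((k : ℝ) + 1) * d) {l : ℕ}
    (hl : l < d) : 1 < uT d k n l s := by
  unfold uT
  obtain ⟨m, hm⟩ : ∃ m, n - l = m + 1 := ⟨n - l - 1, by omega⟩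
  rw [hm]
  exact one_lt_wf hd (by linarith) (by omega)

theorem wf_rec_T (hd : 0 < d) (hkn : k + 1 + d ≤ n) (hs : s ≤ ((k : ℝ) + 1) * d) :
    ((k : ℝ) + 2) * wf (TT d) (k + 2) (n + 1) s = ((n : ℝ) + 1) + s * Uf (uT d k n) d s := by
  have hd' : (0:ℝ) < d := by exact_mod_cast hd
  refine (wf_rec (fam_TT hd) one_pos (k := k) (n := n) (x := s) (by omega) ?_ ?_ ?_).2
  · intro l hl
    exact TT_pos hd (by push_cast; nlinarith) (by omega)
  · exact TT_pos hd (by push_cast; nlinarith) (by omega)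
  · intro l hl
    exact uT_one_lt hd hkn hs hl

theorem wT_step (hd : 0 < d) (hkn : k + 1 + d ≤ n) (hs : s ≤ ((k : ℝ) + 1) * d) :
    ((k : ℝ) + 2) * wT1 d (k + 2) (n + 1) s = Uf (uT d k n) d s *
      (1 + s * Dsum (uT d k n) (uT1 d k n) d s * (1 + Uf (uT d k n) d s)) ∧
    ((k : ℝ) + 2) * wT2 d (k + 2) (n + 1) s =
      Uf (uT d k n) d s * (1 + Uf (uT d k n) d s) *
      (2 * Dsum (uT d k n) (uT1 d k n) d s + s * Dsum' (uT d k n) (uT1 d k n) (uT2 d k n s) d s +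
      s * Dsum (uT d k n) (uT1 d k n) d s ^ 2 * (1 + 2 * Uf (uT d k n) d s)) := by
  have hd' : (0:ℝ) < d := by exact_mod_cast hd
  have hJ : Jet (wf (TT d) (k + 2) (n + 1)) (wT1 d (k + 2) (n + 1)) (wT2 d (k + 2) (n + 1) s) s := by
    apply jet_T hd
    apply (TT_pos hd _ _).ne'
    · have : ((k + 2 - 1 : ℕ) : ℝ) = k + 1 := by
        have : k + 2 - 1 = k + 1 := by omega
        rw [this]; push_cast; ring
      rw [this]
      exact hs
    · omega
  apply jet_step (by positivity) (fun l hl => uT_jet hd hkn hs hl)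
    (fun l hl => uT_one_lt hd hkn hs hl) hJ
  -- the recursion holds near s
  have e2 : ∀ᶠ x in 𝓝 s, ∀ l ∈ range d, 1 < uT d k n l x := by
    rw [Finset.eventually_all]
    intro l hl
    have hl' := mem_range.1 hl
    exact (uT_jet hd hkn hs hl').continuousAt.eventually_const_lt (uT_one_lt hd hkn hs hl')
  have e3 : ∀ᶠ x in 𝓝 s, x < s + d := by
    apply eventually_lt_nhds
    linarith
  filter_upwards [e2, e3] with x hx hx3
  refine (wf_rec (fam_TT hd) one_pos (k := k) (n := n) (x := x) (by omega) ?_ ?_ ?_).2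
  · intro l hl
    exact TT_pos hd (by push_cast; nlinarith) (by omega)
  · exact TT_pos hd (by push_cast; nlinarith) (by omega)
  · intro l hl
    exact hx l (mem_range.2 hl)

end Step

end Pool.Agent.MP_99e3ed_co.H84
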