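import Mathlib
import Pool.Agent.Lib.MP_99e3ed_co.H84.TInd

open Filter Topology Finset

namespace Pool.Agent.MP_99e3ed_co.H84

variable {d k n : ℕ} {s : ℝ}

theorem step_D (hd : 0 < d) (hkn : k + 1 + d ≤ n) (hs : s ≤ ((k : ℝ) + 1) * d)
    (IH : ∀ l < d, TGood d (k + 1) (n - l) (s - d)) :
    0 ≤ Dsum (uT d k n) (uT1 d k n) d s ∧
    0 ≤ 2 * Dsum (uT d k n) (uT1 d k n) d s +
      s * Dsum' (uT d k n) (uT1 d k n) (uT2 d k n s) d s := by
  constructor
  · apply sum_nonneg
    intro l hl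
    have hl' := mem_range.1 hl
    have h1 := uT_one_lt hd hkn hs hl'
    have h2 := (IH l hl').d1
    unfold xi
    apply div_nonneg h2
    exact mul_nonneg (by linarith) (by linarith)
  · unfold Dsum Dsum'
    rw [mul_sum, mul_sum, ← sum_add_distrib]
    apply sum_nonneg
    intro l hl
    have hl' := mem_range.1 hl
    have h2 := (IH l hl').q
    have e : s - (d : ℝ) + d = s := by ring
    rw [e] at h2
    exact h2

theorem step_ub (hkn : k + 1 + d ≤ n)
    (IH : ∀ l < d, TGood d (k + 1) (n - l) (s - d)) {l : ℕ} (hl : l < d) :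
    ((k : ℝ) + 1) * uT d k n l s ≤ ((n : ℝ) - l) +
      max (s - d) 0 * ((((n : ℝ) - l) - (k + 1)) / ((n : ℝ) - l)) := by
  have h := (IH l hl).bound
  have e : ((n - l : ℕ) : ℝ) = (n : ℝ) - l := by
    rw [Nat.cast_sub (by omega)]
  rw [e] at h
  push_cast at h
  exact h

/-- `U ≤ (N-K)/N`. -/
theorem step_U (hd : 2 ≤ d) (hkn : k + 1 + d ≤ n) (hs : s ≤ ((k : ℝ) + 1) * d) (hsn : s ≤ n)
    (IH : ∀ l < d, TGood d (k + 1) (n - l) (s - d)) :
    Uf (uT d k n) d s ≤ ((n : ℝ) + 1 - (k + 2)) / (n + 1) := by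
  have hd0 : 0 < d := by omega
  have hu1 : ∀ l < d, 1 < uT d k n l s := fun l hl => uT_one_lt hd0 hkn hs hl
  have hd' : (2:ℝ) ≤ d := by exact_mod_cast hd
  have hkn' : (k : ℝ) + 1 + d ≤ n := by exact_mod_cast hkn
  have hk0 : (0:ℝ) ≤ k := Nat.cast_nonneg k
  -- factor bound
  have hfac : ∀ l < d, (l : ℝ) ≤ 1 → 1 - 1 / uT d k n l s ≤
      2 * ((n : ℝ) - l - (k + 1)) / ((n : ℝ) - l + ((n : ℝ) - l - (k + 1))) := by
    intro l hl hl1
    have h1 := step_ub hkn IH hl
    have h2 := hu1 l hl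
    have hl0 : (0:ℝ) ≤ l := Nat.cast_nonneg l
    have hnl : 0 < (n : ℝ) - l := by linarith
    have hml : 0 ≤ (n : ℝ) - l - (k + 1) := by linarith
    have h3 : max (s - d) 0 ≤ (n : ℝ) - l := by
      apply max_le
      · linarith
      · exact hnl.le
    have h4 : max (s - d) 0 * ((((n : ℝ) - l) - (k + 1)) / ((n : ℝ) - l)) ≤
        (n : ℝ) - l - (k + 1) := by
      calc max (s - d) 0 * ((((n : ℝ) - l) - (k + 1)) / ((n : ℝ) - l))
          ≤ ((n : ℝ) - l) * ((((n : ℝ) - l) - (k + 1)) / ((n : ℝ) - l)) :=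
            mul_le_mul_of_nonneg_right h3 (div_nonneg hml hnl.le)
        _ = _ := by field_simp
    have h5 : ((k : ℝ) + 1) * uT d k n l s ≤ (n : ℝ) - l + ((n : ℝ) - l - (k + 1)) := by linarith
    have hden : 0 < (n : ℝ) - l + ((n : ℝ) - l - (k + 1)) := by linarith
    have h6 : ((k : ℝ) + 1) / ((n : ℝ) - l + ((n : ℝ) - l - (k + 1))) ≤ 1 / uT d k n l s := by
      rw [div_le_div_iff₀ hden (by linarith)]
      linarith
    have h7 : 2 * ((n : ℝ) - l - (k + 1)) / ((n : ℝ) - l + ((n : ℝ) - l - (k + 1))) =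
        1 - ((k : ℝ) + 1) / ((n : ℝ) - l + ((n : ℝ) - l - (k + 1))) := by
      field_simp
      ring
    rw [h7]
    linarith
  have hf0 := hfac 0 (by omega) (by norm_num)
  have hf1 := hfac 1 (by omega) (by norm_num)
  have hpos : ∀ l < d, 0 ≤ 1 - 1 / uT d k n l s ∧ 1 - 1 / uT d k n l s ≤ 1 := by
    intro l hl
    have := hu1 l hl
    have h2 : 1 / uT d k n l s < 1 := by
      rw [div_lt_one (by linarith)]
      exact this
    have h3 : 0 < 1 / uT d k n l s := by positivity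
    exact ⟨by linarith, by linarith⟩
  have halp : alp (uT d k n) d s ≤ (1 - 1 / uT d k n 0 s) * (1 - 1 / uT d k n 1 s) := by
    have e : alp (uT d k n) d s = (∏ l ∈ range 2, (1 - 1 / uT d k n l s)) *
        ∏ l ∈ Ico 2 d, (1 - 1 / uT d k n l s) := by
      unfold alp
      rw [prod_range_mul_prod_Ico _ hd]
    have e2 : ∏ l ∈ range 2, (1 - 1 / uT d k n l s) =
        (1 - 1 / uT d k n 0 s) * (1 - 1 / uT d k n 1 s) := by
      rw [prod_range_succ, prod_range_one]
    rw [e, e2]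
    have h1 : ∏ l ∈ Ico 2 d, (1 - 1 / uT d k n l s) ≤ 1 := by
      apply prod_le_one
      · intro l hl; exact (hpos l (mem_Ico.1 hl).2).1
      · intro l hl; exact (hpos l (mem_Ico.1 hl).2).2
    have h2 : 0 ≤ (1 - 1 / uT d k n 0 s) * (1 - 1 / uT d k n 1 s) :=
      mul_nonneg (hpos 0 (by omega)).1 (hpos 1 (by omega)).1
    nlinarith
  set m : ℝ := (n : ℝ) - (k + 1) with hm
  have hm1 : 2 ≤ m := by rw [hm]; linarith
  have hnm : (n : ℝ) = m + (k + 1) := by rw [hm]; ring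
  simp only [Nat.cast_zero, sub_zero] at hf0
  simp only [Nat.cast_one] at hf1
  have hf0' : 1 - 1 / uT d k n 0 s ≤ 2 * m / (n + m) := by
    have e : (n : ℝ) - (k + 1) = m := rfl
    rw [e] at hf0
    exact hf0
  have hf1' : 1 - 1 / uT d k n 1 s ≤ 2 * (m - 1) / (n - 1 + (m - 1)) := by
    have e : (n : ℝ) - 1 - (k + 1) = m - 1 := by rw [hm]; ring
    rw [e] at hf1
    exact hf1
  have hn0 : (0:ℝ) < n := by linarith
  have h8 : alp (uT d k n) d s ≤ (2 * m / (n + m)) * (2 * (m - 1) / (n - 1 + (m - 1))) := by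
    refine le_trans halp ?_
    apply mul_le_mul hf0' hf1' (hpos 1 (by omega)).1
    positivity
  have h9 : (2 * m / (n + m)) * (2 * (m - 1) / (n - 1 + (m - 1))) ≤ 2 * m / (n + 1 + m) := by
    rw [div_mul_div_comm, div_le_div_iff₀ (by apply mul_pos <;> nlinarith) (by linarith)]
    have hS : (n : ℝ) - 1 + (m - 1) = n + m - 2 := by ring
    rw [hS]
    have h10 : 2 * (m - 1) * (n + m + 1) ≤ (n + m) * (n + m - 2) := by
      rw [hnm]
      nlinarith
    nlinarith [mul_le_mul_of_nonneg_left h10 (show (0:ℝ) ≤ 2 * m by linarith)]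
  have h11 := le_trans h8 h9
  have hle := alp_le_one (u := uT d k n) (d := d) (s := s) hu1
  have h12 : (n : ℝ) + 1 - (k + 2) = m := by rw [hm]; ring
  rw [h12]
  unfold Uf
  rw [div_le_div_iff₀ (by linarith) (by positivity)]
  rw [le_div_iff₀ (by linarith)] at h11
  nlinarith

/-- lower bound for `V`: `m (2V-1) ≥ 3d`. -/
theorem step_V (hd : 0 < d) (hkn : k + 1 + d ≤ n) (hs0 : 0 < s) (hs : s ≤ ((k : ℝ) + 1) * d)
    (IH : ∀ l < d, TGood d (k + 1) (n - l) (s - d)) :
    3 * (d : ℝ) ≤ ((n : ℝ) - (k + 1)) * (2 * Vf (uT d k n) d s - 1) := by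
  have hu1 : ∀ l < d, 1 < uT d k n l s := fun l hl => uT_one_lt hd hkn hs hl
  have hd' : (1:ℝ) ≤ d := by exact_mod_cast hd
  have hkn' : (k : ℝ) + 1 + d ≤ n := by exact_mod_cast hkn
  have hk0 : (0:ℝ) ≤ k := Nat.cast_nonneg k
  set m : ℝ := (n : ℝ) - (k + 1) with hm
  have hmd : (d : ℝ) ≤ m := by rw [hm]; linarith
  set e := max (s - (d : ℝ)) 0 with he
  have he0 : 0 ≤ e := le_max_right _ _
  set x := ((k : ℝ) + 1) / (m + e) with hx
  have hme : 0 < m + e := by linarith
  have hx0 : 0 ≤ x := by positivity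
  have hV : 1 + d * x ≤ Vf (uT d k n) d s := by
    have h1 : (1 + x) ^ d ≤ Vf (uT d k n) d s := by
      have hpc : (1 + x) ^ d = ∏ _l ∈ range d, (1 + x) := by rw [prod_const, card_range]
      unfold Vf
      rw [hpc]
      apply Finset.prod_le_prod
      · intro l _; positivity
      · intro l hl
        have hl' := mem_range.1 hl
        have h2 := hu1 l hl'
        have h3 := step_ub hkn IH hl'
        have hl0 : (0:ℝ) ≤ l := Nat.cast_nonneg l
        have hld : (l : ℝ) + 1 ≤ d := by exact_mod_cast hl'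
        have hnl : 0 < (n : ℝ) - l := by linarith
        have hml : 0 ≤ (n : ℝ) - l - (k + 1) := by linarith
        have h4 : max (s - d) 0 * ((((n : ℝ) - l) - (k + 1)) / ((n : ℝ) - l)) ≤ e := by
          rw [← he]
          have : (((n : ℝ) - l) - (k + 1)) / ((n : ℝ) - l) ≤ 1 := by
            rw [div_le_one hnl]
            linarith
          nlinarith
        have h5 : ((k : ℝ) + 1) * (uT d k n l s - 1) ≤ m + e := by
          rw [hm]
          linarith
        have h6 : uT d k n l s / (uT d k n l s - 1) = 1 + 1 / (uT d k n l s - 1) := by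
          have : uT d k n l s - 1 ≠ 0 := by linarith
          field_simp
          ring
        rw [h6]
        have h7 : x ≤ 1 / (uT d k n l s - 1) := by
          rw [hx, div_le_div_iff₀ hme (by linarith)]
          linarith
        linarith
    refine le_trans ?_ h1
    exact one_add_mul_le_pow (by linarith) d
  have h2 : 3 * (d : ℝ) ≤ m * (1 + 2 * (d * x)) := by
    have e1 : m * (1 + 2 * (d * x)) = (m * (m + e) + 2 * m * (d * (k + 1))) / (m + e) := by
      rw [hx]
      field_simp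
    rw [e1, le_div_iff₀ hme]
    rcases le_total s d with h | h
    · have : e = 0 := by rw [he]; exact max_eq_right (by linarith)
      rw [this]
      simp only [add_zero]
      nlinarith [mul_nonneg (show (0:ℝ) ≤ m by linarith) (show (0:ℝ) ≤ d * k by positivity)]
    · have : e = s - d := by rw [he]; exact max_eq_left (by linarith)
      rw [this]
      have h8 : s ≤ d * (k + 1) := by linarith
      have h9 : 2 * m * s ≤ 2 * m * (d * (k + 1)) :=
        mul_le_mul_of_nonneg_left h8 (by linarith)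
      nlinarith [mul_nonneg (sub_nonneg.2 hmd) (show (0:ℝ) ≤ m + 3 * s - 3 * d by linarith)]
  have h3 : m * (1 + 2 * (d * x)) ≤ m * (2 * Vf (uT d k n) d s - 1) := by
    apply mul_le_mul_of_nonneg_left _ (by linarith)
    linarith
  linarith

theorem step_c1 (hd : 0 < d) (hkn : k + 1 + d ≤ n) (hs0 : 0 < s) (hs : s ≤ ((k : ℝ) + 1) * d)
    (IH : ∀ l < d, TGood d (k + 1) (n - l) (s - d)) :
    0 ≤ wT1 d (k + 2) (n + 1) s ∧ 0 ≤ wT2 d (k + 2) (n + 1) s ∧
    Uf (uT d k n) d s * ((1 + s * Dsum (uT d k n) (uT1 d k n) d s * (1 + Uf (uT d k n) d s)) - 1) ^ 2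
      / s ≤ ((k : ℝ) + 2) * wT2 d (k + 2) (n + 1) s := by
  obtain ⟨hD, hQ⟩ := step_D hd hkn hs IH
  have hU := Uf_pos (u := uT d k n) (d := d) (s := s) (fun l hl => uT_one_lt hd hkn hs hl)
  obtain ⟨e1, e2⟩ := wT_step hd hkn hs
  have h3 := c1_step hs0 hU e2 hQ
  have hk2 : (0:ℝ) < (k : ℝ) + 2 := by positivity
  refine ⟨?_, ?_, h3⟩
  · have : 0 ≤ ((k : ℝ) + 2) * wT1 d (k + 2) (n + 1) s := by
      rw [e1]
      positivity
    exact nonneg_of_mul_nonneg_right this hk2
  · have h4 : 0 ≤ Uf (uT d k n) d s *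
        ((1 + s * Dsum (uT d k n) (uT1 d k n) d s * (1 + Uf (uT d k n) d s)) - 1) ^ 2 / s := by
      positivity
    have : 0 ≤ ((k : ℝ) + 2) * wT2 d (k + 2) (n + 1) s := le_trans h4 h3
    exact nonneg_of_mul_nonneg_right this hk2

/-- (C2) for `s ≥ d`. -/
theorem step_c2_ge (hd : 0 < d) (hkn : k + 1 + d ≤ n) (hsd : (d : ℝ) ≤ s)
    (hs : s ≤ ((k : ℝ) + 1) * d) (hsn : s ≤ n)
    (IH : ∀ l < d, TGood d (k + 1) (n - l) (s - d)) :
    ((n : ℝ) + 1 + s) * wT1 d (k + 2) (n + 1) s ≤ wf (TT d) (k + 2) (n + 1) s := by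
  have hd' : (1:ℝ) ≤ d := by exact_mod_cast hd
  have hkn' : (k : ℝ) + 1 + d ≤ n := by exact_mod_cast hkn
  have hk0 : (0:ℝ) ≤ k := Nat.cast_nonneg k
  have hs0 : 0 < s := by linarith
  have hu1 : ∀ l < d, 1 < uT d k n l s := fun l hl => uT_one_lt hd hkn hs hl
  obtain ⟨e1, _⟩ := wT_step hd hkn hs
  have e0 := wf_rec_T hd hkn hs
  have hstep := c2_step (u := uT d k n) (u1 := uT1 d k n) (d := d) (n := (n : ℝ) + 1) (s := s)
    hs0 (by linarith) (by linarith) hu1 (by
      intro l hl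
      have h3 := step_ub hkn IH hl
      have hl0 : (0:ℝ) ≤ l := Nat.cast_nonneg l
      have hld : (l : ℝ) + 1 ≤ d := by exact_mod_cast hl
      have hnl : 0 < (n : ℝ) - l := by linarith
      have hml : 0 ≤ (n : ℝ) - l - (k + 1) := by linarith
      rw [max_eq_left (by linarith)] at h3
      have h4 : (s - d) * ((((n : ℝ) - l) - (k + 1)) / ((n : ℝ) - l)) ≤ s - d := by
        have : (((n : ℝ) - l) - (k + 1)) / ((n : ℝ) - l) ≤ 1 := by
          rw [div_le_one hnl]
          linarith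
        nlinarith
      have h5 := hu1 l hl
      nlinarith) (by
      intro l hl
      have h6 := (IH l hl).c2 (by linarith)
      have e : ((n - l : ℕ) : ℝ) = (n : ℝ) - l := by
        rw [Nat.cast_sub (by omega)]
      rw [e] at h6
      have e2 : (n : ℝ) + 1 + s - 1 - d - l = (n : ℝ) - l + (s - d) := by ring
      rw [e2]
      exact h6)
  have hk2 : (0:ℝ) < (k : ℝ) + 2 := by positivity
  have : ((k : ℝ) + 2) * (((n : ℝ) + 1 + s) * wT1 d (k + 2) (n + 1) s) ≤
      ((k : ℝ) + 2) * wf (TT d) (k + 2) (n + 1) s := by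
    rw [e0]
    calc ((k : ℝ) + 2) * (((n : ℝ) + 1 + s) * wT1 d (k + 2) (n + 1) s)
        = ((n : ℝ) + 1 + s) * (((k : ℝ) + 2) * wT1 d (k + 2) (n + 1) s) := by ring
      _ = ((n : ℝ) + 1 + s) * (Uf (uT d k n) d s *
      (1 + s * Dsum (uT d k n) (uT1 d k n) d s * (1 + Uf (uT d k n) d s))) := by rw [e1]
      _ ≤ _ := hstep
  exact le_of_mul_le_mul_left this hk2

end Pool.Agent.MP_99e3ed_co.H84
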