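import Mathlib
import Pool.Agent.Lib.MP_99e3ed_co.H84.TStep

open Filter Topology Finset

namespace Pool.Agent.MP_99e3ed_co.H84

/-- (Q) at the next level. -/
theorem step_q {d k n : ℕ} {s : ℝ} (hd : 2 ≤ d) (hkn : k + 1 + d ≤ n) (hs0 : 0 < s)
    (hs : s ≤ ((k : ℝ) + 1) * d) (hsn : s ≤ n)
    (IH : ∀ l < d, TGood d (k + 1) (n - l) (s - d))
    (hC2 : ((n : ℝ) + 1 + s) * wT1 d (k + 2) (n + 1) s ≤ wf (TT d) (k + 2) (n + 1) s) :
    0 ≤ 2 * xi (wf (TT d) (k + 2) (n + 1) s) (wT1 d (k + 2) (n + 1) s) +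
      (s + d) * xi' (wf (TT d) (k + 2) (n + 1) s) (wT1 d (k + 2) (n + 1) s)
        (wT2 d (k + 2) (n + 1) s) := by
  have hd0 : 0 < d := by omega
  have hd' : (2:ℝ) ≤ d := by exact_mod_cast hd
  have hkn' : (k : ℝ) + 1 + d ≤ n := by exact_mod_cast hkn
  have hk0 : (0:ℝ) ≤ k := Nat.cast_nonneg k
  have hk2 : (0:ℝ) < (k : ℝ) + 2 := by positivity
  have hu1 : ∀ l < d, 1 < uT d k n l s := fun l hl => uT_one_lt hd0 hkn hs hl
  have hU := Uf_pos hu1
  have hUV := Uf_eq hu1
  have hV1 := one_le_Vf hu1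
  have e0 := wf_rec_T hd0 hkn hs
  obtain ⟨e1, _⟩ := wT_step hd0 hkn hs
  obtain ⟨hD, _⟩ := step_D hd0 hkn hs IH
  obtain ⟨_, _, h3⟩ := step_c1 hd0 hkn hs0 hs IH
  have hUle := step_U hd hkn hs hsn IH
  have hVle := step_V hd0 hkn hs0 hs IH
  set U := Uf (uT d k n) d s with hUdef
  set D := Dsum (uT d k n) (uT1 d k n) d s with hDdef
  set m : ℝ := (n : ℝ) - (k + 1) with hm
  have hm0 : 0 < m := by rw [hm]; linarith
  have hC : ((n : ℝ) + 1 + s) * (U * (1 + s * D * (1 + U))) ≤ (n : ℝ) + 1 + s * U := by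
    rw [← e1, ← e0]
    calc ((n : ℝ) + 1 + s) * (((k : ℝ) + 2) * wT1 d (k + 2) (n + 1) s)
        = ((k : ℝ) + 2) * (((n : ℝ) + 1 + s) * wT1 d (k + 2) (n + 1) s) := by ring
      _ ≤ _ := mul_le_mul_of_nonneg_left hC2 hk2.le
  refine q_step (k := (k : ℝ) + 2) (n := (n : ℝ) + 1) (s := s) (d := d) (U := U)
    (τ := 1 + s * D * (1 + U)) hk2 hs0 (by linarith) (by linarith) hU (by linarith) e0 e1 h3 hC ?_
  left
  refine ⟨by positivity, ?_⟩
  -- Z = m / U
  have hZn : (n : ℝ) + 1 ≤ m / U := by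
    rw [le_div_iff₀ hU]
    have h4 : (n : ℝ) + 1 - (k + 2) = m := by rw [hm]; ring
    rw [h4, le_div_iff₀ (by linarith)] at hUle
    linarith
  have hZd : 3 * (d : ℝ) ≤ m / U := by
    have : m / U = m * (2 * Vf (uT d k n) d s - 1) := by
      rw [hUV]
      field_simp
    rw [this]
    exact hVle
  have he := e_bound (s := s) (d := d) (n := (n : ℝ) + 1) (Z := m / U) hs0 (by linarith)
    (by linarith) (by linarith) hZn hZd
  have h5 : (n : ℝ) + 1 - (k + 2) = m := by rw [hm]; ring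
  rw [h5]
  have h6 := mul_le_mul_of_nonneg_right he hU.le
  have h7 : m / U * U = m := by field_simp
  have h8 : (s + m / U) * U = m + s * U := by
    rw [add_mul, h7]; ring
  rw [mul_assoc, h8, h7] at h6
  exact h6

/-- differentiability facts of the ratio, `s ≤ (k+1) d`. -/
theorem wT_hasDeriv {d k n : ℕ} (hd : 0 < d) (hkn : k + 1 ≤ n) {x : ℝ}
    (hx : x ≤ ((k : ℝ) + 1) * d) :
    HasDerivAt (wf (TT d) (k + 2) (n + 1)) (wT1 d (k + 2) (n + 1) x) x ∧
    HasDerivAt (wT1 d (k + 2) (n + 1)) (wT2 d (k + 2) (n + 1) x) x := by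
  have hJ : Jet (wf (TT d) (k + 2) (n + 1)) (wT1 d (k + 2) (n + 1)) (wT2 d (k + 2) (n + 1) x) x := by
    apply jet_T hd
    apply (TT_pos hd _ _).ne'
    · have : ((k + 2 - 1 : ℕ) : ℝ) = k + 1 := by
        have : k + 2 - 1 = k + 1 := by omega
        rw [this]; push_cast; ring
      rw [this]
      exact hx
    · omega
  exact ⟨hJ.hasDerivAt, hJ.2⟩

/-- The main induction for the truncated family. -/
theorem tgood {d : ℕ} (hd : 2 ≤ d) (k : ℕ) :
    ∀ (n : ℕ) (s : ℝ), k + 1 ≤ n → -(d : ℝ) < s → s ≤ k * d → s ≤ n →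
      TGood d (k + 1) (n + 1) s := by
  have hd0 : 0 < d := by omega
  have hd' : (2:ℝ) ≤ d := by exact_mod_cast hd
  induction k with
  | zero =>
    intro n s hkn hs0 hs _
    exact tgood_nonpos hd0 0 n hs0 (by simpa using hs) hkn
  | succ k ih =>
    intro n s hkn hsd hs hsn
    rcases le_or_gt s 0 with h0 | h0
    · exact tgood_nonpos hd0 (k + 1) n hsd h0 hkn
    by_cases hsmall : n < k + 1 + d
    · exact tgood_small hd0 hsmall hs hkn
    push Not at hsmall
    have hk0 : (0:ℝ) ≤ k := Nat.cast_nonneg k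
    have hs' : s ≤ ((k : ℝ) + 1) * d := by push_cast at hs; exact hs
    have hn' : (k : ℝ) + 1 + d ≤ n := by exact_mod_cast hsmall
    have IH : ∀ x : ℝ, 0 < x → x ≤ ((k : ℝ) + 1) * d → x ≤ n →
        ∀ l < d, TGood d (k + 1) (n - l) (x - d) := by
      intro x hx0 hx1 hx2 l hl
      obtain ⟨m, hm⟩ : ∃ m, n - l = m + 1 := ⟨n - l - 1, by omega⟩
      rw [hm]
      apply ih m (x - d) (by omega) (by linarith) (by linarith)
      have : n ≤ m + d := by omega
      have : (n : ℝ) ≤ m + d := by exact_mod_cast this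
      linarith
    have hIH := IH s h0 hs' hsn
    obtain ⟨h1, _, _⟩ := step_c1 hd0 hsmall h0 hs' hIH
    have hC2 : ((n : ℝ) + 1 + s) * wT1 d (k + 2) (n + 1) s ≤ wf (TT d) (k + 2) (n + 1) s := by
      rcases le_total (d : ℝ) s with hds | hds
      · exact step_c2_ge hd0 hsmall hds hs' hsn hIH
      · -- use monotonicity of (N + x) w' - w on [s, d]
        have hdk : (d : ℝ) ≤ ((k : ℝ) + 1) * d := by nlinarith
        have hdn : (d : ℝ) ≤ n := by linarith
        have hend := step_c2_ge hd0 hsmall le_rfl hdk hdn (IH d (by linarith) hdk hdn)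
        have hder : ∀ x ∈ Set.Icc s (d : ℝ),
            HasDerivAt (fun x => ((n : ℝ) + 1 + x) * wT1 d (k + 2) (n + 1) x -
              wf (TT d) (k + 2) (n + 1) x)
              (((n : ℝ) + 1 + x) * wT2 d (k + 2) (n + 1) x) x := by
          intro x hx
          obtain ⟨ha, hb⟩ := wT_hasDeriv (n := n) hd0 (by omega) (le_trans hx.2 hdk)
          have hc : HasDerivAt (fun x : ℝ => (n : ℝ) + 1 + x) 1 x :=
            (hasDerivAt_id x).const_add _
          refine ((hc.mul hb).sub ha).congr_deriv ?_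
          ring
        have hmono : MonotoneOn (fun x => ((n : ℝ) + 1 + x) * wT1 d (k + 2) (n + 1) x -
              wf (TT d) (k + 2) (n + 1) x) (Set.Icc s (d : ℝ)) := by
          apply monotoneOn_of_deriv_nonneg (convex_Icc s (d : ℝ))
          · intro x hx
            exact (hder x hx).continuousAt.continuousWithinAt
          · intro x hx
            rw [interior_Icc] at hx
            exact (hder x (Set.Ioo_subset_Icc_self hx)).differentiableAt.differentiableWithinAt
          · intro x hx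
            rw [interior_Icc] at hx
            have hx' := Set.Ioo_subset_Icc_self hx
            rw [(hder x hx').deriv]
            have hx0 : 0 < x := lt_of_lt_of_le h0 hx'.1
            have hxk := le_trans hx'.2 hdk
            obtain ⟨_, h2, _⟩ := step_c1 hd0 hsmall hx0 hxk
              (IH x hx0 hxk (le_trans hx'.2 hdn))
            apply mul_nonneg _ h2
            linarith
        have h5 := hmono (Set.left_mem_Icc.2 hds) (Set.right_mem_Icc.2 hds) hds
        simp only at h5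
        linarith
    have hQ := step_q hd hsmall h0 hs' hsn hIH hC2
    refine ⟨one_lt_wf hd0 hs hkn, ?_, h1, hQ, ?_⟩
    · have e0 := wf_rec_T hd0 hsmall hs'
      have hU := step_U hd hsmall hs' hsn hIH
      push_cast
      have e2 : (k : ℝ) + 1 + 1 = k + 2 := by ring
      have e3 : wf (TT d) (k + 1 + 1) (n + 1) s = wf (TT d) (k + 2) (n + 1) s := rfl
      rw [e2, e3, e0, max_eq_left h0.le]
      have := mul_le_mul_of_nonneg_left hU h0.le
      linarith
    · intro _
      push_cast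
      exact hC2

end Pool.Agent.MP_99e3ed_co.H84
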