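import Mathlib
import Pool.Agent.Lib.MP_99e3ed_co.H84.TMain

open Filter Topology Finset

namespace Pool.Agent.MP_99e3ed_co.H84

theorem final_ineq {ws wd wx lam mu : ℝ} (hws : 0 < ws) (hwd : 0 < wd) (hwx : 0 < wx)
    (hl0 : 0 ≤ lam) (hmu : 0 ≤ mu) (ha : wx ≤ mu * ws + (1 - mu) * wd)
    (hb : lam * ws ≤ wx) (hc : wd ≤ ws) :
    lam * (1 / wd - 1 / wx) ≤ mu * (1 / wd - 1 / ws) := by
  have e1 : lam * (1 / wd - 1 / wx) = lam * (wx - wd) / (wd * wx) := by field_simp
  have e2 : mu * (1 / wd - 1 / ws) = mu * (ws - wd) / (wd * ws) := by field_simp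
  rw [e1, e2, div_le_div_iff₀ (by positivity) (by positivity)]
  rcases le_total wx wd with h | h
  · have h1 : lam * (wx - wd) * (wd * ws) ≤ 0 := by
      have : 0 ≤ lam * (wd - wx) * (wd * ws) :=
        mul_nonneg (mul_nonneg hl0 (by linarith)) (by positivity)
      linarith
    have h2 : 0 ≤ mu * (ws - wd) * (wd * wx) :=
      mul_nonneg (mul_nonneg hmu (by linarith)) (by positivity)
    linarith
  · have h3 : wx - wd ≤ mu * (ws - wd) := by linarith
    have h4 : lam * (wx - wd) * (wd * ws) = (lam * ws) * (wx - wd) * wd := by ring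
    have h5 : mu * (ws - wd) * (wd * wx) = wx * (mu * (ws - wd)) * wd := by ring
    rw [h4, h5]
    apply mul_le_mul_of_nonneg_right _ hwd.le
    exact mul_le_mul hb h3 (by linarith) hwx.le

section

variable {d k n : ℕ}

/-- second derivative nonnegative on positive arguments -/
theorem wT2_nonneg (hd : 2 ≤ d) {x : ℝ} (hx0 : 0 < x)
    (hx1 : x ≤ ((k : ℝ) + 1) * d) (hx2 : x ≤ n) : 0 ≤ wT2 d (k + 2) (n + 1) x := by
  by_cases hsmall : n < k + 1 + d
  · exact (wT_small (by omega) hsmall x).2.ge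
  push Not at hsmall
  refine (step_c1 (by omega) hsmall hx0 hx1 ?_).2.1
  intro l hl
  obtain ⟨m, hm⟩ : ∃ m, n - l = m + 1 := ⟨n - l - 1, by omega⟩
  rw [hm]
  have : n ≤ m + d := by omega
  have : (n : ℝ) ≤ m + d := by exact_mod_cast this
  exact tgood hd k m (x - d) (by omega) (by linarith) (by linarith) (by linarith)

theorem wT_convexOn (hd : 2 ≤ d) (hkn : k + 2 ≤ n) {a b : ℝ} (ha : 0 ≤ a)
    (hb1 : b ≤ ((k : ℝ) + 1) * d) (hb2 : b ≤ n) :
    ConvexOn ℝ (Set.Icc a b) (wf (TT d) (k + 2) (n + 1)) := by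
  have hd0 : 0 < d := by omega
  have hder : ∀ x ∈ Set.Icc a b, HasDerivAt (wf (TT d) (k + 2) (n + 1))
      (wT1 d (k + 2) (n + 1) x) x := fun x hx =>
    (wT_hasDeriv (n := n) hd0 (by omega) (le_trans hx.2 hb1)).1
  have hder2 : ∀ x ∈ Set.Icc a b, HasDerivAt (wT1 d (k + 2) (n + 1))
      (wT2 d (k + 2) (n + 1) x) x := fun x hx =>
    (wT_hasDeriv (n := n) hd0 (by omega) (le_trans hx.2 hb1)).2
  have hev : ∀ x ∈ Set.Ioo a b, deriv (wf (TT d) (k + 2) (n + 1)) =ᶠ[𝓝 x]
      wT1 d (k + 2) (n + 1) := by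
    intro x hx
    filter_upwards [Ioo_mem_nhds hx.1 hx.2] with y hy
    exact (hder y (Set.Ioo_subset_Icc_self hy)).deriv
  apply convexOn_of_deriv2_nonneg (convex_Icc a b)
  · intro x hx
    exact (hder x hx).continuousAt.continuousWithinAt
  · intro x hx
    rw [interior_Icc] at hx
    exact (hder x (Set.Ioo_subset_Icc_self hx)).differentiableAt.differentiableWithinAt
  · intro x hx
    rw [interior_Icc] at hx
    have h1 := hder2 x (Set.Ioo_subset_Icc_self hx)
    exact (h1.congr_of_eventuallyEq (hev x hx)).differentiableAt.differentiableWithinAt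
  · intro x hx
    rw [interior_Icc] at hx
    have h1 := hder2 x (Set.Ioo_subset_Icc_self hx)
    have h2 : deriv^[2] (wf (TT d) (k + 2) (n + 1)) x = wT2 d (k + 2) (n + 1) x := by
      have : deriv^[2] (wf (TT d) (k + 2) (n + 1)) x =
          deriv (deriv (wf (TT d) (k + 2) (n + 1))) x := rfl
      rw [this, (hev x hx).deriv_eq, h1.deriv]
    rw [h2]
    have hx' := Set.Ioo_subset_Icc_self hx
    exact wT2_nonneg hd (lt_of_le_of_lt ha hx.1) (le_trans hx'.2 hb1) (le_trans hx'.2 hb2)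

/-- convexity as a chord inequality -/
theorem wT_chord (hd : 2 ≤ d) (hkn : k + 2 ≤ n) {a b x : ℝ} (ha : 0 ≤ a) (hab : a < b)
    (hb1 : b ≤ ((k : ℝ) + 1) * d) (hb2 : b ≤ n) (hax : a ≤ x) (hxb : x ≤ b) :
    wf (TT d) (k + 2) (n + 1) x ≤ (x - a) / (b - a) * wf (TT d) (k + 2) (n + 1) b +
      (b - x) / (b - a) * wf (TT d) (k + 2) (n + 1) a := by
  have hc := (wT_convexOn hd hkn ha hb1 hb2).2 (Set.left_mem_Icc.2 hab.le)
    (Set.right_mem_Icc.2 hab.le)
    (show (0:ℝ) ≤ (b - x) / (b - a) from div_nonneg (by linarith) (by linarith))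
    (show (0:ℝ) ≤ (x - a) / (b - a) from div_nonneg (by linarith) (by linarith)) (by
      have : b - a ≠ 0 := by linarith
      field_simp
      ring)
  have e : (b - x) / (b - a) * a + (x - a) / (b - a) * b = x := by
    have : b - a ≠ 0 := by linarith
    field_simp
    ring
  simp only [smul_eq_mul] at hc
  rw [e] at hc
  linarith

/-- monotonicity of the ratio in `s` -/
theorem wT_monotoneOn (hd : 2 ≤ d) (hkn : k + 2 ≤ n) {a b : ℝ} (ha : -(d : ℝ) < a)
    (hb1 : b ≤ ((k : ℝ) + 1) * d) (hb2 : b ≤ n) :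
    MonotoneOn (wf (TT d) (k + 2) (n + 1)) (Set.Icc a b) := by
  have hd0 : 0 < d := by omega
  have hder : ∀ x ∈ Set.Icc a b, HasDerivAt (wf (TT d) (k + 2) (n + 1))
      (wT1 d (k + 2) (n + 1) x) x := fun x hx =>
    (wT_hasDeriv (n := n) hd0 (by omega) (le_trans hx.2 hb1)).1
  apply monotoneOn_of_deriv_nonneg (convex_Icc a b)
  · intro x hx
    exact (hder x hx).continuousAt.continuousWithinAt
  · intro x hx
    rw [interior_Icc] at hx
    exact (hder x (Set.Ioo_subset_Icc_self hx)).differentiableAt.differentiableWithinAt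
  · intro x hx
    rw [interior_Icc] at hx
    have hx' := Set.Ioo_subset_Icc_self hx
    rw [(hder x hx').deriv]
    exact (tgood hd (k + 1) n x (by omega) (by linarith [hx.1])
      (by push_cast; exact le_trans hx'.2 hb1) (le_trans hx'.2 hb2)).d1

/-- `w/(N+s)` is nonincreasing on `s ≥ 0`. -/
theorem wT_ratio (hd : 2 ≤ d) (hkn : k + 2 ≤ n) {a b : ℝ} (ha : 0 ≤ a) (hab : a ≤ b)
    (hb1 : b ≤ ((k : ℝ) + 1) * d) (hb2 : b ≤ n) :
    ((n : ℝ) + 1 + a) * wf (TT d) (k + 2) (n + 1) b ≤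
      ((n : ℝ) + 1 + b) * wf (TT d) (k + 2) (n + 1) a := by
  have hd0 : 0 < d := by omega
  have hn0 : (0:ℝ) ≤ n := Nat.cast_nonneg n
  have hder : ∀ x ∈ Set.Icc a b, HasDerivAt
      (fun x => wf (TT d) (k + 2) (n + 1) x / ((n : ℝ) + 1 + x))
      ((wT1 d (k + 2) (n + 1) x * ((n : ℝ) + 1 + x) - wf (TT d) (k + 2) (n + 1) x * 1) /
        ((n : ℝ) + 1 + x) ^ 2) x := by
    intro x hx
    have h1 := (wT_hasDeriv (n := n) hd0 (by omega : k + 1 ≤ n) (le_trans hx.2 hb1)).1
    have hc : HasDerivAt (fun x : ℝ => (n : ℝ) + 1 + x) 1 x := (hasDerivAt_id x).const_add _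
    have hne : (n : ℝ) + 1 + x ≠ 0 := by
      have := hx.1
      linarith
    exact h1.div hc hne
  have hanti : AntitoneOn (fun x => wf (TT d) (k + 2) (n + 1) x / ((n : ℝ) + 1 + x))
      (Set.Icc a b) := by
    apply antitoneOn_of_deriv_nonpos (convex_Icc a b)
    · intro x hx
      exact (hder x hx).continuousAt.continuousWithinAt
    · intro x hx
      rw [interior_Icc] at hx
      exact (hder x (Set.Ioo_subset_Icc_self hx)).differentiableAt.differentiableWithinAt
    · intro x hx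
      rw [interior_Icc] at hx
      have hx' := Set.Ioo_subset_Icc_self hx
      rw [(hder x hx').deriv]
      apply div_nonpos_of_nonpos_of_nonneg _ (sq_nonneg _)
      have h2 := (tgood hd (k + 1) n x (by omega) (by linarith [hx.1])
        (by push_cast; exact le_trans hx'.2 hb1) (le_trans hx'.2 hb2)).c2 (by linarith [hx.1])
      push_cast at h2
      have e3 : wf (TT d) (k + 1 + 1) (n + 1) x = wf (TT d) (k + 2) (n + 1) x := rfl
      have e4 : wT1 d (k + 1 + 1) (n + 1) x = wT1 d (k + 2) (n + 1) x := rfl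
      rw [e3, e4] at h2
      linarith
  have h := hanti (Set.left_mem_Icc.2 hab) (Set.right_mem_Icc.2 hab) hab
  simp only at h
  rw [div_le_div_iff₀ (by linarith) (by linarith)] at h
  linarith

/-- exact shift identity for the first moment -/
theorem Ssh_shift (hd : 0 < d) (k n : ℕ) (x : ℝ) :
    2 * Ssh d k n 0 x = (-(x / d)) * Tsh d k n 1 x + Ssh d k n 1 x := by
  have h0 : kr d n k (n + 1) = 0 := by
    apply kr_of_gt
    calc n < 1 * (n + 1) := by omega
      _ ≤ d * (n + 1) := Nat.mul_le_mul_right _ hd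
  have e1 : Ssh d k n 0 x = ∑ i ∈ range (n + 1), ((i : ℝ) + 1) * (bc (x / d) (i + 1) *
      kr d n k (i + 1)) := by
    unfold Ssh
    rw [sum_range_succ', sum_range_succ]
    simp only [Nat.cast_zero, zero_mul, add_zero, h0, mul_zero]
    apply sum_congr rfl
    intro i _
    push_cast
    ring
  rw [e1]
  unfold Tsh Ssh
  rw [mul_sum, mul_sum, ← sum_add_distrib]
  apply sum_congr rfl
  intro i _
  have := bc_rec (x / d) i
  linear_combination (kr d n k (i + 1)) * this

/-- the crucial inequality at `0` for `0 < s < d`. -/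
theorem chord_zero (hd : 0 < d) (hkn : k ≤ n) {s : ℝ} (hs0 : 0 ≤ s) (hsd : s ≤ d) :
    (n : ℝ) + 1 ≤ ((k : ℝ) + 1) * ((1 - s / d) * wf (TT d) (k + 1) (n + 1) s +
      s / d * wf (TT d) (k + 1) (n + 1) (s - d)) := by
  have hd' : (0:ℝ) < d := by exact_mod_cast hd
  set σ := s - (d : ℝ) with hσ
  have hσ0 : σ ≤ 0 := by rw [hσ]; linarith
  set g0 := Tsh d k n 0 σ with hg0
  set g1 := Tsh d k n 1 σ with hg1
  set S0 := Ssh d k n 0 σ with hS0
  set S1 := Ssh d k n 1 σ with hS1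
  have hg0p : 0 < g0 := TT_pos_of_nonpos hσ0 hkn
  have hg1n : 0 ≤ g1 := Tsh_nonneg hσ0
  have hg10 : g1 ≤ g0 := Tsh_antitone k n hσ0 (Nat.zero_le 1)
  have hch : g0 * S1 ≤ S0 * g1 := cheb_T k n 1 hσ0
  have hsh : 2 * S0 = (-(σ / d)) * g1 + S1 := Ssh_shift hd k n σ
  -- value at s
  have hphi : TT d k n s = g0 - g1 / 2 := by
    by_cases hdn : d ≤ n
    · have h1 := TT_phi hd k (n - d) s
      rw [Nat.sub_add_cancel hdn] at h1
      have h2 : g1 = TT d k (n - d) σ := by
        rw [hg1, Tsh_eq_TT hd (by omega)]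
        congr 1
        omega
      rw [h1, h2]
      have h3 : g0 = TT d k n σ := rfl
      rw [h3]
      ring
    · have h1 : g1 = 0 := Tsh_of_gt (by omega) σ
      have h2 : TT d k n s = (n.choose k : ℝ) := TT_of_lt (by omega) s
      have h3 : TT d k n σ = (n.choose k : ℝ) := TT_of_lt (by omega) σ
      have h4 : g0 = TT d k n σ := rfl
      rw [h1, h2, h4, h3]
      ring
  have hkk := TT_kk hd k n s
  have e0 : TT d k n (s - d) = g0 := rfl
  rw [hphi, e0] at hkk
  have hden : 0 < 2 * g0 - g1 := by linarith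
  have ews : ((k : ℝ) + 1) * wf (TT d) (k + 1) (n + 1) s = (n : ℝ) + 1 + s * (g1 / (2 * g0 - g1)) := by
    unfold wf
    simp only [Nat.add_sub_cancel]
    rw [← mul_div_assoc, hkk, hphi]
    have h1 : g0 - g1 / 2 = (2 * g0 - g1) / 2 := by ring
    rw [h1]
    generalize hG : 2 * g0 - g1 = G at *
    have h2 : G ≠ 0 := hden.ne'
    have h3 : g0 = (G + g1) / 2 := by linarith
    rw [h3]
    field_simp
    ring
  have ewd : ((k : ℝ) + 1) * wf (TT d) (k + 1) (n + 1) σ = (n : ℝ) + 1 - d * (S0 / g0) := by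
    unfold wf
    simp only [Nat.add_sub_cancel]
    have h1 := kk_sh hd k n 0 σ
    have h2 : Tsh d (k + 1) (n + 1) 0 σ = TT d (k + 1) (n + 1) σ := rfl
    have h3 : TT d k n σ = g0 := rfl
    rw [h2] at h1
    rw [← mul_div_assoc, h1, h3]
    push_cast
    field_simp
    ring
  have e1 : ((k : ℝ) + 1) * ((1 - s / d) * wf (TT d) (k + 1) (n + 1) s +
      s / d * wf (TT d) (k + 1) (n + 1) σ) = (1 - s / d) * ((n : ℝ) + 1 + s * (g1 / (2 * g0 - g1))) +
      s / d * ((n : ℝ) + 1 - d * (S0 / g0)) := by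
    rw [← ews, ← ewd]; ring
  rw [e1]
  have hη : -(σ / d) = 1 - s / d := by
    rw [hσ]; field_simp; ring
  rw [hη] at hsh
  -- reduce to  S0/g0 ≤ (1 - s/d) g1/(2 g0 - g1)
  have hkey : S0 / g0 ≤ (1 - s / d) * (g1 / (2 * g0 - g1)) := by
    rw [← mul_div_assoc, div_le_div_iff₀ hg0p hden]
    nlinarith
  have h5 := mul_le_mul_of_nonneg_left hkey hs0
  have h6 : s / d * ((n : ℝ) + 1 - d * (S0 / g0)) = s / d * ((n : ℝ) + 1) - s * (S0 / g0) := by
    field_simp
  rw [h6]
  have h7 : (1 - s / d) * ((n : ℝ) + 1 + s * (g1 / (2 * g0 - g1))) =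
      (1 - s / d) * ((n : ℝ) + 1) + s * ((1 - s / d) * (g1 / (2 * g0 - g1))) := by ring
  rw [h7]
  linarith

theorem wf_zero (hkn : k ≤ n) :
    ((k : ℝ) + 1) * wf (TT d) (k + 1) (n + 1) 0 = (n : ℝ) + 1 := by
  have hz : ∀ (k n : ℕ), TT d k n 0 = (n.choose k : ℝ) := by
    intro k n
    unfold TT Tsh
    rw [sum_eq_single 0]
    · simp [bc_zero, kr]
    · intro i _ hi
      obtain ⟨j, rfl⟩ : ∃ j, i = j + 1 := ⟨i - 1, by omega⟩
      have : ∀ j : ℕ, bc (0 / (d : ℝ)) (j + 1) = 0 := by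
        intro j
        induction j with
        | zero => simp [bc_succ, bc_zero]
        | succ j ih => rw [bc_succ, ih, zero_mul]
      rw [this, zero_mul]
    · intro h
      exact absurd (mem_range.2 (by omega)) h
  unfold wf
  simp only [Nat.add_sub_cancel]
  rw [hz, hz]
  have h1 := Nat.add_one_mul_choose_eq n k
  have h2 : ((n : ℝ) + 1) * (n.choose k : ℝ) = ((n + 1).choose (k + 1) : ℝ) * ((k : ℝ) + 1) := by
    exact_mod_cast h1
  have h3 : (0:ℝ) < (n.choose k : ℝ) := by exact_mod_cast Nat.choose_pos hkn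
  field_simp
  linarith

end

end Pool.Agent.MP_99e3ed_co.H84
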