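import Mathlib
import Pool.Agent.Lib.MP_99e3ed_co.H84.TFinal

open Filter Topology Finset

namespace Pool.Agent.MP_99e3ed_co.H84

open Pool.Agent.Lib.MP_99e3ed_co

theorem GT_eq {d : ℕ} (hd : 0 < d) (k n : ℕ) (x : ℝ) :
    Ratio.GT d k n x = 1 / wf (TT d) k n x := by
  unfold Ratio.GT wf
  rw [ratio_TT hd, ratio_TT hd, one_div_div]

/-- real form of (F-A), kind `T`; `k = K+2`, `n = N+1`. -/
theorem fat_real {d K N : ℕ} (hd : 2 ≤ d) (hKN : K + 2 ≤ N) {S x : ℝ} (hS0 : 0 < S)
    (hS1 : S ≤ ((K : ℝ) + 1) * d) (hS2 : S ≤ N) (hx0 : S - d ≤ x) (hx1 : x ≤ S)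
    {wx : ℝ} (hwx : wx = if x ≤ 0 then ((N : ℝ) + 1 + x) / (K + 2) else
      wf (TT d) (K + 2) (N + 1) x) (hpos : 0 < (N : ℝ) + 1 + x) :
    0 < wx ∧ 0 < wf (TT d) (K + 2) (N + 1) S ∧ 0 < wf (TT d) (K + 2) (N + 1) (S - d) ∧
    wf (TT d) (K + 2) (N + 1) (S - d) ≤ wf (TT d) (K + 2) (N + 1) S ∧
    ((N : ℝ) + 1 + x) * wf (TT d) (K + 2) (N + 1) S ≤ ((N : ℝ) + 1 + S) * wx ∧
    wx ≤ (1 - (S - x) / d) * wf (TT d) (K + 2) (N + 1) S +
      (S - x) / d * wf (TT d) (K + 2) (N + 1) (S - d) := by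
  have hd0 : 0 < d := by omega
  have hd' : (0:ℝ) < d := by exact_mod_cast hd0
  have hK0 : (0:ℝ) ≤ K := Nat.cast_nonneg K
  have hN0 : (0:ℝ) ≤ N := Nat.cast_nonneg N
  have hK2 : (0:ℝ) < (K : ℝ) + 2 := by positivity
  have hSg := tgood hd (K + 1) N S (by omega) (by linarith) (by push_cast; exact hS1) hS2
  have hDg := tgood hd (K + 1) N (S - d) (by omega) (by linarith) (by push_cast; linarith)
    (by linarith)
  have hws : 1 < wf (TT d) (K + 2) (N + 1) S := hSg.one_lt
  have hwd : 1 < wf (TT d) (K + 2) (N + 1) (S - d) := hDg.one_lt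
  have hc : wf (TT d) (K + 2) (N + 1) (S - d) ≤ wf (TT d) (K + 2) (N + 1) S :=
    wT_monotoneOn hd hKN (a := S - d) (b := S) (by linarith) hS1 hS2
      (Set.left_mem_Icc.2 (by linarith)) (Set.right_mem_Icc.2 (by linarith)) (by linarith)
  -- w(S) ≤ (N+1+S)/(K+2)
  have hwS : ((K : ℝ) + 2) * wf (TT d) (K + 2) (N + 1) S ≤ (N : ℝ) + 1 + S := by
    have h1 := hSg.bound
    push_cast at h1
    have e : (K : ℝ) + 1 + 1 = K + 2 := by ring
    rw [e, max_eq_left hS0.le] at h1
    have h2 : S * (((N : ℝ) + 1 - (K + 2)) / (N + 1)) ≤ S := by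
      have : ((N : ℝ) + 1 - (K + 2)) / (N + 1) ≤ 1 := by
        rw [div_le_one (by linarith)]
        linarith
      nlinarith
    have e3 : wf (TT d) (K + 1 + 1) (N + 1) S = wf (TT d) (K + 2) (N + 1) S := rfl
    rw [e3] at h1
    linarith
  rcases le_or_gt x 0 with hx | hx
  · rw [if_pos hx] at hwx
    have hwxp : 0 < wx := by rw [hwx]; positivity
    refine ⟨hwxp, by linarith, by linarith, hc, ?_, ?_⟩
    · rw [hwx]
      have : ((N : ℝ) + 1 + S) * (((N : ℝ) + 1 + x) / (K + 2)) =
          ((N : ℝ) + 1 + x) * (((N : ℝ) + 1 + S) / (K + 2)) := by ring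
      rw [this]
      apply mul_le_mul_of_nonneg_left _ hpos.le
      rw [le_div_iff₀ hK2]
      linarith
    · -- x ≤ 0, so S ≤ d; convex combination of S-d and 0
      have hSd : S ≤ d := by linarith
      have h0 := chord_zero (k := K + 1) (n := N) hd0 (by omega) hS0.le hSd
      push_cast at h0
      have e : (K : ℝ) + 1 + 1 = K + 2 := by ring
      rw [e] at h0
      have e3 : ∀ y, wf (TT d) (K + 1 + 1) (N + 1) y = wf (TT d) (K + 2) (N + 1) y :=
        fun _ => rfl
      rw [e3, e3] at h0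
      have h1 := TT_neg hd0 (K + 1) N (show S - (d : ℝ) ≤ 0 by linarith)
      have hg : 0 < TT d (K + 1) N (S - d) := TT_pos_of_nonpos (by linarith) (by omega)
      have h2 : (N : ℝ) + 1 + (S - d) ≤ ((K : ℝ) + 2) * wf (TT d) (K + 2) (N + 1) (S - d) := by
        have e4 : wf (TT d) (K + 2) (N + 1) (S - d) =
            TT d (K + 1 + 1) (N + 1) (S - d) / TT d (K + 1) N (S - d) := rfl
        rw [e4, ← mul_div_assoc, le_div_iff₀ hg]
        push_cast at h1
        rw [e] at h1
        exact h1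
      set A := wf (TT d) (K + 2) (N + 1) S with hA
      set B := wf (TT d) (K + 2) (N + 1) (S - d) with hB
      rw [hwx, div_le_iff₀ hK2]
      rcases eq_or_lt_of_le hSd with hSd' | hSd'
      · -- S = d, x = 0
        have hx00 : x = 0 := by linarith
        rw [hx00, ← hSd']
        have hSne : S ≠ 0 := hS0.ne'
        rw [sub_zero, div_self hSne]
        rw [hSd'] at h2
        simp only [sub_self, add_zero] at h2
        linarith
      · set θ := -x / (d - S) with hθ
        have hdS : 0 < (d : ℝ) - S := by linarith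
        have hθ0 : 0 ≤ θ := div_nonneg (by linarith) hdS.le
        have hθ1 : θ ≤ 1 := by rw [hθ, div_le_one hdS]; linarith
        have hxθ : x = -θ * (d - S) := by rw [hθ]; field_simp
        have e5 : (N : ℝ) + 1 + x = (1 - θ) * ((N : ℝ) + 1) + θ * ((N : ℝ) + 1 + (S - d)) := by
          rw [hxθ]; ring
        have e6 : ((1 - (S - x) / d) * A + (S - x) / d * B) * ((K : ℝ) + 2) =
            (1 - θ) * (((K : ℝ) + 2) * ((1 - S / d) * A + S / d * B)) +
              θ * (((K : ℝ) + 2) * B) := by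
          rw [hxθ]
          field_simp
          ring
        rw [e5, e6]
        exact add_le_add (mul_le_mul_of_nonneg_left h0 (by linarith))
          (mul_le_mul_of_nonneg_left h2 hθ0)
  · rw [if_neg (not_le.2 hx)] at hwx
    have hXg := tgood hd (K + 1) N x (by omega) (by linarith) (by push_cast; linarith)
      (by linarith)
    have hwx1 : 1 < wx := by rw [hwx]; exact hXg.one_lt
    refine ⟨by linarith, by linarith, by linarith, hc, ?_, ?_⟩
    · rw [hwx]
      exact wT_ratio hd hKN hx.le hx1 hS1 hS2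
    · rw [hwx]
      rcases le_total (d : ℝ) S with hdS | hdS
      · have h1 := wT_chord hd hKN (a := S - d) (b := S) (x := x) (by linarith) (by linarith)
          hS1 hS2 hx0 hx1
        have e1 : S - (S - (d : ℝ)) = d := by ring
        rw [e1] at h1
        have e2 : (x - (S - d)) / (d : ℝ) = 1 - (S - x) / d := by
          field_simp; ring
        rw [e2] at h1
        exact h1
      · have h1 := wT_chord hd hKN (a := 0) (b := S) (x := x) le_rfl hS0 hS1 hS2 hx.le hx1
        have h0 := chord_zero (k := K + 1) (n := N) hd0 (by omega) hS0.le hdS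
        have hz := wf_zero (d := d) (k := K + 1) (n := N) (by omega)
        push_cast at h0 hz
        have e : (K : ℝ) + 1 + 1 = K + 2 := by ring
        rw [e] at h0 hz
        have e3 : ∀ y, wf (TT d) (K + 1 + 1) (N + 1) y = wf (TT d) (K + 2) (N + 1) y :=
          fun _ => rfl
        rw [e3, e3] at h0
        rw [e3] at hz
        rw [← hz] at h0
        have h2 := le_of_mul_le_mul_left h0 hK2
        simp only [sub_zero] at h1
        have h3 : 0 ≤ (S - x) / S := div_nonneg (by linarith) hS0.le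
        have h4 := mul_le_mul_of_nonneg_left h2 h3
        have e5 : x / S * wf (TT d) (K + 2) (N + 1) S +
            (S - x) / S * ((1 - S / d) * wf (TT d) (K + 2) (N + 1) S +
              S / d * wf (TT d) (K + 2) (N + 1) (S - d)) =
            (1 - (S - x) / d) * wf (TT d) (K + 2) (N + 1) S +
              (S - x) / d * wf (TT d) (K + 2) (N + 1) (S - d) := by
          field_simp
          ring
        rw [← e5]
        linarith

theorem fat : Ratio.FAT := by
  intro d k n s δ hd hk hkn hs hsn hsk hδ hδd hkδ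
  obtain ⟨K, rfl⟩ : ∃ K, k = K + 2 := ⟨k - 2, by omega⟩
  obtain ⟨N, rfl⟩ : ∃ N, n = N + 1 := ⟨n - 1, by omega⟩
  have hd0 : 0 < d := by omega
  have hd' : (0:ℝ) < d := by exact_mod_cast hd0
  have hsR : (1:ℝ) ≤ s := by exact_mod_cast hs
  have hδR : (1:ℝ) ≤ δ := by exact_mod_cast hδ
  have hδdR : (δ : ℝ) ≤ d := by exact_mod_cast hδd.le
  have hsnR : (s : ℝ) ≤ N := by exact_mod_cast Nat.lt_succ_iff.1 hsn
  have hN0 : (0:ℝ) ≤ N := Nat.cast_nonneg N
  by_cases hn : K + 2 ≤ N
  · have hskR : (s : ℝ) ≤ ((K : ℝ) + 1) * d := by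
      have h1 : K + 2 - 1 = K + 1 := by omega
      rw [h1] at hsk
      exact_mod_cast hsk.le
    have hkδR : (K : ℝ) + 2 + δ ≤ N + 1 + s := by exact_mod_cast hkδ
    have hK0 : (0:ℝ) ≤ K := Nat.cast_nonneg K
    have hposx : 0 < (N : ℝ) + 1 + ((s : ℝ) - δ) := by linarith
    obtain ⟨h1, h2, h3, h4, h5, h6⟩ := fat_real (d := d) (K := K) (N := N) (by omega) hn
      (S := s) (x := (s : ℝ) - δ) (by linarith) hskR hsnR (by linarith) (by linarith) rfl hposx
    have hGTp : Ratio.GTp d (K + 2) (N + 1) ((s : ℝ) - δ) = 1 / (if (s : ℝ) - δ ≤ 0 then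
        ((N : ℝ) + 1 + ((s : ℝ) - δ)) / (K + 2) else
        wf (TT d) (K + 2) (N + 1) ((s : ℝ) - δ)) := by
      unfold Ratio.GTp
      split_ifs with h
      · rw [one_div_div]
        push_cast
        ring
      · exact GT_eq hd0 _ _ _
    rw [hGTp, GT_eq hd0, GT_eq hd0]
    have hnS : (0:ℝ) < ((N + 1 : ℕ) : ℝ) + s := by positivity
    apply final_ineq h2 h3 h1
    · rw [sub_nonneg, div_le_one hnS]
      push_cast
      linarith
    · rw [sub_nonneg, div_le_one hd']
      exact hδdR
    · have e1 : (s : ℝ) - (s - δ) = δ := by ring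
      rw [e1] at h6
      have e2 : 1 - (1 - (δ : ℝ) / d) = δ / d := by ring
      rw [e2]
      exact h6
    · have e1 : (1 - (δ : ℝ) / (((N + 1 : ℕ) : ℝ) + s)) =
          ((N : ℝ) + 1 + ((s : ℝ) - δ)) / ((N : ℝ) + 1 + s) := by
        push_cast
        have : (N : ℝ) + 1 + s ≠ 0 := by positivity
        field_simp
        ring
      rw [e1, div_mul_eq_mul_div, div_le_iff₀ (by positivity)]
      linarith
    · exact h4
  · -- n = k
    have hN : N = K + 1 := by omega
    subst hN
    have hw : ∀ x, Ratio.GT d (K + 2) (K + 1 + 1) x = 1 := by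
      intro x
      rw [GT_eq hd0]
      unfold wf
      have e1 : TT d (K + 2) (K + 1 + 1) x = 1 := by
        rw [TT_of_lt (by omega)]; simp
      have e2 : TT d (K + 2 - 1) (K + 1 + 1 - 1) x = 1 := by
        have h1 : K + 2 - 1 = K + 1 := by omega
        rw [h1, TT_of_lt (by omega)]; simp
      rw [e1, e2]
      norm_num
    have hp : Ratio.GTp d (K + 2) (K + 1 + 1) ((s : ℝ) - δ) = 1 := by
      unfold Ratio.GTp
      split_ifs with h
      · have h1 : s ≤ δ := by
          have : (s : ℝ) ≤ δ := by linarith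
          exact_mod_cast this
        have h2 : s = δ := by omega
        rw [h2]
        push_cast
        rw [sub_self, add_zero]
        rw [div_eq_one_iff_eq]
        · ring
        · positivity
      · exact hw _
    rw [hp, hw, hw]
    simp

theorem ttb : Ratio.TTb := by
  intro d k n s hd hk hkn hs hsn hsk
  obtain ⟨K, rfl⟩ : ∃ K, k = K + 2 := ⟨k - 2, by omega⟩
  obtain ⟨N, rfl⟩ : ∃ N, n = N + 1 := ⟨n - 1, by omega⟩
  have hd0 : 0 < d := by omega
  have hsR : (1:ℝ) ≤ s := by exact_mod_cast hs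
  have hsnR : (s : ℝ) ≤ N := by exact_mod_cast Nat.lt_succ_iff.1 hsn
  rw [ratio_TT hd0, ratio_TT hd0, ratio_TT hd0, ratio_TT hd0]
  have e0 : K + 2 - 1 = K + 1 := by omega
  have e0' : N + 1 - 1 = N := by omega
  by_cases hn : K + 2 ≤ N
  · have hskR : (s : ℝ) ≤ ((K : ℝ) + 1) * d := by
      rw [e0] at hsk
      exact_mod_cast hsk.le
    have h := wT_ratio (d := d) (k := K) (n := N) (by omega) hn (a := (s : ℝ) - 1) (b := s)
      (by linarith) (by linarith) hskR hsnR
    unfold wf at h
    rw [e0, e0'] at h ⊢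
    have hd1 : (0:ℝ) ≤ d := Nat.cast_nonneg d
    have h1 : 0 < TT d (K + 1) N s := TT_pos hd0 (by push_cast; exact hskR) (by omega)
    have h2 : 0 < TT d (K + 1) N ((s : ℝ) - 1) :=
      TT_pos hd0 (by push_cast; linarith) (by omega)
    rw [← mul_div_assoc, ← mul_div_assoc, div_le_div_iff₀ h1 h2] at h
    push_cast
    nlinarith
  · have hN : N = K + 1 := by omega
    subst hN
    rw [e0]
    have e1 : ∀ x, TT d (K + 2) (K + 1 + 1) x = 1 := by
      intro x
      rw [TT_of_lt (by omega)]; simp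
    have e2 : ∀ x, TT d (K + 1) (K + 1) x = 1 := by
      intro x
      rw [TT_of_lt (by omega)]; simp
    rw [e1, e1, e2, e2]
    linarith

end Pool.Agent.MP_99e3ed_co.H84
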