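import Mathlib
import Pool.Agent.Lib.MP_99e3ed_co.H84.TFinal
import Pool.Agent.Lib.MP_99e3ed_co.H84.FAT
import Pool.Agent.Lib.MP_99e3ed_co.H59.Defs

open Filter Topology Finset

namespace Pool.Agent.MP_99e3ed_co.H84

open Pool.Agent.Lib.MP_99e3ed_co

theorem kr_contig (d m k i : ℕ) (hk : 1 ≤ k) :
    ((m : ℝ) + 1 - d * i - k) * kr d (m + 1) k i = ((m : ℝ) + 1 - d * i) * kr d m k i := by
  unfold kr
  by_cases h : d * i ≤ m
  · rw [if_pos h, if_pos (by omega)]
    have h1 : m + 1 - d * i = (m - d * i) + 1 := by omega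
    rw [h1]
    have h2 := Nat.choose_mul_succ_eq (m - d * i) k
    have h3 : ((m - d * i : ℕ) : ℝ) = (m : ℝ) - d * i := by
      rw [Nat.cast_sub h]; push_cast; ring
    by_cases hk2 : k ≤ m - d * i + 1
    · have h4 : (((m - d * i).choose k : ℕ) : ℝ) * (((m - d * i : ℕ) : ℝ) + 1) =
          ((m - d * i + 1).choose k : ℕ) * (((m - d * i : ℕ) : ℝ) + 1 - k) := by
        have : ((m - d * i + 1 - k : ℕ) : ℝ) = ((m - d * i : ℕ) : ℝ) + 1 - k := by
          rw [Nat.cast_sub hk2]; push_cast; ring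
        rw [← this]
        exact_mod_cast h2
      rw [h3] at h4
      linarith
    · have e1 : (m - d * i).choose k = 0 := Nat.choose_eq_zero_of_lt (by omega)
      have e2 : (m - d * i + 1).choose k = 0 := Nat.choose_eq_zero_of_lt (by omega)
      rw [e1, e2]
      simp
  · rw [if_neg h]
    by_cases h2 : d * i ≤ m + 1
    · rw [if_pos h2]
      have : m + 1 - d * i = 0 := by omega
      rw [this, Nat.choose_eq_zero_of_lt (by omega)]
      simp
    · rw [if_neg h2]; simp

theorem Ssh_range {d : ℕ} (hd : 0 < d) (k n r : ℕ) (s : ℝ) {N : ℕ} (hN : n + 1 ≤ N) :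
    ∑ i ∈ range N, (i : ℝ) * (bc (s / d) i * kr d n k (i + r)) = Ssh d k n r s := by
  unfold Ssh
  symm
  apply sum_subset (range_subset_range.2 hN)
  intro i _ hi
  have h1 : n + 1 ≤ i := by
    by_contra h
    exact hi (mem_range.2 (by omega))
  rw [kr_of_gt, mul_zero, mul_zero]
  calc n < i := h1
    _ ≤ i + r := by omega
    _ = 1 * (i + r) := by ring
    _ ≤ d * (i + r) := Nat.mul_le_mul_right _ hd

theorem Ssh_eq {d : ℕ} (hd : 0 < d) {k n r : ℕ} (h : d * r ≤ n) (s : ℝ) :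
    Ssh d k n r s = Ssh d k (n - d * r) 0 s := by
  rw [← Ssh_range hd k (n - d * r) 0 s (N := n + 1) (by omega)]
  unfold Ssh
  apply sum_congr rfl
  intro i _
  rw [kr_shift r i h]
  simp

theorem contig0 {d : ℕ} (hd : 0 < d) {k : ℕ} (hk : 1 ≤ k) (m : ℕ) (x : ℝ) :
    ((m : ℝ) + 1 - k) * TT d k (m + 1) x - ((m : ℝ) + 1) * TT d k m x =
      d * (Ssh d k (m + 1) 0 x - Ssh d k m 0 x) := by
  unfold TT
  rw [← Tsh_range hd k m 0 x (N := m + 2) (by omega),
    ← Ssh_range hd k m 0 x (N := m + 2) (by omega)]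
  unfold Tsh Ssh
  rw [mul_sum, mul_sum, ← sum_sub_distrib, ← sum_sub_distrib, mul_sum]
  apply sum_congr rfl
  intro i _
  have h1 := kr_contig d m k i hk
  simp only [add_zero]
  linear_combination (bc (x / d) i) * h1

/-- the contiguity relation -/
theorem contig {d : ℕ} (hd : 0 < d) {k : ℕ} (hk : 1 ≤ k) {j : ℕ} (hj : 1 ≤ j) (x : ℝ) :
    (((j + d : ℕ) : ℝ) - k) * TT d k (j + d) x = ((j + d : ℕ) : ℝ) * TT d k (j + d - 1) x +
      (((j : ℝ) - x - k) * TT d k j x - ((j : ℝ) - x) * TT d k (j - 1) x) / 2 := by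
  obtain ⟨i, rfl⟩ : ∃ i, j = i + 1 := ⟨j - 1, by omega⟩
  have hd' : (d : ℝ) ≠ 0 := by positivity
  have h1 := contig0 hd hk (i + d) x
  have h2 := contig0 hd hk i x
  have h3 := Ssh_shift hd k (i + d + 1) x
  have h4 := Ssh_shift hd k (i + d) x
  have e1 : Ssh d k (i + d + 1) 1 x = Ssh d k (i + 1) 0 x := by
    rw [Ssh_eq hd (by omega)]
    congr 1
    omega
  have e2 : Ssh d k (i + d) 1 x = Ssh d k i 0 x := by
    rw [Ssh_eq hd (by omega)]
    congr 1
    omega
  have e3 : Tsh d k (i + d + 1) 1 x = TT d k (i + 1) x := by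
    rw [Tsh_eq_TT hd (by omega)]
    congr 1
    omega
  have e4 : Tsh d k (i + d) 1 x = TT d k i x := by
    rw [Tsh_eq_TT hd (by omega)]
    congr 1
    omega
  rw [e1, e3] at h3
  rw [e2, e4] at h4
  have e5 : i + 1 + d - 1 = i + d := by omega
  have e6 : i + 1 + d = i + d + 1 := by omega
  have e7 : i + 1 - 1 = i := by omega
  rw [e5, e6, e7]
  have h5 : x = d * (x / d) := by field_simp
  push_cast at h1 h2 ⊢
  have h6 : (d : ℝ) * (2 * Ssh d k (i + d + 1) 0 x) = -x * TT d k (i + 1) x +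
      d * Ssh d k (i + 1) 0 x := by
    rw [h3]
    field_simp
  have h7 : (d : ℝ) * (2 * Ssh d k (i + d) 0 x) = -x * TT d k i x + d * Ssh d k i 0 x := by
    rw [h4]
    field_simp
  linear_combination h1 + h6 / 2 - h7 / 2 - h2 / 2

/-! ### the functions `Y`, `y`, `z` -/

/-- `T_{m-1}/T_m` (same `k`) and its derivatives -/
noncomputable def rr (d k m : ℕ) (x : ℝ) : ℝ := TT d k (m - 1) x / TT d k m x

noncomputable def rr1 (d k m : ℕ) (x : ℝ) : ℝ :=
  (Tsh1 d k (m - 1) 0 x * TT d k m x - TT d k (m - 1) x * Tsh1 d k m 0 x) / TT d k m x ^ 2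

noncomputable def rr2 (d k m : ℕ) (x : ℝ) : ℝ :=
  (Tsh2 d k (m - 1) 0 x * TT d k m x - TT d k (m - 1) x * Tsh2 d k m 0 x) / TT d k m x ^ 2 -
  2 * Tsh1 d k m 0 x *
    (Tsh1 d k (m - 1) 0 x * TT d k m x - TT d k (m - 1) x * Tsh1 d k m 0 x) / TT d k m x ^ 3

theorem jet_rr {d : ℕ} (hd : 0 < d) {k m : ℕ} {x : ℝ} (h : TT d k m x ≠ 0) :
    Jet (rr d k m) (rr1 d k m) (rr2 d k m x) x :=
  jet_ratio (M := TT d k (m - 1)) (g := TT d k m) (hasDerivAt_Tsh hd k (m - 1) 0)
    (hasDerivAt_Tsh1 hd k (m - 1) 0) (hasDerivAt_Tsh hd k m 0)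
    (hasDerivAt_Tsh1 hd k m 0) h

noncomputable def YY (d k m : ℕ) (x : ℝ) : ℝ := m * rr d k m x - ((m : ℝ) - k)
noncomputable def yy (d k m : ℕ) (x : ℝ) : ℝ := m * rr1 d k m x
noncomputable def zz (d k m : ℕ) (x : ℝ) : ℝ := m * rr2 d k m x

theorem YY_deriv {d : ℕ} (hd : 0 < d) {k m : ℕ} (hkm : k ≤ m) {x : ℝ} (hx : x ≤ k * d) :
    HasDerivAt (YY d k m) (yy d k m x) x ∧ HasDerivAt (yy d k m) (zz d k m x) x := by
  have hJ := jet_rr hd (k := k) (m := m) (TT_pos hd hx hkm).ne'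
  constructor
  · exact (hJ.hasDerivAt.const_mul (m : ℝ)).sub_const _
  · exact hJ.2.const_mul (m : ℝ)

theorem gg_eq (d k m : ℕ) (x : ℝ) : H59.gg k (fun m => YY d k m x) m = m * rr d k m x := by
  unfold H59.gg YY
  ring

theorem al_eq {d : ℕ} (hd : 0 < d) {k j : ℕ} (hkj : k ≤ j) {x : ℝ}
    (hx : x ≤ k * d) :
    H59.al d k (fun m => YY d k m x) j = TT d k j x / TT d k (j + d) x := by
  have key : ∀ e : ℕ, ∏ t ∈ Ioc j (j + e), H59.gg k (fun m => YY d k m x) t / t =
      TT d k j x / TT d k (j + e) x := by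
    intro e
    induction e with
    | zero =>
      have h0 := (TT_pos hd hx hkj).ne'
      simp only [add_zero, Ioc_self, prod_empty]
      rw [div_self h0]
    | succ e ih =>
      have h1 : Ioc j (j + (e + 1)) = insert (j + e + 1) (Ioc j (j + e)) := by
        ext t
        simp only [mem_Ioc, mem_insert]
        omega
      rw [h1, prod_insert (by simp), ih, gg_eq]
      have h2 := (TT_pos hd hx (show k ≤ j + e by omega)).ne'
      have h3 := (TT_pos hd hx (show k ≤ j + e + 1 by omega)).ne'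
      have h4 : (((j + e + 1 : ℕ) : ℝ)) ≠ 0 := by positivity
      unfold rr
      simp only [Nat.add_sub_cancel]
      have h5 : j + (e + 1) = j + e + 1 := by omega
      rw [h5]
      field_simp
  exact key d

/-- the zeroth order recursion, as an identity of functions. -/
theorem recY {d : ℕ} (hd : 0 < d) {k j : ℕ} (hk : 1 ≤ k) (hkj : k ≤ j) {x : ℝ}
    (hx : x ≤ k * d) :
    2 * YY d k (j + d) x = H59.al d k (fun m => YY d k m x) j *
      H59.Psi k x (fun m => YY d k m x) j := by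
  have h1 := contig hd hk (j := j) (by omega) x
  have hT : 0 < TT d k (j + d) x := TT_pos hd hx (by omega)
  have hTj : 0 < TT d k j x := TT_pos hd hx hkj
  have hj : (0:ℝ) < j := by
    have : 0 < j := by omega
    exact_mod_cast this
  rw [al_eq hd hkj hx]
  unfold H59.Psi YY rr
  have e1 : 2 * (((j + d : ℕ) : ℝ) * (TT d k (j + d - 1) x / TT d k (j + d) x) -
      (((j + d : ℕ) : ℝ) - k)) = 2 * (((j + d : ℕ) : ℝ) * TT d k (j + d - 1) x -
      (((j + d : ℕ) : ℝ) - k) * TT d k (j + d) x) / TT d k (j + d) x := by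
    field_simp
  rw [e1, h1]
  field_simp
  ring

theorem hasDerivAt_prod_log {ι : Type*} [DecidableEq ι] (F : Finset ι) {φ : ι → ℝ → ℝ}
    {δ : ι → ℝ} {x : ℝ} (h : ∀ t ∈ F, HasDerivAt (φ t) (φ t x * δ t) x) :
    HasDerivAt (fun x => ∏ t ∈ F, φ t x) ((∏ t ∈ F, φ t x) * ∑ t ∈ F, δ t) x := by
  induction F using Finset.induction_on with
  | empty =>
    simp only [prod_empty, sum_empty, mul_zero]
    exact hasDerivAt_const x 1
  | insert a F ha ih =>
    have h1 := ih (fun t ht => h t (mem_insert_of_mem ht))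
    have h2 := h a (mem_insert_self a F)
    simp only [prod_insert ha, sum_insert ha]
    refine (h2.mul h1).congr_deriv ?_
    ring

theorem gg_pos {d : ℕ} (hd : 0 < d) {k t : ℕ} (hkt : k < t) {x : ℝ} (hx : x ≤ k * d) :
    0 < H59.gg k (fun m => YY d k m x) t := by
  rw [gg_eq]
  have h1 := TT_pos hd hx (show k ≤ t - 1 by omega)
  have h2 := TT_pos hd hx (show k ≤ t by omega)
  have h3 : (0:ℝ) < t := by
    have : 0 < t := by omega
    exact_mod_cast this
  unfold rr
  positivity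

theorem hasDerivAt_gg {d : ℕ} (hd : 0 < d) {k t : ℕ} (hkt : k ≤ t) {x : ℝ} (hx : x ≤ k * d) :
    HasDerivAt (fun x => H59.gg k (fun m => YY d k m x) t) (yy d k t x) x := by
  unfold H59.gg
  exact (YY_deriv hd hkt hx).1.const_add _

theorem hasDerivAt_al {d : ℕ} (hd : 0 < d) {k j : ℕ} (hkj : k ≤ j) {x : ℝ} (hx : x ≤ k * d) :
    HasDerivAt (fun x => H59.al d k (fun m => YY d k m x) j)
      (H59.al d k (fun m => YY d k m x) j *
        H59.DD d k (fun m => YY d k m x) (fun m => yy d k m x) j) x := by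
  unfold H59.al H59.DD
  apply hasDerivAt_prod_log
  intro t ht
  have ht' := mem_Ioc.1 ht
  have hg := gg_pos hd (k := k) (t := t) (by omega) hx
  have ht0 : (0:ℝ) < t := by
    have : 0 < t := by omega
    exact_mod_cast this
  refine ((hasDerivAt_gg hd (by omega) hx).div_const _).congr_deriv ?_
  field_simp

theorem hasDerivAt_DD {d : ℕ} (hd : 0 < d) {k j : ℕ} (hkj : k ≤ j) {x : ℝ} (hx : x ≤ k * d) :
    HasDerivAt (fun x => H59.DD d k (fun m => YY d k m x) (fun m => yy d k m x) j)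
      (H59.DD1 d k (fun m => YY d k m x) (fun m => yy d k m x) (fun m => zz d k m x) j) x := by
  unfold H59.DD H59.DD1
  apply HasDerivAt.fun_sum
  intro t ht
  have ht' := mem_Ioc.1 ht
  have hg := gg_pos hd (k := k) (t := t) (by omega) hx
  have h1 := (YY_deriv hd (k := k) (m := t) (by omega) hx).2
  refine (h1.div (hasDerivAt_gg hd (by omega) hx) hg.ne').congr_deriv ?_
  field_simp

theorem hasDerivAt_Psi {d : ℕ} (hd : 0 < d) {k j : ℕ} (hkj : k ≤ j) {x : ℝ} (hx : x ≤ k * d) :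
    HasDerivAt (fun x => H59.Psi k x (fun m => YY d k m x) j)
      (H59.Psi1 k x (fun m => YY d k m x) (fun m => yy d k m x) j) x := by
  unfold H59.Psi H59.Psi1
  have h1 := (YY_deriv hd (k := k) (m := j) hkj hx).1
  have h2 := (((hasDerivAt_id x).mul (h1.const_sub (k : ℝ))).div_const (j : ℝ)).add h1
  refine h2.congr_deriv ?_
  simp only [id]
  ring

theorem hasDerivAt_Psi1 {d : ℕ} (hd : 0 < d) {k j : ℕ} (hkj : k ≤ j) {x : ℝ} (hx : x ≤ k * d) :
    HasDerivAt (fun x => H59.Psi1 k x (fun m => YY d k m x) (fun m => yy d k m x) j)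
      (H59.Psi2 x (fun m => yy d k m x) (fun m => zz d k m x) j) x := by
  unfold H59.Psi1 H59.Psi2
  obtain ⟨h1, h2⟩ := YY_deriv hd (k := k) (m := j) hkj hx
  have h3 : HasDerivAt (fun x : ℝ => 1 - x / (j : ℝ)) (-(1 / (j : ℝ))) x := by
    simpa using ((hasDerivAt_id x).div_const (j : ℝ)).const_sub 1
  have h4 := ((h1.const_sub (k : ℝ)).div_const (j : ℝ)).add (h3.mul h2)
  refine h4.congr_deriv ?_
  ring

theorem recy {d : ℕ} (hd : 0 < d) {k j : ℕ} (hk : 1 ≤ k) (hkj : k ≤ j) {x : ℝ}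
    (hx : x < k * d) :
    2 * yy d k (j + d) x = H59.al d k (fun m => YY d k m x) j *
      (H59.DD d k (fun m => YY d k m x) (fun m => yy d k m x) j *
        H59.Psi k x (fun m => YY d k m x) j +
        H59.Psi1 k x (fun m => YY d k m x) (fun m => yy d k m x) j) := by
  have h1 := (YY_deriv hd (k := k) (m := j + d) (by omega) hx.le).1.const_mul 2
  have h2 := (hasDerivAt_al hd hkj hx.le).mul (hasDerivAt_Psi hd hkj hx.le)
  have h3 : (fun x => 2 * YY d k (j + d) x) =ᶠ[𝓝 x]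
      fun x => H59.al d k (fun m => YY d k m x) j * H59.Psi k x (fun m => YY d k m x) j := by
    filter_upwards [eventually_lt_nhds hx] with y hy
    exact recY hd hk hkj hy.le
  have h4 := h1.unique (h2.congr_of_eventuallyEq h3)
  rw [h4]
  ring

theorem recz {d : ℕ} (hd : 0 < d) {k j : ℕ} (hk : 1 ≤ k) (hkj : k ≤ j) {x : ℝ}
    (hx : x < k * d) :
    2 * zz d k (j + d) x = H59.al d k (fun m => YY d k m x) j *
      ((H59.DD d k (fun m => YY d k m x) (fun m => yy d k m x) j ^ 2 +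
        H59.DD1 d k (fun m => YY d k m x) (fun m => yy d k m x) (fun m => zz d k m x) j) *
        H59.Psi k x (fun m => YY d k m x) j +
        2 * H59.DD d k (fun m => YY d k m x) (fun m => yy d k m x) j *
          H59.Psi1 k x (fun m => YY d k m x) (fun m => yy d k m x) j +
        H59.Psi2 x (fun m => yy d k m x) (fun m => zz d k m x) j) := by
  have h1 := (YY_deriv hd (k := k) (m := j + d) (by omega) hx.le).2.const_mul 2
  have h2 := (hasDerivAt_al hd hkj hx.le).mul
    (((hasDerivAt_DD hd hkj hx.le).mul (hasDerivAt_Psi hd hkj hx.le)).add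
      (hasDerivAt_Psi1 hd hkj hx.le))
  have h3 : (fun x => 2 * yy d k (j + d) x) =ᶠ[𝓝 x]
      fun x => H59.al d k (fun m => YY d k m x) j *
      (H59.DD d k (fun m => YY d k m x) (fun m => yy d k m x) j *
        H59.Psi k x (fun m => YY d k m x) j +
        H59.Psi1 k x (fun m => YY d k m x) (fun m => yy d k m x) j) := by
    filter_upwards [eventually_lt_nhds hx] with y hy
    exact recy hd hk hkj hy
  have h4 := h1.unique (h2.congr_of_eventuallyEq h3)
  rw [h4]
  simp only [Pi.add_apply, Pi.mul_apply]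
  ring

theorem YY_zero {d : ℕ} (hd : 0 < d) {k m : ℕ} (hk : 1 ≤ k) (hkm : k ≤ m) (hm : m < k + d)
    (x : ℝ) : YY d k m x = 0 ∧ yy d k m x = 0 ∧ zz d k m x = 0 := by
  have h1 := Tsh1_zero_small hd (k := k) (n := m) (r := 0) hm x
  have h2 := Tsh1_zero_small hd (k := k) (n := m - 1) (r := 0) (by omega) x
  have h3 := Tsh2_zero_small hd (k := k) (n := m) (r := 0) hm x
  have h4 := Tsh2_zero_small hd (k := k) (n := m - 1) (r := 0) (by omega) x
  refine ⟨?_, ?_, ?_⟩
  · unfold YY rr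
    rw [TT_of_lt hm, TT_of_lt (by omega)]
    obtain ⟨i, rfl⟩ : ∃ i, m = i + 1 := ⟨m - 1, by omega⟩
    have h5 := Nat.choose_mul_succ_eq i k
    have h6 : ((i.choose k : ℕ) : ℝ) * ((i : ℝ) + 1) =
        ((i + 1).choose k : ℕ) * ((i : ℝ) + 1 - k) := by
      have : ((i + 1 - k : ℕ) : ℝ) = (i : ℝ) + 1 - k := by
        rw [Nat.cast_sub hkm]; push_cast; ring
      rw [← this]
      exact_mod_cast h5
    have h7 : (0:ℝ) < ((i + 1).choose k : ℕ) := by exact_mod_cast Nat.choose_pos hkm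
    have e : i + 1 - 1 = i := by omega
    rw [e]
    push_cast
    rw [sub_eq_zero, ← mul_div_assoc, div_eq_iff h7.ne']
    linarith
  · unfold yy rr1
    rw [h1, h2]
    simp
  · unfold zz rr2
    rw [h1, h2, h3, h4]
    simp

theorem GT_YY {d : ℕ} (hd : 0 < d) {k n : ℕ} (hk : 1 ≤ k) (hkn : k ≤ n) {x : ℝ}
    (hx : x ≤ k * d) : (n : ℝ) * Ratio.GT d k n x = k - YY d k n x := by
  unfold Ratio.GT YY rr
  rw [ratio_TT hd, ratio_TT hd]
  obtain ⟨K, rfl⟩ : ∃ K, k = K + 1 := ⟨k - 1, by omega⟩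
  obtain ⟨N, rfl⟩ : ∃ N, n = N + 1 := ⟨n - 1, by omega⟩
  simp only [Nat.add_sub_cancel]
  have h1 := TT_pascal hd K N x
  have h2 := (TT_pos hd hx hkn).ne'
  have h3 : TT d K N x = TT d (K + 1) (N + 1) x - TT d (K + 1) N x := by linarith
  rw [h3]
  field_simp
  ring

theorem jetSys : H59.JetSys := by
  intro d k n hd hk hkn
  have hn0 : (0:ℝ) < n := by
    have : 0 < n := by omega
    exact_mod_cast this
  refine ⟨YY d k, yy d k, zz d k, ?_, ?_, ?_⟩
  · intro x _ hx
    exact GT_YY hd hk hkn hx.le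
  · intro x _ hx
    refine ⟨⟨?_, ?_, ?_, ?_, ?_⟩, ?_, ?_⟩
    · intro m hkm _ hm
      exact YY_zero hd hk hkm hm x
    · intro m hkm _
      exact gg_pos hd hkm hx.le
    · intro j hkj _
      exact recY hd hk hkj hx.le
    · intro j hkj _
      exact recy hd hk hkj hx
    · intro j hkj _
      exact recz hd hk hkj hx
    · have h1 := (YY_deriv hd (k := k) (m := n) hkn hx.le).1
      have h2 := (h1.const_sub (k : ℝ)).div_const (n : ℝ)
      have h3 : (fun x => Ratio.GT d k n x) =ᶠ[𝓝 x] fun x => ((k : ℝ) - YY d k n x) / n := by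
        filter_upwards [eventually_lt_nhds hx] with y hy
        rw [← GT_YY hd hk hkn hy.le]
        field_simp
      exact h2.congr_of_eventuallyEq h3
    · have h1 := (YY_deriv hd (k := k) (m := n) hkn hx.le).2
      exact h1.neg.div_const (n : ℝ)
  · have h3 : Set.EqOn (fun x => Ratio.GT d k n x) (fun x => ((k : ℝ) - YY d k n x) / n)
        (Set.Ico 0 (k * d : ℝ)) := by
      intro x hx
      simp only
      rw [← GT_YY hd hk hkn hx.2.le]
      field_simp
    refine ContinuousOn.congr ?_ h3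
    intro x hx
    have h1 := (YY_deriv hd (k := k) (m := n) hkn hx.2.le).1
    exact ((h1.const_sub (k : ℝ)).div_const (n : ℝ)).continuousAt.continuousWithinAt

end Pool.Agent.MP_99e3ed_co.H84
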