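import Mathlib
import Pool.Agent.Lib.MP_99e3ed_co.H84.TA

open Filter Topology Finset

namespace Pool.Agent.MP_99e3ed_co.H84

open Pool.Agent.Lib.MP_99e3ed_co

/-- first derivative of the polynomial family in `s` -/
noncomputable def AA1 (d : ℕ) : ℕ → ℝ → ℝ → ℝ
  | 0, _, _ => 0
  | k + 1, n, s => (-Ratio.AA d k (n - 1) s + (n - s) * AA1 d k (n - 1) s +
      2 * Ratio.AA d k (n - 1) (s - d) + 2 * s * AA1 d k (n - 1) (s - d)) / (k + 1)

/-- second derivative of the polynomial family in `s` -/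
noncomputable def AA2 (d : ℕ) : ℕ → ℝ → ℝ → ℝ
  | 0, _, _ => 0
  | k + 1, n, s => (-2 * AA1 d k (n - 1) s + (n - s) * AA2 d k (n - 1) s +
      4 * AA1 d k (n - 1) (s - d) + 2 * s * AA2 d k (n - 1) (s - d)) / (k + 1)

theorem hasDerivAt_AA (d k : ℕ) (n s : ℝ) :
    HasDerivAt (fun x => Ratio.AA d k n x) (AA1 d k n s) s := by
  induction k generalizing n s with
  | zero =>
    simp only [Ratio.AA, AA1]
    exact hasDerivAt_const s 1
  | succ k ih =>
    simp only [Ratio.AA, AA1]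
    have h1 := ih (n - 1) s
    have h2 : HasDerivAt (fun x => Ratio.AA d k (n - 1) (x - d)) (AA1 d k (n - 1) (s - d)) s := by
      have h3 : HasDerivAt (fun x : ℝ => x - (d : ℝ)) 1 s := (hasDerivAt_id s).sub_const _
      have := HasDerivAt.comp s (ih (n - 1) (s - d)) h3
      simpa [Function.comp_def] using this
    have h3 : HasDerivAt (fun x : ℝ => n - x) (-1) s := (hasDerivAt_id s).const_sub n
    have h4 : HasDerivAt (fun x : ℝ => 2 * x) 2 s := by
      simpa using (hasDerivAt_id s).const_mul 2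
    refine (((h3.mul h1).add (h4.mul h2)).div_const _).congr_deriv ?_
    ring

theorem hasDerivAt_AA1 (d k : ℕ) (n s : ℝ) :
    HasDerivAt (fun x => AA1 d k n x) (AA2 d k n s) s := by
  induction k generalizing n s with
  | zero =>
    simp only [AA1, AA2]
    exact hasDerivAt_const s 0
  | succ k ih =>
    simp only [AA1, AA2]
    have h1 := ih (n - 1) s
    have h0 : HasDerivAt (fun x : ℝ => x - (d : ℝ)) 1 s := (hasDerivAt_id s).sub_const _
    have h2 : HasDerivAt (fun x => AA1 d k (n - 1) (x - d)) (AA2 d k (n - 1) (s - d)) s := by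
      have := HasDerivAt.comp s (ih (n - 1) (s - d)) h0
      simpa [Function.comp_def] using this
    have h2' : HasDerivAt (fun x => Ratio.AA d k (n - 1) (x - d)) (AA1 d k (n - 1) (s - d)) s := by
      have := HasDerivAt.comp s (hasDerivAt_AA d k (n - 1) (s - d)) h0
      simpa [Function.comp_def] using this
    have h1' := hasDerivAt_AA d k (n - 1) s
    have h3 : HasDerivAt (fun x : ℝ => n - x) (-1) s := (hasDerivAt_id s).const_sub n
    have h4 : HasDerivAt (fun x : ℝ => 2 * x) 2 s := by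
      simpa using (hasDerivAt_id s).const_mul 2
    refine ((((h1'.neg.add (h3.mul h1)).add (h2'.const_mul 2)).add
      (h4.mul h2)).div_const _).congr_deriv ?_
    ring

/-- the polynomial family on natural `n` -/
noncomputable def XA (d k n : ℕ) (s : ℝ) : ℝ := Ratio.AA d k (n : ℝ) s

theorem fam_XA (d : ℕ) : Fam d 2 (XA d) := fam_AA d

noncomputable def wA1 (d k n : ℕ) (s : ℝ) : ℝ :=
  (AA1 d k n s * XA d (k - 1) (n - 1) s - XA d k n s * AA1 d (k - 1) ((n - 1 : ℕ) : ℝ) s) /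
    XA d (k - 1) (n - 1) s ^ 2

noncomputable def wA2 (d k n : ℕ) (s : ℝ) : ℝ :=
  (AA2 d k n s * XA d (k - 1) (n - 1) s - XA d k n s * AA2 d (k - 1) ((n - 1 : ℕ) : ℝ) s) /
    XA d (k - 1) (n - 1) s ^ 2 -
  2 * AA1 d (k - 1) ((n - 1 : ℕ) : ℝ) s *
    (AA1 d k n s * XA d (k - 1) (n - 1) s - XA d k n s * AA1 d (k - 1) ((n - 1 : ℕ) : ℝ) s) /
    XA d (k - 1) (n - 1) s ^ 3

theorem jet_A {d : ℕ} {k n : ℕ} {s : ℝ} (h : XA d (k - 1) (n - 1) s ≠ 0) :
    Jet (wf (XA d) k n) (wA1 d k n) (wA2 d k n s) s :=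
  jet_ratio (M := XA d k n) (g := XA d (k - 1) (n - 1)) (hasDerivAt_AA d k n)
    (hasDerivAt_AA1 d k n) (hasDerivAt_AA d (k - 1) ((n - 1 : ℕ) : ℝ))
    (hasDerivAt_AA1 d (k - 1) ((n - 1 : ℕ) : ℝ)) h

theorem continuous_XA (d k n : ℕ) : Continuous (XA d k n) := by
  rw [continuous_iff_continuousAt]
  intro x
  exact (hasDerivAt_AA d k n x).continuousAt

/-- facts carried for the polynomial family. -/
structure AGood (d k n : ℕ) (s : ℝ) : Prop where
  pos : 0 < XA d k n s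
  pos1 : 0 < XA d (k - 1) (n - 1) s
  one_lt : 1 < wf (XA d) k n s
  bound : (k : ℝ) * wf (XA d) k n s ≤ n + s * (((n : ℝ) - k) / n)
  c1 : 0 ≤ wA2 d k n s
  c2 : ((n : ℝ) + s) * wA1 d k n s ≤ wf (XA d) k n s

theorem XA_one (d n : ℕ) (s : ℝ) : XA d 1 n s = n + s := by
  simp only [XA, Ratio.AA]
  push_cast
  ring

theorem XA_two (d n : ℕ) (s : ℝ) :
    XA d 2 n s = ((n + s) * (n + s - 1) - 2 * d * s) / 2 := by
  simp only [XA, Ratio.AA]
  push_cast
  ring

theorem AA1_one (d : ℕ) (n s : ℝ) : AA1 d 1 n s = 1 := by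
  simp only [AA1, Ratio.AA]
  push_cast
  ring

theorem AA1_two (d : ℕ) (n s : ℝ) : AA1 d 2 n s = (2 * (n + s) - 1 - 2 * d) / 2 := by
  simp only [AA1, Ratio.AA]
  push_cast
  ring

theorem AA2_one (d : ℕ) (n s : ℝ) : AA2 d 1 n s = 0 := by
  simp only [AA2, AA1]
  push_cast
  ring

theorem AA2_two (d : ℕ) (n s : ℝ) : AA2 d 2 n s = 1 := by
  simp only [AA2, AA1, Ratio.AA]
  push_cast
  ring

/-- level 2. -/
theorem agood_two {d n : ℕ} (hd : 3 ≤ d) (hdn : d ≤ n) {s : ℝ} (hs0 : 0 ≤ s) (hsn : s ≤ n) :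
    AGood d 2 (n + 1) s := by
  have hd' : (3:ℝ) ≤ d := by exact_mod_cast hd
  have hdn' : (d:ℝ) ≤ n := by exact_mod_cast hdn
  set M : ℝ := (n : ℝ) with hM
  have hg : 0 < M + s := by linarith
  have hds : (d : ℝ) * s ≤ M * s := mul_le_mul_of_nonneg_right hdn' hs0
  have e1 : XA d (2 - 1) (n + 1 - 1) s = M + s := by
    simp only [Nat.add_sub_cancel]
    exact XA_one d n s
  have e2 : XA d 2 (n + 1) s = ((M + 1 + s) * (M + s) - 2 * d * s) / 2 := by
    rw [XA_two]; push_cast; ring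
  have ew : wf (XA d) 2 (n + 1) s = ((M + 1 + s) * (M + s) - 2 * d * s) / (2 * (M + s)) := by
    unfold wf
    rw [e1, e2]
    field_simp
  have f1 : AA1 d 2 ((n + 1 : ℕ) : ℝ) s = (2 * (M + 1 + s) - 1 - 2 * d) / 2 := by
    rw [AA1_two]; push_cast; ring
  have f2 : AA1 d (2 - 1) ((n + 1 - 1 : ℕ) : ℝ) s = 1 := AA1_one _ _ _
  have f3 : AA2 d 2 ((n + 1 : ℕ) : ℝ) s = 1 := AA2_two _ _ _
  have f4 : AA2 d (2 - 1) ((n + 1 - 1 : ℕ) : ℝ) s = 0 := AA2_one _ _ _
  have ew1 : wA1 d 2 (n + 1) s = ((M + s) ^ 2 - 2 * d * M) / (2 * (M + s) ^ 2) := by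
    unfold wA1
    rw [f1, f2, e1, e2]
    field_simp
    ring
  have ew2 : wA2 d 2 (n + 1) s = 2 * d * M / (M + s) ^ 3 := by
    unfold wA2
    rw [f1, f2, f3, f4, e1, e2]
    field_simp
    ring
  refine ⟨?_, ?_, ?_, ?_, ?_, ?_⟩
  · rw [e2]
    apply div_pos _ two_pos
    nlinarith
  · rw [e1]; exact hg
  · rw [ew, lt_div_iff₀ (by positivity)]
    nlinarith [sq_nonneg (s - 1)]
  · rw [ew]
    have h3 : ((2 : ℕ) : ℝ) * (((M + 1 + s) * (M + s) - 2 * d * s) / (2 * (M + s))) =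
        M + 1 + s * (1 - 2 * d / (M + s)) := by
      push_cast
      field_simp
      ring
    rw [h3]
    push_cast
    have hM1 : M + 1 ≠ 0 := by
      have : 0 ≤ M := by linarith
      positivity
    have h4 : (M + 1 - 2) / (M + 1) = 1 - 2 / (M + 1) := by field_simp
    rw [h4]
    have h5 : 2 / (M + 1) ≤ 2 * d / (M + s) := by
      rw [div_le_div_iff₀ (by linarith) hg]
      nlinarith
    nlinarith
  · rw [ew2]
    have : 0 ≤ M := by linarith
    positivity
  · rw [ew1, ew]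
    push_cast
    have h6 : ((M + 1 + s) * (M + s) - 2 * d * s) / (2 * (M + s)) =
        (((M + 1 + s) * (M + s) - 2 * d * s) * (M + s)) / (2 * (M + s) ^ 2) := by
      field_simp
    rw [h6, ← mul_div_assoc]
    apply div_le_div_of_nonneg_right _ (by positivity)
    have hsM : s ≤ M := hsn
    have h7 : s * (M + s) ≤ M * (M + 1 + s) := by nlinarith
    have h8 : (d : ℝ) * (s * (M + s)) ≤ d * (M * (M + 1 + s)) :=
      mul_le_mul_of_nonneg_left h7 (by linarith)
    nlinarith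

end Pool.Agent.MP_99e3ed_co.H84
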