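import Mathlib

namespace Pool.Agent.MP_99e3ed_co.H84

/-- numerator polynomial of `2D + sD'` at level 3. -/
def cond3 (n t d : ℝ) : ℝ :=
  2 * ((2 * (n + t - d) - 1 - 2 * d) * ((n + t) * (n + t - 1) - 2 * d * t) -
      ((n + t - d) * (n + t - d - 1) - 2 * d * t) * (2 * (n + t) - 1 - 2 * d)) *
      ((n + t - d) * (n + t - d - 1) - 2 * d * t) * ((n + t) * (n + t - 1) - 2 * d * t) +
  (t + d) * (2 * ((n + t - d) * (n + t - d - 1) - 2 * d * t) *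
      ((n + t) * (n + t - 1) - 2 * d * t) *
      (((n + t) * (n + t - 1) - 2 * d * t) - ((n + t - d) * (n + t - d - 1) - 2 * d * t)) -
      ((2 * (n + t - d) - 1 - 2 * d) ^ 2 * ((n + t) * (n + t - 1) - 2 * d * t) ^ 2 -
      (2 * (n + t) - 1 - 2 * d) ^ 2 * ((n + t - d) * (n + t - d - 1) - 2 * d * t) ^ 2))

theorem cond3_case1 (a t e : ℝ) : cond3 (2 * (3 + e) + a) t (3 + e) =
      (12*e^7 + 104*t*e^6 + 42*t^2*e^5 + 26*t^3*e^4 + 80*a*e^6 + 308*a*t*e^5 + 240*a*t^2*e^4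
       + 96*a*t^3*e^3 + 16*a*t^4*e^2 + 4*a*t^5*e + 134*a^2*e^5 + 398*a^2*t*e^4
       + 300*a^2*t^2*e^3 + 108*a^2*t^3*e^2 + 20*a^2*t^4*e + 116*a^3*e^4 + 272*a^3*t*e^3
       + 168*a^3*t^2*e^2 + 40*a^3*t^3*e + 66*a^4*e^3 + 106*a^4*t*e^2 + 40*a^4*t^2*e
       + 24*a^5*e^2 + 20*a^5*t*e + 4*a^6*e + 212*e^6 + 1718*t*e^5 + 510*t^2*e^4 + 254*t^3*e^3
       + 1306*a*e^5 + 4222*a*t*e^4 + 2580*a*t^2*e^3 + 756*a*t^3*e^2 + 76*a*t^4*e + 12*a*t^5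
       + 1836*a^2*e^4 + 4368*a^2*t*e^3 + 2448*a^2*t^2*e^2 + 588*a^2*t^3*e + 60*a^2*t^4
       + 1260*a^3*e^3 + 2236*a^3*t*e^2 + 928*a^3*t^2*e + 120*a^3*t^3 + 534*a^4*e^2
       + 586*a^4*t*e + 120*a^4*t^2 + 132*a^5*e + 60*a^5*t + 12*a^6 + 1581*e^5 + 11797*t*e^4
       + 2398*t^2*e^3 + 902*t^3*e^2 + 8868*a*e^4 + 23100*a*t*e^3 + 10352*a*t^2*e^2
       + 1964*a*t^3*e + 84*a*t^4 + 10062*a^2*e^3 + 17950*a^2*t*e^2 + 6636*a^2*t^2*e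
       + 792*a^2*t^3 + 5132*a^3*e^2 + 6116*a^3*t*e + 1272*a^3*t^2 + 1436*a^4*e + 804*a^4*t
       + 180*a^5 + 6425*e^4 + 43094*t*e^3 + 5378*t^2*e^2 + 1362*t^3*e + 32052*a*e^3
       + 63048*a*t*e^2 + 18364*a*t^2*e + 1680*a*t^3 + 27570*a^2*e^2 + 32732*a^2*t*e
       + 5976*a^2*t^2 + 9292*a^3*e + 5568*a^3*t + 1284*a^4 + 15271*e^3 + 88309*t*e^2
       + 5592*t^2*e + 720*t^3 + 65020*a*e^2 + 85826*a*t*e + 12144*a*t^2 + 37766*a^2*e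
       + 22344*a^2*t + 6312*a^3 + 21015*e^2 + 96234*t*e + 2016*t^2 + 70170*a*e + 46608*a*t
       + 20688*a^2 + 15228*e + 43560*t + 31464*a + 4320) +
      (4*t^3*e^3 + 6*t^4*e^2 + 46*t^3*e^2 + 38*t^4*e + 166*t^3*e + 60*t^4 + 192*t^3) * (3 + e - t) := by
  unfold cond3
  ring

theorem cond3_case2 (p v e : ℝ) : cond3 (2 * (3 + e) + (p + v)) (3 + e + p) (3 + e) =
      184*e^7 + 744*v*e^6 + 960*v^2*e^5 + 596*v^3*e^4 + 212*v^4*e^3 + 44*v^5*e^2 + 4*v^6*e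
       + 1000*p*e^6 + 3080*p*v*e^5 + 3190*p*v^2*e^4 + 1576*p*v^3*e^3 + 406*p*v^4*e^2
       + 44*p*v^5*e + 2204*p^2*e^5 + 5256*p^2*v*e^4 + 4200*p^2*v^2*e^3 + 1472*p^2*v^3*e^2
       + 200*p^2*v^4*e + 2640*p^3*e^4 + 4720*p^3*v*e^3 + 2608*p^3*v^2*e^2 + 480*p^3*v^3*e
       + 1856*p^4*e^3 + 2240*p^4*v*e^2 + 640*p^4*v^2*e + 736*p^5*e^2 + 448*p^5*v*e + 128*p^6*e
       + 3492*e^6 + 12432*v*e^5 + 13506*v^2*e^4 + 6728*v^3*e^3 + 1798*v^4*e^2 + 252*v^5*e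
       + 12*v^6 + 16460*p*e^5 + 43010*p*v*e^4 + 35916*p*v^2*e^3 + 13372*p*v^3*e^2
       + 2326*p*v^4*e + 132*p*v^5 + 30432*p^2*e^4 + 58872*p^2*v*e^3 + 35592*p^2*v^2*e^2
       + 8432*p^2*v^3*e + 600*p^2*v^4 + 29320*p^3*e^3 + 39872*p^3*v*e^2 + 14928*p^3*v^2*e
       + 1440*p^3*v^3 + 15584*p^4*e^2 + 12800*p^4*v*e + 1920*p^4*v^2 + 4192*p^5*e + 1344*p^5*v
       + 384*p^6 + 28258*e^5 + 86386*v*e^4 + 75940*v^2*e^3 + 28468*v^3*e^2 + 5078*v^4*e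
       + 360*v^5 + 112491*p*e^4 + 239856*p*v*e^3 + 151510*p*v^2*e^2 + 37780*p*v^3*e
       + 3324*p*v^4 + 167616*p^2*e^3 + 246928*p^2*v*e^2 + 100416*p^2*v^2*e + 12048*p^2*v^3
       + 121824*p^3*e^2 + 112096*p^3*v*e + 21312*p^3*v^2 + 43520*p^4*e + 18240*p^4*v
       + 5952*p^5 + 126306*e^4 + 319456*v*e^3 + 213296*v^2*e^2 + 53512*v^3*e + 4776*v^4
       + 408418*p*e^3 + 667644*p*v*e^2 + 283808*p*v^2*e + 35544*p*v^3 + 460212*p^2*e^2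
       + 459608*p^2*v*e + 94320*p^2*v^2 + 224392*p^3*e + 104880*p^3*v + 40416*p^4 + 336494*e^3
       + 662946*v*e^2 + 299246*v^2*e + 37704*v^3 + 830455*p*e^2 + 927438*p*v*e + 199176*p*v^2
       + 629680*p^2*e + 320280*p^2*v + 154560*p^3 + 533754*e^2 + 731844*v*e + 167748*v^2
       + 896172*p*e + 514260*p*v + 343344*p^2 + 466128*e + 335664*v + 400716*p + 172584 := by
  unfold cond3
  ring

theorem cond3_nonneg {n t d : ℝ} (hd : 3 ≤ d) (hn : 2 * d ≤ n) (ht : 0 ≤ t)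
    (htn : t ≤ n - d) : 0 ≤ cond3 n t d := by
  obtain ⟨e, he⟩ : ∃ e, d = 3 + e := ⟨d - 3, by ring⟩
  have he0 : 0 ≤ e := by linarith
  subst he
  rcases le_total t (3 + e) with h | h
  · obtain ⟨a, ha⟩ : ∃ a, n = 2 * (3 + e) + a := ⟨n - 2 * (3 + e), by ring⟩
    have ha0 : 0 ≤ a := by linarith
    subst ha
    rw [cond3_case1]
    have h2 : 0 ≤ 3 + e - t := by linarith
    generalize 3 + e - t = q at h2
    positivity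
  · obtain ⟨p, hp⟩ : ∃ p, t = 3 + e + p := ⟨t - (3 + e), by ring⟩
    have hp0 : 0 ≤ p := by linarith
    subst hp
    obtain ⟨v, hv⟩ : ∃ v, n = 2 * (3 + e) + (p + v) := ⟨n - 2 * (3 + e) - p, by ring⟩
    have hv0 : 0 ≤ v := by linarith
    subst hv
    rw [cond3_case2]
    positivity

end Pool.Agent.MP_99e3ed_co.H84
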