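import Mathlib
import Pool.Agent.Lib.MP_99e3ed_co.H84.Step

open Filter Topology Finset

namespace Pool.Agent.MP_99e3ed_co.H84

variable {d k n : ℕ} {s : ℝ} {u : ℕ → ℝ → ℝ}

/-- generic bound `U ≤ (N-K)/N`, `K = k+2`, `N = n+1`. -/
theorem gen_U (hd : 2 ≤ d) (hkn : k + 1 + d ≤ n) (hsn : s ≤ n)
    (hu1 : ∀ l < d, 1 < u l s)
    (hub : ∀ l < d, ((k : ℝ) + 1) * u l s ≤ ((n : ℝ) - l) +
      max (s - d) 0 * ((((n : ℝ) - l) - (k + 1)) / ((n : ℝ) - l))) :
    Uf u d s ≤ ((n : ℝ) + 1 - (k + 2)) / (n + 1) := by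
  have hd0 : 0 < d := by omega
  have hd' : (2:ℝ) ≤ d := by exact_mod_cast hd
  have hkn' : (k : ℝ) + 1 + d ≤ n := by exact_mod_cast hkn
  have hk0 : (0:ℝ) ≤ k := Nat.cast_nonneg k
  -- factor bound
  have hfac : ∀ l < d, (l : ℝ) ≤ 1 → 1 - 1 / u l s ≤
      2 * ((n : ℝ) - l - (k + 1)) / ((n : ℝ) - l + ((n : ℝ) - l - (k + 1))) := by
    intro l hl hl1
    have h1 := hub l hl
    have h2 := hu1 l hl
    have hl0 : (0:ℝ) ≤ l := Nat.cast_nonneg l
    have hnl : 0 < (n : ℝ) - l := by linarith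
    have hml : 0 ≤ (n : ℝ) - l - (k + 1) := by linarith
    have h3 : max (s - d) 0 ≤ (n : ℝ) - l := by
      apply max_le
      · linarith
      · exact hnl.le
    have h4 : max (s - d) 0 * ((((n : ℝ) - l) - (k + 1)) / ((n : ℝ) - l)) ≤
        (n : ℝ) - l - (k + 1) := by
      calc max (s - d) 0 * ((((n : ℝ) - l) - (k + 1)) / ((n : ℝ) - l))
          ≤ ((n : ℝ) - l) * ((((n : ℝ) - l) - (k + 1)) / ((n : ℝ) - l)) :=
            mul_le_mul_of_nonneg_right h3 (div_nonneg hml hnl.le)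
        _ = _ := by field_simp
    have h5 : ((k : ℝ) + 1) * u l s ≤ (n : ℝ) - l + ((n : ℝ) - l - (k + 1)) := by linarith
    have hden : 0 < (n : ℝ) - l + ((n : ℝ) - l - (k + 1)) := by linarith
    have h6 : ((k : ℝ) + 1) / ((n : ℝ) - l + ((n : ℝ) - l - (k + 1))) ≤ 1 / u l s := by
      rw [div_le_div_iff₀ hden (by linarith)]
      linarith
    have h7 : 2 * ((n : ℝ) - l - (k + 1)) / ((n : ℝ) - l + ((n : ℝ) - l - (k + 1))) =
        1 - ((k : ℝ) + 1) / ((n : ℝ) - l + ((n : ℝ) - l - (k + 1))) := by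
      field_simp
      ring
    rw [h7]
    linarith
  have hf0 := hfac 0 (by omega) (by norm_num)
  have hf1 := hfac 1 (by omega) (by norm_num)
  have hpos : ∀ l < d, 0 ≤ 1 - 1 / u l s ∧ 1 - 1 / u l s ≤ 1 := by
    intro l hl
    have := hu1 l hl
    have h2 : 1 / u l s < 1 := by
      rw [div_lt_one (by linarith)]
      exact this
    have h3 : 0 < 1 / u l s := by positivity
    exact ⟨by linarith, by linarith⟩
  have halp : alp u d s ≤ (1 - 1 / u 0 s) * (1 - 1 / u 1 s) := by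
    have e : alp u d s = (∏ l ∈ range 2, (1 - 1 / u l s)) *
        ∏ l ∈ Ico 2 d, (1 - 1 / u l s) := by
      unfold alp
      rw [prod_range_mul_prod_Ico _ hd]
    have e2 : ∏ l ∈ range 2, (1 - 1 / u l s) =
        (1 - 1 / u 0 s) * (1 - 1 / u 1 s) := by
      rw [prod_range_succ, prod_range_one]
    rw [e, e2]
    have h1 : ∏ l ∈ Ico 2 d, (1 - 1 / u l s) ≤ 1 := by
      apply prod_le_one
      · intro l hl; exact (hpos l (mem_Ico.1 hl).2).1
      · intro l hl; exact (hpos l (mem_Ico.1 hl).2).2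
    have h2 : 0 ≤ (1 - 1 / u 0 s) * (1 - 1 / u 1 s) :=
      mul_nonneg (hpos 0 (by omega)).1 (hpos 1 (by omega)).1
    nlinarith
  set m : ℝ := (n : ℝ) - (k + 1) with hm
  have hm1 : 2 ≤ m := by rw [hm]; linarith
  have hnm : (n : ℝ) = m + (k + 1) := by rw [hm]; ring
  simp only [Nat.cast_zero, sub_zero] at hf0
  simp only [Nat.cast_one] at hf1
  have hf0' : 1 - 1 / u 0 s ≤ 2 * m / (n + m) := by
    have e : (n : ℝ) - (k + 1) = m := rfl
    rw [e] at hf0
    exact hf0
  have hf1' : 1 - 1 / u 1 s ≤ 2 * (m - 1) / (n - 1 + (m - 1)) := by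
    have e : (n : ℝ) - 1 - (k + 1) = m - 1 := by rw [hm]; ring
    rw [e] at hf1
    exact hf1
  have hn0 : (0:ℝ) < n := by linarith
  have h8 : alp u d s ≤ (2 * m / (n + m)) * (2 * (m - 1) / (n - 1 + (m - 1))) := by
    refine le_trans halp ?_
    apply mul_le_mul hf0' hf1' (hpos 1 (by omega)).1
    positivity
  have h9 : (2 * m / (n + m)) * (2 * (m - 1) / (n - 1 + (m - 1))) ≤ 2 * m / (n + 1 + m) := by
    rw [div_mul_div_comm, div_le_div_iff₀ (by apply mul_pos <;> nlinarith) (by linarith)]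
    have hS : (n : ℝ) - 1 + (m - 1) = n + m - 2 := by ring
    rw [hS]
    have h10 : 2 * (m - 1) * (n + m + 1) ≤ (n + m) * (n + m - 2) := by
      rw [hnm]
      nlinarith
    nlinarith [mul_le_mul_of_nonneg_left h10 (show (0:ℝ) ≤ 2 * m by linarith)]
  have h11 := le_trans h8 h9
  have hle := alp_le_one (u := u) (d := d) (s := s) hu1
  have h12 : (n : ℝ) + 1 - (k + 2) = m := by rw [hm]; ring
  rw [h12]
  unfold Uf
  rw [div_le_div_iff₀ (by linarith) (by positivity)]
  rw [le_div_iff₀ (by linarith)] at h11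
  nlinarith

/-- generic lower bound for `V`. -/
theorem gen_V (hkn : k + 1 + d ≤ n) (hds : (d : ℝ) ≤ s)
    (hu1 : ∀ l < d, 1 < u l s)
    (hub : ∀ l < d, ((k : ℝ) + 1) * u l s ≤ ((n : ℝ) - l) +
      max (s - d) 0 * ((((n : ℝ) - l) - (k + 1)) / ((n : ℝ) - l))) :
    (((n : ℝ) - (k + 1)) + (s - d) + 2 * d * (k + 1)) * ((n : ℝ) - (k + 1)) ≤
      ((n : ℝ) - (k + 1)) * (2 * Vf u d s - 1) * (((n : ℝ) - (k + 1)) + (s - d)) := by
  have hkn' : (k : ℝ) + 1 + d ≤ n := by exact_mod_cast hkn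
  have hk0 : (0:ℝ) ≤ k := Nat.cast_nonneg k
  have hd0 : (0:ℝ) ≤ d := Nat.cast_nonneg d
  rcases Nat.eq_zero_or_pos d with hdz | hdp
  · subst hdz
    have hV : Vf u 0 s = 1 := by simp [Vf]
    rw [hV]
    apply le_of_eq
    push_cast
    ring
  have hd1 : (1:ℝ) ≤ d := by exact_mod_cast hdp
  set m : ℝ := (n : ℝ) - (k + 1) with hm
  have hmd : (d : ℝ) ≤ m := by rw [hm]; linarith
  set e := s - (d : ℝ) with he
  have he0 : 0 ≤ e := by rw [he]; linarith
  set x := ((k : ℝ) + 1) / (m + e) with hx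
  have hme : 0 < m + e := by linarith
  have hx0 : 0 ≤ x := by positivity
  have hV : 1 + d * x ≤ Vf u d s := by
    have h1 : (1 + x) ^ d ≤ Vf u d s := by
      have hpc : (1 + x) ^ d = ∏ _l ∈ range d, (1 + x) := by rw [prod_const, card_range]
      unfold Vf
      rw [hpc]
      apply Finset.prod_le_prod
      · intro l _; positivity
      · intro l hl
        have hl' := mem_range.1 hl
        have h2 := hu1 l hl'
        have h3 := hub l hl'
        have hl0 : (0:ℝ) ≤ l := Nat.cast_nonneg l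
        have hld : (l : ℝ) + 1 ≤ d := by exact_mod_cast hl'
        have hnl : 0 < (n : ℝ) - l := by linarith
        have hml : 0 ≤ (n : ℝ) - l - (k + 1) := by linarith
        rw [max_eq_left he0] at h3
        have h4 : e * ((((n : ℝ) - l) - (k + 1)) / ((n : ℝ) - l)) ≤ e := by
          have : (((n : ℝ) - l) - (k + 1)) / ((n : ℝ) - l) ≤ 1 := by
            rw [div_le_one hnl]
            linarith
          nlinarith
        have h5 : ((k : ℝ) + 1) * (u l s - 1) ≤ m + e := by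
          rw [hm]
          linarith
        have h6 : u l s / (u l s - 1) = 1 + 1 / (u l s - 1) := by
          have : u l s - 1 ≠ 0 := by linarith
          field_simp
          ring
        rw [h6]
        have h7 : x ≤ 1 / (u l s - 1) := by
          rw [hx, div_le_div_iff₀ hme (by linarith)]
          linarith
        linarith
    refine le_trans ?_ h1
    exact one_add_mul_le_pow (by linarith) d
  have h2 : (m + e + 2 * d * (k + 1)) * m = m * (1 + 2 * (d * x)) * (m + e) := by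
    rw [hx]
    field_simp
  rw [h2]
  apply mul_le_mul_of_nonneg_right _ hme.le
  apply mul_le_mul_of_nonneg_left _ (by linarith)
  linarith

end Pool.Agent.MP_99e3ed_co.H84
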