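import Mathlib
import Pool.Agent.Lib.MP_99e3ed_co.H84.ADef
import Pool.Agent.Lib.MP_99e3ed_co.H84.Gen
import Pool.Agent.Lib.MP_99e3ed_co.H84.Cond3

open Filter Topology Finset

namespace Pool.Agent.MP_99e3ed_co.H84

/-- `D` and `D'` when `alpha` is an explicit quotient near `s`. -/
theorem Dsum_of_ratio {u u1 : ℕ → ℝ → ℝ} {u2 : ℕ → ℝ} {d : ℕ} {s : ℝ} {P P1 Q Q1 : ℝ → ℝ}
    {P2 Q2 : ℝ} (hu : ∀ l < d, Jet (u l) (u1 l) (u2 l) s) (h1 : ∀ l < d, 1 < u l s)
    (hP : Jet P P1 P2 s) (hQ : Jet Q Q1 Q2 s) (hP0 : P s ≠ 0) (hQ0 : Q s ≠ 0)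
    (heq : ∀ᶠ x in 𝓝 s, alp u d x = P x / Q x) :
    Dsum u u1 d s = P1 s / P s - Q1 s / Q s ∧
    Dsum' u u1 u2 d s = (P2 / P s - (P1 s / P s) ^ 2) - (Q2 / Q s - (Q1 s / Q s) ^ 2) := by
  have hev : ∀ᶠ x in 𝓝 s, (∀ l < d, HasDerivAt (u l) (u1 l x) x) ∧ (∀ l < d, 1 < u l x) := by
    have e1 : ∀ᶠ x in 𝓝 s, ∀ l ∈ range d, HasDerivAt (u l) (u1 l x) x := by
      rw [Finset.eventually_all]
      intro l hl
      exact (hu l (mem_range.1 hl)).1
    have e2 : ∀ᶠ x in 𝓝 s, ∀ l ∈ range d, 1 < u l x := by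
      rw [Finset.eventually_all]
      intro l hl
      exact (hu l (mem_range.1 hl)).continuousAt.eventually_const_lt (h1 l (mem_range.1 hl))
    filter_upwards [e1, e2] with x hx1 hx2
    exact ⟨fun l hl => hx1 l (mem_range.2 hl), fun l hl => hx2 l (mem_range.2 hl)⟩
  have hPn : ∀ᶠ x in 𝓝 s, P x ≠ 0 := hP.continuousAt.eventually_ne hP0
  have hQn : ∀ᶠ x in 𝓝 s, Q x ≠ 0 := hQ.continuousAt.eventually_ne hQ0
  have heq' : ∀ᶠ x in 𝓝 s, alp u d =ᶠ[𝓝 x] fun x => P x / Q x :=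
    (show alp u d =ᶠ[𝓝 s] fun x => P x / Q x from heq).eventuallyEq_nhds
  have hD : ∀ᶠ x in 𝓝 s, Dsum u u1 d x = P1 x / P x - Q1 x / Q x := by
    filter_upwards [hev, hPn, hQn, heq', hP.1, hQ.1] with x hx hPx hQx hxe hPd hQd
    have h2 := hasDerivAt_alp hx.1 hx.2
    have h3 := hPd.div hQd hQx
    have h4 := (h3.congr_of_eventuallyEq hxe).unique h2
    have h5 : alp u d x = P x / Q x := hxe.self_of_nhds
    rw [h5] at h4
    have h6 : P x / Q x ≠ 0 := div_ne_zero hPx hQx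
    have h7 : Dsum u u1 d x = ((P1 x * Q x - P x * Q1 x) / Q x ^ 2) / (P x / Q x) := by
      rw [h4]
      field_simp
    rw [h7]
    field_simp
  refine ⟨hD.self_of_nhds, ?_⟩
  have h8 := hasDerivAt_Dsum (u := u) (u1 := u1) (u2 := u2) (d := d) (s := s)
    (fun l hl => (hu l hl).hasDerivAt) (fun l hl => (hu l hl).2) h1
  have h9 : HasDerivAt (fun x => P1 x / P x - Q1 x / Q x)
      ((P2 / P s - (P1 s / P s) ^ 2) - (Q2 / Q s - (Q1 s / Q s) ^ 2)) s := by
    have h10 := (hP.2.div hP.hasDerivAt hP0).sub (hQ.2.div hQ.hasDerivAt hQ0)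
    refine h10.congr_deriv ?_
    field_simp
  exact h8.unique (h9.congr_of_eventuallyEq hD)

section

variable {d k n : ℕ} {s : ℝ}

noncomputable def uA (d k n : ℕ) (l : ℕ) (x : ℝ) : ℝ := wf (XA d) (k + 1) (n - l) (x - d)
noncomputable def uA1 (d k n : ℕ) (l : ℕ) (x : ℝ) : ℝ := wA1 d (k + 1) (n - l) (x - d)
noncomputable def uA2 (d k n : ℕ) (s : ℝ) (l : ℕ) : ℝ := wA2 d (k + 1) (n - l) (s - d)

theorem uA_jet (IH : ∀ l < d, AGood d (k + 1) (n - l) (s - d)) {l : ℕ}
    (hl : l < d) : Jet (uA d k n l) (uA1 d k n l) (uA2 d k n s l) s :=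
  (jet_A (k := k + 1) (n := n - l) (IH l hl).pos1.ne').comp_sub

theorem uA_near (hd : 0 < d) (IH : ∀ l < d, AGood d (k + 1) (n - l) (s - d)) :
    ∀ᶠ x in 𝓝 s, (∀ l < d, 0 < XA d (k + 1) (n - l) (x - d)) ∧
      0 < XA d (k + 1) n (x - d) ∧ (∀ l < d, 1 < wf (XA d) (k + 1) (n - l) (x - d)) := by
  have e1 : ∀ᶠ x in 𝓝 s, ∀ l ∈ range d, 0 < XA d (k + 1) (n - l) (x - d) := by
    rw [Finset.eventually_all]
    intro l hl
    have hc : Continuous fun x : ℝ => XA d (k + 1) (n - l) (x - d) :=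
      (continuous_XA d (k + 1) (n - l)).comp (continuous_id.sub continuous_const)
    exact hc.continuousAt.eventually_const_lt (IH l (mem_range.1 hl)).pos
  have e2 : ∀ᶠ x in 𝓝 s, ∀ l ∈ range d, 1 < wf (XA d) (k + 1) (n - l) (x - d) := by
    rw [Finset.eventually_all]
    intro l hl
    exact (uA_jet IH (mem_range.1 hl)).continuousAt.eventually_const_lt
      (IH l (mem_range.1 hl)).one_lt
  filter_upwards [e1, e2] with x hx1 hx2
  refine ⟨fun l hl => hx1 l (mem_range.2 hl), ?_, fun l hl => hx2 l (mem_range.2 hl)⟩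
  have := hx1 0 (mem_range.2 hd)
  simpa using this

theorem wf_rec_A (hd : 0 < d) (hdn : d ≤ n)
    (IH : ∀ l < d, AGood d (k + 1) (n - l) (s - d)) :
    0 < XA d (k + 1) n s ∧
    ((k : ℝ) + 2) * wf (XA d) (k + 2) (n + 1) s = ((n : ℝ) + 1) + s * Uf (uA d k n) d s := by
  obtain ⟨h1, h2, h3⟩ := (uA_near hd IH).self_of_nhds
  exact wf_rec (fam_XA d) two_pos hdn h1 h2 h3

theorem wA_step (hd : 0 < d) (hdn : d ≤ n)
    (IH : ∀ l < d, AGood d (k + 1) (n - l) (s - d)) :
    ((k : ℝ) + 2) * wA1 d (k + 2) (n + 1) s = Uf (uA d k n) d s *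
      (1 + s * Dsum (uA d k n) (uA1 d k n) d s * (1 + Uf (uA d k n) d s)) ∧
    ((k : ℝ) + 2) * wA2 d (k + 2) (n + 1) s =
      Uf (uA d k n) d s * (1 + Uf (uA d k n) d s) *
      (2 * Dsum (uA d k n) (uA1 d k n) d s + s * Dsum' (uA d k n) (uA1 d k n) (uA2 d k n s) d s +
      s * Dsum (uA d k n) (uA1 d k n) d s ^ 2 * (1 + 2 * Uf (uA d k n) d s)) := by
  have hpos := (wf_rec_A hd hdn IH).1
  have hJ : Jet (wf (XA d) (k + 2) (n + 1)) (wA1 d (k + 2) (n + 1)) (wA2 d (k + 2) (n + 1) s) s :=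
    jet_A (k := k + 2) (n := n + 1) hpos.ne'
  apply jet_step (by positivity) (fun l hl => uA_jet IH hl)
    (fun l hl => (IH l hl).one_lt) hJ
  filter_upwards [uA_near hd IH] with x hx
  exact (wf_rec (fam_XA d) two_pos hdn hx.1 hx.2.1 hx.2.2).2

/-- The step for the polynomial family, given `2D + sD' ≥ 0`. -/
theorem step_A (hd : 3 ≤ d) (hkn : k + 1 + d ≤ n) (hds : (d : ℝ) ≤ s) (hsn : s ≤ n)
    (hNd : 2 * (d : ℝ) < n + s)
    (IH : ∀ l < d, AGood d (k + 1) (n - l) (s - d))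
    (hQ : 0 ≤ 2 * Dsum (uA d k n) (uA1 d k n) d s +
      s * Dsum' (uA d k n) (uA1 d k n) (uA2 d k n s) d s)
    (hreg : 3 * (d : ℝ) ≤ n + 1 ∨ (k = 1 ∧ 2 * d ≤ n ∧ n + 1 < 3 * d)) :
    AGood d (k + 2) (n + 1) s ∧
    0 ≤ 2 * xi (wf (XA d) (k + 2) (n + 1) s) (wA1 d (k + 2) (n + 1) s) +
      (s + d) * xi' (wf (XA d) (k + 2) (n + 1) s) (wA1 d (k + 2) (n + 1) s)
        (wA2 d (k + 2) (n + 1) s) := by
  have hd0 : 0 < d := by omega
  have hd' : (3:ℝ) ≤ d := by exact_mod_cast hd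
  have hkn' : (k : ℝ) + 1 + d ≤ n := by exact_mod_cast hkn
  have hk0 : (0:ℝ) ≤ k := Nat.cast_nonneg k
  have hk2 : (0:ℝ) < (k : ℝ) + 2 := by positivity
  have hs0 : 0 < s := by linarith
  have hu1 : ∀ l < d, 1 < uA d k n l s := fun l hl => (IH l hl).one_lt
  have hub : ∀ l < d, ((k : ℝ) + 1) * uA d k n l s ≤ ((n : ℝ) - l) +
      max (s - d) 0 * ((((n : ℝ) - l) - (k + 1)) / ((n : ℝ) - l)) := by
    intro l hl
    have h := (IH l hl).bound
    have e : ((n - l : ℕ) : ℝ) = (n : ℝ) - l := by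
      rw [Nat.cast_sub (by omega)]
    rw [e] at h
    push_cast at h
    rw [max_eq_left (by linarith)]
    exact h
  have hU := Uf_pos hu1
  have hU1 := Uf_le_one hu1
  have hUV := Uf_eq hu1
  have hV1 := one_le_Vf hu1
  obtain ⟨hposX, e0⟩ := wf_rec_A hd0 (by omega) IH
  obtain ⟨e1, e2⟩ := wA_step hd0 (by omega) IH
  have h3 := c1_step hs0 hU e2 hQ
  have hUle := gen_U (by omega) hkn hsn hu1 hub
  have hVle := gen_V hkn hds hu1 hub
  have hcc := c2_step (u := uA d k n) (u1 := uA1 d k n) (d := d) (n := (n : ℝ) + 1) (s := s)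
    hs0 (by linarith) (by linarith) hu1 (by
      intro l hl
      have h3 := hub l hl
      have hl0 : (0:ℝ) ≤ l := Nat.cast_nonneg l
      have hld : (l : ℝ) + 1 ≤ d := by exact_mod_cast hl
      have hnl : 0 < (n : ℝ) - l := by linarith
      have hml : 0 ≤ (n : ℝ) - l - (k + 1) := by linarith
      rw [max_eq_left (by linarith)] at h3
      have h4 : (s - d) * ((((n : ℝ) - l) - (k + 1)) / ((n : ℝ) - l)) ≤ s - d := by
        have : (((n : ℝ) - l) - (k + 1)) / ((n : ℝ) - l) ≤ 1 := by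
          rw [div_le_one hnl]
          linarith
        nlinarith
      have h5 := hu1 l hl
      nlinarith) (by
      intro l hl
      have h6 := (IH l hl).c2
      have e : ((n - l : ℕ) : ℝ) = (n : ℝ) - l := by
        rw [Nat.cast_sub (by omega)]
      rw [e] at h6
      have e2 : (n : ℝ) + 1 + s - 1 - d - l = (n : ℝ) - l + (s - d) := by ring
      rw [e2]
      exact h6)
  set U := Uf (uA d k n) d s with hUdef
  set D := Dsum (uA d k n) (uA1 d k n) d s with hDdef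
  set V := Vf (uA d k n) d s with hVdef
  set w := wf (XA d) (k + 2) (n + 1) s with hw
  have hC2 : ((n : ℝ) + 1 + s) * wA1 d (k + 2) (n + 1) s ≤ w := by
    have : ((k : ℝ) + 2) * (((n : ℝ) + 1 + s) * wA1 d (k + 2) (n + 1) s) ≤
        ((k : ℝ) + 2) * w := by
      rw [e0]
      calc ((k : ℝ) + 2) * (((n : ℝ) + 1 + s) * wA1 d (k + 2) (n + 1) s)
          = ((n : ℝ) + 1 + s) * (((k : ℝ) + 2) * wA1 d (k + 2) (n + 1) s) := by ring
        _ = ((n : ℝ) + 1 + s) * (U * (1 + s * D * (1 + U))) := by rw [e1]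
        _ ≤ _ := hcc
    exact le_of_mul_le_mul_left this hk2
  have hw1 : 1 < w := by
    have : (k : ℝ) + 2 < ((k : ℝ) + 2) * w := by
      rw [e0]
      nlinarith [mul_pos hs0 hU]
    nlinarith
  have hpos : 0 < XA d (k + 2) (n + 1) s := by
    have e4 : w = XA d (k + 2) (n + 1) s / XA d (k + 1) n s := rfl
    have e5 : XA d (k + 2) (n + 1) s = w * XA d (k + 1) n s := by
      rw [e4]; field_simp
    rw [e5]
    exact mul_pos (by linarith) hposX
  have hW2 : 0 ≤ wA2 d (k + 2) (n + 1) s := by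
    have h4 : 0 ≤ U * ((1 + s * D * (1 + U)) - 1) ^ 2 / s := by positivity
    exact nonneg_of_mul_nonneg_right (le_trans h4 h3) hk2
  refine ⟨⟨hpos, hposX, hw1, ?_, hW2, ?_⟩, ?_⟩
  · push_cast
    rw [e0]
    have := mul_le_mul_of_nonneg_left hUle hs0.le
    linarith
  · push_cast
    exact hC2
  · set m : ℝ := (n : ℝ) - (k + 1) with hm
    have hm0 : 0 < m := by rw [hm]; linarith
    have hmd : (d : ℝ) ≤ m := by rw [hm]; linarith
    have hmN : (n : ℝ) + 1 - (k + 2) = m := by rw [hm]; ring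
    have hUm : U * ((n : ℝ) + 1) ≤ m := by
      rw [hmN, le_div_iff₀ (by linarith)] at hUle
      exact hUle
    refine q_step (k := (k : ℝ) + 2) (n := (n : ℝ) + 1) (s := s) (d := d) (U := U)
      (τ := 1 + s * D * (1 + U)) hk2 hs0 (by linarith) (by linarith) hU (by linarith) e0 e1 h3
      hcc ?_
    rcases le_total 0 (1 + s * D * (1 + U)) with hτ | hτ
    · left
      refine ⟨hτ, ?_⟩
      have hZn : (n : ℝ) + 1 ≤ m / U := by
        rw [le_div_iff₀ hU]
        linarith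
      have hmU : m / U = m * (2 * V - 1) := by
        rw [hUV]
        field_simp
      have hZd : 3 * (d : ℝ) ≤ m / U := by
        rcases hreg with h | ⟨hk1, hn2, hn3⟩
        · linarith
        · rw [hmU]
          subst hk1
          have hn2' : 2 * (d : ℝ) ≤ n := by exact_mod_cast hn2
          have hme : 0 < m + (s - d) := by linarith
          have h5 : 3 * (d : ℝ) * (m + (s - d)) ≤ (m + (s - d) + 2 * d * ((1 : ℕ) + 1)) * m := by
            have hm2 : 2 * (d : ℝ) - 2 ≤ m := by rw [hm]; push_cast; linarith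
            have hms : s - 2 ≤ m := by rw [hm]; push_cast; linarith
            push_cast
            rcases le_total s (2 * d) with h6 | h6
            · nlinarith [mul_nonneg (sub_nonneg.2 hmd)
                (show (0:ℝ) ≤ m + (s - d) - d by linarith)]
            · nlinarith [mul_nonneg (sub_nonneg.2 hms) hs0.le,
                mul_nonneg (sub_nonneg.2 hm2) (sub_nonneg.2 hmd), mul_nonneg (sub_nonneg.2 h6)
                (show (0:ℝ) ≤ d by linarith)]
          have h7 : 3 * (d : ℝ) * (m + (s - d)) ≤ m * (2 * V - 1) * (m + (s - d)) :=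
            le_trans h5 hVle
          exact le_of_mul_le_mul_right h7 hme
      have he := e_bound (s := s) (d := d) (n := (n : ℝ) + 1) (Z := m / U) hs0 (by linarith)
        (by linarith) (by linarith) hZn hZd
      rw [hmN]
      have h6 := mul_le_mul_of_nonneg_right he hU.le
      have h7 : m / U * U = m := by field_simp
      have h8 : (s + m / U) * U = m + s * U := by
        rw [add_mul, h7]; ring
      rw [mul_assoc, h8, h7] at h6
      exact h6
    · right
      refine ⟨hτ, ?_⟩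
      rw [hmN]
      have hsU : 0 < s * U := mul_pos hs0 hU
      have ha : 0 < (n : ℝ) + 1 + s * U := by linarith
      have hb : 0 < m + s * U := by linarith
      rw [div_add_div _ _ ha.ne' hb.ne', div_le_one (mul_pos ha hb)]
      have h9 : s * U ≤ m := by
        have : s * U ≤ (n + 1) * U := mul_le_mul_of_nonneg_right (by linarith) hU.le
        linarith
      have h10 : (s * U) * (s * U) ≤ ((n : ℝ) + 1) * m := by
        apply mul_le_mul _ h9 hsU.le (by linarith)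
        nlinarith
      nlinarith

end

end Pool.Agent.MP_99e3ed_co.H84
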