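import Mathlib
import Pool.Agent.Lib.MP_99e3ed_co.H84.AStep

open Filter Topology Finset

namespace Pool.Agent.MP_99e3ed_co.H84

/-- `2D + sD' ≥ 0` at level 3. -/
theorem level3_Q {d n : ℕ} {s : ℝ} (hd : 3 ≤ d) (hn : 2 * d ≤ n) (hds : (d : ℝ) ≤ s)
    (hsn : s ≤ n) (IH : ∀ l < d, AGood d (1 + 1) (n - l) (s - d)) :
    0 ≤ 2 * Dsum (uA d 1 n) (uA1 d 1 n) d s +
      s * Dsum' (uA d 1 n) (uA1 d 1 n) (uA2 d 1 n s) d s := by
  have hd0 : 0 < d := by omega
  have hd' : (3:ℝ) ≤ d := by exact_mod_cast hd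
  have hn' : 2 * (d : ℝ) ≤ n := by exact_mod_cast hn
  have hcast : ((n - d : ℕ) : ℝ) = (n : ℝ) - d := by rw [Nat.cast_sub (by omega)]
  have hsub : HasDerivAt (fun x : ℝ => x - (d : ℝ)) 1 s := (hasDerivAt_id s).sub_const _
  have hPj : Jet (fun x => XA d 2 (n - d) (x - d)) (fun x => AA1 d 2 ((n - d : ℕ) : ℝ) (x - d))
      (AA2 d 2 ((n - d : ℕ) : ℝ) (s - d)) s := by
    have : Jet (XA d 2 (n - d)) (AA1 d 2 ((n - d : ℕ) : ℝ)) (AA2 d 2 ((n - d : ℕ) : ℝ) (s - d))
        (s - d) := ⟨Filter.Eventually.of_forall (fun x => hasDerivAt_AA d 2 _ x),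
          hasDerivAt_AA1 d 2 _ _⟩
    exact this.comp_sub
  have hQj : Jet (fun x => XA d 2 n (x - d)) (fun x => AA1 d 2 (n : ℝ) (x - d))
      (AA2 d 2 (n : ℝ) (s - d)) s := by
    have : Jet (XA d 2 n) (AA1 d 2 (n : ℝ)) (AA2 d 2 (n : ℝ) (s - d))
        (s - d) := ⟨Filter.Eventually.of_forall (fun x => hasDerivAt_AA d 2 _ x),
          hasDerivAt_AA1 d 2 _ _⟩
    exact this.comp_sub
  have hQpos : 0 < XA d 2 n (s - d) := by
    have := (IH 0 hd0).pos
    simpa using this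
  have hPpos : 0 < XA d 2 (n - d) (s - d) := by
    rw [XA_two, hcast]
    have hM : (d : ℝ) ≤ (n : ℝ) - d := by linarith
    have hsd : 0 ≤ s - (d : ℝ) := by linarith
    set M : ℝ := (n : ℝ) - d with hM'
    set σ : ℝ := s - (d : ℝ) with hσ
    have hσM : σ ≤ M := by linarith
    apply div_pos _ two_pos
    have h1 : (d : ℝ) * σ ≤ M * σ := mul_le_mul_of_nonneg_right hM hsd
    nlinarith [sq_nonneg (2 * σ - 1)]
  have heq : ∀ᶠ x in 𝓝 s, alp (uA d 1 n) d x = XA d 2 (n - d) (x - d) / XA d 2 n (x - d) := by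
    filter_upwards [uA_near hd0 IH] with x hx
    have h1 := alp_wf (fam_XA d) (k := 1) (n := n) (m := d) (x := x - d) (by omega)
      (fun l hl => (hx.1 l hl).ne')
    rw [eq_div_iff hx.2.1.ne']
    exact h1
  obtain ⟨hD, hD'⟩ := Dsum_of_ratio (u := uA d 1 n) (u1 := uA1 d 1 n) (u2 := uA2 d 1 n s)
    (d := d) (s := s) (fun l hl => uA_jet IH hl) (fun l hl => (IH l hl).one_lt) hPj hQj
    hPpos.ne' hQpos.ne' heq
  rw [hD, hD']
  simp only [AA1_two, AA2_two, hcast]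
  have hcond := cond3_nonneg (n := (n : ℝ)) (t := s - d) (d := d) hd' hn' (by linarith)
    (by linarith)
  have hP2 : XA d 2 (n - d) (s - d) =
      (((n : ℝ) + (s - d) - d) * ((n : ℝ) + (s - d) - d - 1) - 2 * d * (s - d)) / 2 := by
    rw [XA_two, hcast]; ring
  have hQ2 : XA d 2 n (s - d) =
      (((n : ℝ) + (s - d)) * ((n : ℝ) + (s - d) - 1) - 2 * d * (s - d)) / 2 := by
    rw [XA_two]
  rw [hP2] at hPpos ⊢
  rw [hQ2] at hQpos ⊢
  unfold cond3 at hcond
  set σ := s - (d : ℝ) with hσ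
  have hs : s = σ + d := by rw [hσ]; ring
  rw [hs]
  set p := (((n : ℝ) + σ - d) * ((n : ℝ) + σ - d - 1) - 2 * d * σ) with hp
  set q := (((n : ℝ) + σ) * ((n : ℝ) + σ - 1) - 2 * d * σ) with hq
  have hp0 : 0 < p := by linarith
  have hq0 : 0 < q := by linarith
  have e1 : 2 * ((n : ℝ) - d + σ) - 1 - 2 * d = 2 * ((n : ℝ) + σ - d) - 1 - 2 * d := by ring
  rw [e1]
  set p1 := 2 * ((n : ℝ) + σ - d) - 1 - 2 * d with hp1
  set q1 := 2 * ((n : ℝ) + σ) - 1 - 2 * d with hq1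
  have e2 : 2 * (p1 / 2 / (p / 2) - q1 / 2 / (q / 2)) +
      (σ + d) * ((1 / (p / 2) - (p1 / 2 / (p / 2)) ^ 2) - (1 / (q / 2) - (q1 / 2 / (q / 2)) ^ 2)) =
      (2 * (p1 * q - p * q1) * p * q + (σ + d) * (2 * p * q * (q - p) -
        (p1 ^ 2 * q ^ 2 - q1 ^ 2 * p ^ 2))) / (p ^ 2 * q ^ 2) := by
    field_simp
    ring
  rw [e2]
  exact div_nonneg hcond (by positivity)

/-- The main induction for the polynomial family. -/
theorem agood {d : ℕ} (hd : 3 ≤ d) (k : ℕ) :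
    ∀ (n : ℕ) (s : ℝ), (k + 2) * d ≤ n → ((k : ℝ) + 1) * d ≤ s → s ≤ n →
      AGood d (k + 3) (n + 1) s ∧
      0 ≤ 2 * xi (wf (XA d) (k + 3) (n + 1) s) (wA1 d (k + 3) (n + 1) s) +
        (s + d) * xi' (wf (XA d) (k + 3) (n + 1) s) (wA1 d (k + 3) (n + 1) s)
          (wA2 d (k + 3) (n + 1) s) := by
  have hd0 : 0 < d := by omega
  have hd' : (3:ℝ) ≤ d := by exact_mod_cast hd
  induction k with
  | zero =>
    intro n s hn hs hsn
    have hn2 : 2 * d ≤ n := by simpa using hn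
    have hs1 : (d : ℝ) ≤ s := by
      have : (((0 : ℕ) : ℝ) + 1) * (d : ℝ) = d := by push_cast; ring
      rw [this] at hs
      exact hs
    have hn2' : 2 * (d : ℝ) ≤ n := by exact_mod_cast hn2
    have IH : ∀ l < d, AGood d (1 + 1) (n - l) (s - d) := by
      intro l hl
      obtain ⟨m, hm⟩ : ∃ m, n - l = m + 1 := ⟨n - l - 1, by omega⟩
      rw [hm]
      have h1 : n ≤ m + d := by omega
      have h1' : (n : ℝ) ≤ m + d := by exact_mod_cast h1
      exact agood_two hd (by omega) (by linarith) (by linarith)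
    have hQ := level3_Q hd hn2 hs1 hsn IH
    refine step_A (k := 1) hd (by omega) hs1 hsn (by linarith) IH hQ ?_
    by_cases h : 3 * d ≤ n + 1
    · left; exact_mod_cast h
    · right; exact ⟨rfl, hn2, by omega⟩
  | succ k ih =>
    intro n s hn hs hsn
    have hk0 : (0:ℝ) ≤ k := Nat.cast_nonneg k
    have hn3 : 3 * d ≤ n := by nlinarith
    have hs1 : ((k : ℝ) + 2) * d ≤ s := by push_cast at hs; linarith
    have hs2 : (d : ℝ) ≤ s := by nlinarith
    have IH' : ∀ l < d, AGood d (k + 3) (n - l) (s - d) ∧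
      0 ≤ 2 * xi (wf (XA d) (k + 3) (n - l) (s - d)) (wA1 d (k + 3) (n - l) (s - d)) +
        (s - d + d) * xi' (wf (XA d) (k + 3) (n - l) (s - d)) (wA1 d (k + 3) (n - l) (s - d))
          (wA2 d (k + 3) (n - l) (s - d)) := by
      intro l hl
      obtain ⟨m, hm⟩ : ∃ m, n - l = m + 1 := ⟨n - l - 1, by omega⟩
      rw [hm]
      have h1 : n ≤ m + d := by omega
      have h1' : (n : ℝ) ≤ m + d := by exact_mod_cast h1
      apply ih m (s - d)
      · have : (k + 1 + 2) * d = (k + 2) * d + d := by ring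
        omega
      · linarith
      · linarith
    have IH : ∀ l < d, AGood d (k + 2 + 1) (n - l) (s - d) := fun l hl => (IH' l hl).1
    have hQ : 0 ≤ 2 * Dsum (uA d (k + 2) n) (uA1 d (k + 2) n) d s +
        s * Dsum' (uA d (k + 2) n) (uA1 d (k + 2) n) (uA2 d (k + 2) n s) d s := by
      unfold Dsum Dsum'
      rw [mul_sum, mul_sum, ← sum_add_distrib]
      apply sum_nonneg
      intro l hl
      have h2 := (IH' l (mem_range.1 hl)).2
      have e : s - (d : ℝ) + d = s := by ring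
      rw [e] at h2
      exact h2
    have hn3' : 3 * (d : ℝ) ≤ n := by exact_mod_cast hn3
    have hkd : k + 2 + 1 + d ≤ n := by
      have h1 : (k + 1 + 2) * d = k * d + 3 * d := by ring
      have h2 : k * 1 ≤ k * d := Nat.mul_le_mul_left _ (by omega)
      omega
    exact step_A (k := k + 2) hd hkd hs2 hsn (by linarith) IH hQ (Or.inl (by linarith))

end Pool.Agent.MP_99e3ed_co.H84
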