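import Mathlib
import Pool.Agent.Lib.MP_99e3ed_co.H84.AMain
import Pool.Agent.Lib.MP_99e3ed_co.H84.FAT

open Filter Topology Finset

namespace Pool.Agent.MP_99e3ed_co.H84

open Pool.Agent.Lib.MP_99e3ed_co

/-- all levels `≥ 2`. -/
theorem agood_all {d : ℕ} (hd : 3 ≤ d) (k n : ℕ) {s : ℝ} (hn : (k + 1) * d ≤ n)
    (hs : (k : ℝ) * d ≤ s) (hsn : s ≤ n) : AGood d (k + 2) (n + 1) s := by
  rcases k with _ | k
  · exact agood_two hd (by simpa using hn) (by simpa using hs) hsn
  · exact (agood hd k n s (by simpa [add_assoc] using hn) (by push_cast at hs; exact hs) hsn).1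

theorem alp_mono {u v : ℕ → ℝ → ℝ} {d : ℕ} {s t : ℝ} (hu : ∀ l < d, 1 < u l s)
    (h : ∀ l < d, u l s ≤ v l t) : alp u d s ≤ alp v d t := by
  unfold alp
  apply Finset.prod_le_prod
  · intro l hl
    have h1 := hu l (mem_range.1 hl)
    have : 1 / u l s < 1 := by rw [div_lt_one (by linarith)]; exact h1
    linarith
  · intro l hl
    have h1 := hu l (mem_range.1 hl)
    have h2 := h l (mem_range.1 hl)
    have : 1 / v l t ≤ 1 / u l s := one_div_le_one_div_of_le (by linarith) h2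
    linarith

theorem Uf_mono {u v : ℕ → ℝ → ℝ} {d : ℕ} {s t : ℝ} (hu : ∀ l < d, 1 < u l s)
    (h : ∀ l < d, u l s ≤ v l t) : Uf u d s ≤ Uf v d t := by
  have h1 := alp_mono hu h
  have h2 := alp_pos hu
  have hv : ∀ l < d, 1 < v l t := fun l hl => lt_of_lt_of_le (hu l hl) (h l hl)
  have h3 := alp_le_one hv
  unfold Uf
  rw [div_le_div_iff₀ (by linarith) (by linarith)]
  nlinarith

/-- monotonicity between `s - d` and `s`. -/
theorem wA_mono_d {d : ℕ} (hd : 3 ≤ d) (k : ℕ) :
    ∀ (n : ℕ) (s : ℝ), (k + 1) * d ≤ n → ((k : ℝ) + 1) * d ≤ s → s ≤ n →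
      wf (XA d) (k + 2) (n + 1) (s - d) ≤ wf (XA d) (k + 2) (n + 1) s := by
  have hd0 : 0 < d := by omega
  have hd' : (3:ℝ) ≤ d := by exact_mod_cast hd
  induction k with
  | zero =>
    intro n s hn hs hsn
    have hn' : (d : ℝ) ≤ n := by
      have : d ≤ n := by simpa using hn
      exact_mod_cast this
    have hs' : (d : ℝ) ≤ s := by
      have e : (((0 : ℕ) : ℝ) + 1) * (d : ℝ) = d := by push_cast; ring
      rw [e] at hs; exact hs
    have ew : ∀ x : ℝ, wf (XA d) 2 (n + 1) x =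
        (((n : ℝ) + 1 + x) * (n + x) - 2 * d * x) / (2 * (n + x)) := by
      intro x
      have e1 : XA d (2 - 1) (n + 1 - 1) x = n + x := by
        simp only [Nat.add_sub_cancel]
        exact XA_one d n x
      have e2 : XA d 2 (n + 1) x = (((n : ℝ) + 1 + x) * (n + x) - 2 * d * x) / 2 := by
        rw [XA_two]; push_cast; ring
      unfold wf
      rw [e1, e2, div_div]
    have e0 : (0 + 2 : ℕ) = 2 := rfl
    rw [e0, ew, ew]
    have h1 : 0 < (n : ℝ) + (s - d) := by linarith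
    have h2 : 0 < (n : ℝ) + s := by linarith
    have e3 : (((n : ℝ) + 1 + s) * (n + s) - 2 * d * s) / (2 * (n + s)) -
        (((n : ℝ) + 1 + (s - d)) * (n + (s - d)) - 2 * d * (s - d)) / (2 * (n + (s - d))) =
        d * (((n : ℝ) + s) * (n + (s - d)) - 2 * d * n) / (2 * (n + s) * (n + (s - d))) := by
      field_simp
      ring
    have h3 : 0 ≤ d * (((n : ℝ) + s) * (n + (s - d)) - 2 * d * n) /
        (2 * (n + s) * (n + (s - d))) := by
      apply div_nonneg _ (by positivity)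
      apply mul_nonneg (by linarith)
      nlinarith
    linarith
  | succ k ih =>
    intro n s hn hs hsn
    have hk0 : (0:ℝ) ≤ k := Nat.cast_nonneg k
    have hs1 : ((k : ℝ) + 2) * d ≤ s := by push_cast at hs; linarith
    have hs2 : 2 * (d : ℝ) ≤ s := by nlinarith
    have hdn : (k + 1) * d + d ≤ n := by
      have : (k + 1 + 1) * d = (k + 1) * d + d := by ring
      omega
    have hdn' : d ≤ n := by omega
    have IHs : ∀ l < d, AGood d (k + 1 + 1) (n - l) (s - d) := by
      intro l hl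
      obtain ⟨m, hm⟩ : ∃ m, n - l = m + 1 := ⟨n - l - 1, by omega⟩
      rw [hm]
      have h1 : n ≤ m + d := by omega
      have h1' : (n : ℝ) ≤ m + d := by exact_mod_cast h1
      exact agood_all hd k m (by omega) (by linarith) (by linarith)
    have IHd : ∀ l < d, AGood d (k + 1 + 1) (n - l) ((s - d) - d) := by
      intro l hl
      obtain ⟨m, hm⟩ : ∃ m, n - l = m + 1 := ⟨n - l - 1, by omega⟩
      rw [hm]
      have h1 : n ≤ m + d := by omega
      have h1' : (n : ℝ) ≤ m + d := by exact_mod_cast h1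
      exact agood_all hd k m (by omega) (by linarith) (by linarith)
    obtain ⟨_, e1⟩ := wf_rec_A hd0 hdn' IHs
    obtain ⟨_, e2⟩ := wf_rec_A hd0 hdn' IHd
    have hU : Uf (uA d (k + 1) n) d (s - d) ≤ Uf (uA d (k + 1) n) d s := by
      apply Uf_mono (fun l hl => (IHd l hl).one_lt)
      intro l hl
      unfold uA
      obtain ⟨m, hm⟩ : ∃ m, n - l = m + 1 := ⟨n - l - 1, by omega⟩
      rw [hm]
      have h1 : n ≤ m + d := by omega
      have h1' : (n : ℝ) ≤ m + d := by exact_mod_cast h1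
      exact ih m (s - d) (by omega) (by linarith) (by linarith)
    have hU0 : 0 < Uf (uA d (k + 1) n) d (s - d) := Uf_pos (fun l hl => (IHd l hl).one_lt)
    have h5 : (s - d) * Uf (uA d (k + 1) n) d (s - d) ≤ s * Uf (uA d (k + 1) n) d s := by
      apply mul_le_mul _ hU hU0.le (by linarith)
      linarith
    have hk3 : (0:ℝ) < ((k + 1 : ℕ) : ℝ) + 2 := by positivity
    have h6 : (((k + 1 : ℕ) : ℝ) + 2) * wf (XA d) (k + 1 + 2) (n + 1) (s - d) ≤
        (((k + 1 : ℕ) : ℝ) + 2) * wf (XA d) (k + 1 + 2) (n + 1) s := by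
      rw [e1, e2]
      linarith
    exact le_of_mul_le_mul_left h6 hk3

section

variable {d k n : ℕ}

theorem wA_convexOn (hd : 3 ≤ d) (hn : (k + 1) * d ≤ n) {a b : ℝ} (ha : (k : ℝ) * d ≤ a)
    (hb2 : b ≤ n) : ConvexOn ℝ (Set.Icc a b) (wf (XA d) (k + 2) (n + 1)) := by
  have hG : ∀ x ∈ Set.Icc a b, AGood d (k + 2) (n + 1) x := fun x hx =>
    agood_all hd k n hn (le_trans ha hx.1) (le_trans hx.2 hb2)
  have hJ : ∀ x ∈ Set.Icc a b, Jet (wf (XA d) (k + 2) (n + 1)) (wA1 d (k + 2) (n + 1))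
      (wA2 d (k + 2) (n + 1) x) x := fun x hx => jet_A (hG x hx).pos1.ne'
  have hev : ∀ x ∈ Set.Ioo a b, deriv (wf (XA d) (k + 2) (n + 1)) =ᶠ[𝓝 x]
      wA1 d (k + 2) (n + 1) := by
    intro x hx
    filter_upwards [Ioo_mem_nhds hx.1 hx.2] with y hy
    exact (hJ y (Set.Ioo_subset_Icc_self hy)).hasDerivAt.deriv
  apply convexOn_of_deriv2_nonneg (convex_Icc a b)
  · intro x hx
    exact (hJ x hx).continuousAt.continuousWithinAt
  · intro x hx
    rw [interior_Icc] at hx
    exact (hJ x (Set.Ioo_subset_Icc_self hx)).hasDerivAt.differentiableAt.differentiableWithinAt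
  · intro x hx
    rw [interior_Icc] at hx
    have h1 := (hJ x (Set.Ioo_subset_Icc_self hx)).2
    exact (h1.congr_of_eventuallyEq (hev x hx)).differentiableAt.differentiableWithinAt
  · intro x hx
    rw [interior_Icc] at hx
    have h1 := (hJ x (Set.Ioo_subset_Icc_self hx)).2
    have h2 : deriv^[2] (wf (XA d) (k + 2) (n + 1)) x = wA2 d (k + 2) (n + 1) x := by
      have : deriv^[2] (wf (XA d) (k + 2) (n + 1)) x =
          deriv (deriv (wf (XA d) (k + 2) (n + 1))) x := rfl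
      rw [this, (hev x hx).deriv_eq, h1.deriv]
    rw [h2]
    exact (hG x (Set.Ioo_subset_Icc_self hx)).c1

theorem wA_chord (hd : 3 ≤ d) (hn : (k + 1) * d ≤ n) {a b x : ℝ} (ha : (k : ℝ) * d ≤ a)
    (hab : a < b) (hb2 : b ≤ n) (hax : a ≤ x) (hxb : x ≤ b) :
    wf (XA d) (k + 2) (n + 1) x ≤ (x - a) / (b - a) * wf (XA d) (k + 2) (n + 1) b +
      (b - x) / (b - a) * wf (XA d) (k + 2) (n + 1) a := by
  have hc := (wA_convexOn hd hn ha hb2).2 (Set.left_mem_Icc.2 hab.le)
    (Set.right_mem_Icc.2 hab.le)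
    (show (0:ℝ) ≤ (b - x) / (b - a) from div_nonneg (by linarith) (by linarith))
    (show (0:ℝ) ≤ (x - a) / (b - a) from div_nonneg (by linarith) (by linarith)) (by
      have : b - a ≠ 0 := by linarith
      field_simp
      ring)
  have e : (b - x) / (b - a) * a + (x - a) / (b - a) * b = x := by
    have : b - a ≠ 0 := by linarith
    field_simp
    ring
  simp only [smul_eq_mul] at hc
  rw [e] at hc
  linarith

theorem wA_ratio (hd : 3 ≤ d) (hn : (k + 1) * d ≤ n) {a b : ℝ} (ha : (k : ℝ) * d ≤ a)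
    (hab : a ≤ b) (hb2 : b ≤ n) :
    ((n : ℝ) + 1 + a) * wf (XA d) (k + 2) (n + 1) b ≤
      ((n : ℝ) + 1 + b) * wf (XA d) (k + 2) (n + 1) a := by
  have hn0 : (0:ℝ) ≤ n := Nat.cast_nonneg n
  have ha0 : 0 ≤ a := le_trans (by positivity) ha
  have hG : ∀ x ∈ Set.Icc a b, AGood d (k + 2) (n + 1) x := fun x hx =>
    agood_all hd k n hn (le_trans ha hx.1) (le_trans hx.2 hb2)
  have hder : ∀ x ∈ Set.Icc a b, HasDerivAt
      (fun x => wf (XA d) (k + 2) (n + 1) x / ((n : ℝ) + 1 + x))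
      ((wA1 d (k + 2) (n + 1) x * ((n : ℝ) + 1 + x) - wf (XA d) (k + 2) (n + 1) x * 1) /
        ((n : ℝ) + 1 + x) ^ 2) x := by
    intro x hx
    have h1 := (jet_A (k := k + 2) (n := n + 1) (hG x hx).pos1.ne').hasDerivAt
    have hc : HasDerivAt (fun x : ℝ => (n : ℝ) + 1 + x) 1 x := (hasDerivAt_id x).const_add _
    have hne : (n : ℝ) + 1 + x ≠ 0 := by
      have := hx.1
      linarith
    exact h1.div hc hne
  have hanti : AntitoneOn (fun x => wf (XA d) (k + 2) (n + 1) x / ((n : ℝ) + 1 + x))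
      (Set.Icc a b) := by
    apply antitoneOn_of_deriv_nonpos (convex_Icc a b)
    · intro x hx
      exact (hder x hx).continuousAt.continuousWithinAt
    · intro x hx
      rw [interior_Icc] at hx
      exact (hder x (Set.Ioo_subset_Icc_self hx)).differentiableAt.differentiableWithinAt
    · intro x hx
      rw [interior_Icc] at hx
      have hx' := Set.Ioo_subset_Icc_self hx
      rw [(hder x hx').deriv]
      apply div_nonpos_of_nonpos_of_nonneg _ (sq_nonneg _)
      have h2 := (hG x hx').c2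
      push_cast at h2
      linarith
  have h := hanti (Set.left_mem_Icc.2 hab) (Set.right_mem_Icc.2 hab) hab
  simp only at h
  rw [div_le_div_iff₀ (by linarith) (by linarith)] at h
  linarith

end

theorem GA_eq (d k n : ℕ) (x : ℝ) :
    Ratio.GA d k ((n + 1 : ℕ) : ℝ) x = 1 / wf (XA d) k (n + 1) x := by
  unfold Ratio.GA wf XA
  have e : (((n + 1 : ℕ) : ℝ) - 1) = ((n + 1 - 1 : ℕ) : ℝ) := by
    simp only [Nat.add_sub_cancel]
    push_cast
    ring
  rw [one_div_div, e]

theorem faa : Ratio.FAA := by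
  intro d k n s δ hd hk hks hsn hδ hδd
  obtain ⟨K, rfl⟩ : ∃ K, k = K + 2 := ⟨k - 2, by omega⟩
  obtain ⟨N, rfl⟩ : ∃ N, n = N + 1 := ⟨n - 1, by omega⟩
  have hd0 : 0 < d := by omega
  have hd' : (3:ℝ) ≤ d := by exact_mod_cast hd
  have hδR : (1:ℝ) ≤ δ := by exact_mod_cast hδ
  have hδdR : (δ : ℝ) ≤ d := by exact_mod_cast hδd.le
  have hsn' : s ≤ N := Nat.lt_succ_iff.1 hsn
  have hsnR : (s : ℝ) ≤ N := by exact_mod_cast hsn'
  have e0 : K + 2 - 1 = K + 1 := by omega
  rw [e0] at hks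
  have hksR : ((K : ℝ) + 1) * d ≤ s := by exact_mod_cast hks
  have hK0 : (0:ℝ) ≤ K := Nat.cast_nonneg K
  have hN : (K + 1) * d ≤ N := le_trans hks hsn'
  have hKd : (K : ℝ) * d ≤ (s : ℝ) - d := by linarith
  have hS := agood_all hd K N (s := s) hN (by linarith) hsnR
  have hD := agood_all hd K N (s := (s : ℝ) - d) hN hKd (by linarith)
  have hX := agood_all hd K N (s := (s : ℝ) - δ) hN (by linarith) (by linarith)
  rw [GA_eq, GA_eq, GA_eq]
  have hnS : (0:ℝ) < ((N + 1 : ℕ) : ℝ) + s := by positivity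
  apply final_ineq
  · exact lt_trans one_pos hS.one_lt
  · exact lt_trans one_pos hD.one_lt
  · exact lt_trans one_pos hX.one_lt
  · rw [sub_nonneg, div_le_one hnS]
    push_cast
    nlinarith
  · rw [sub_nonneg, div_le_one (by linarith)]
    exact hδdR
  · have h := wA_chord hd hN (a := (s : ℝ) - d) (b := s) (x := (s : ℝ) - δ) hKd (by linarith)
      hsnR (by linarith) (by linarith)
    have e1 : (s : ℝ) - (s - d) = d := by ring
    have e2 : (s : ℝ) - δ - (s - d) = d - δ := by ring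
    have e3 : (s : ℝ) - (s - δ) = δ := by ring
    rw [e1, e2, e3] at h
    have e4 : (1:ℝ) - (δ : ℝ) / d = (d - δ) / d := by
      have : (d : ℝ) ≠ 0 := by linarith
      field_simp
    have e5 : (1:ℝ) - (1 - (δ : ℝ) / d) = δ / d := by ring
    rw [e5, e4]
    exact h
  · have h := wA_ratio hd hN (a := (s : ℝ) - δ) (b := s) (by linarith) (by linarith) hsnR
    have e1 : (1 - (δ : ℝ) / (((N + 1 : ℕ) : ℝ) + s)) =
        ((N : ℝ) + 1 + ((s : ℝ) - δ)) / ((N : ℝ) + 1 + s) := by
      push_cast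
      have : (N : ℝ) + 1 + s ≠ 0 := by positivity
      field_simp
      ring
    rw [e1, div_mul_eq_mul_div, div_le_iff₀ (by positivity)]
    linarith
  · exact wA_mono_d hd K N s hN hksR hsnR

end Pool.Agent.MP_99e3ed_co.H84
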